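import Pool.Agent.H390.Step

/-!
The chain of functions produced by the Schur algorithm, and the polynomials of the extremal
problem.
-/

namespace Pool.Agent.H390

open Complex Metric Set Filter Topology

/-- the function `sin (τ z/(1-z))` -/
noncomputable def S0 (τ : ℝ) (z : ℂ) : ℂ := Complex.sin ((τ:ℂ) / (1 - z) - τ)

/-- the function `cos (τ/(1-z))` -/
noncomputable def V0 (τ : ℝ) (z : ℂ) : ℂ := Complex.cos ((τ:ℂ) / (1 - z))

/-- `sin (τ z/(1-z)) / z` -/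
noncomputable def U0 (τ : ℝ) : ℂ → ℂ := dslope (S0 τ) 0

lemma one_sub_ne {z : ℂ} (hz : z ∈ ball (0:ℂ) 1) : (1:ℂ) - z ≠ 0 := by
  intro h
  have : z = 1 := by linear_combination -h
  rw [this] at hz
  simp at hz

lemma hasDerivAt_w (τ : ℝ) {z : ℂ} (hz : z ∈ ball (0:ℂ) 1) :
    HasDerivAt (fun w : ℂ => (τ:ℂ) / (1 - w)) ((τ:ℂ) / (1 - z)^2) z := by
  have h := one_sub_ne hz
  have h1 : HasDerivAt (fun w : ℂ => 1 - w) (-1) z := by
    simpa using (hasDerivAt_id z).const_sub 1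
  exact ((hasDerivAt_const z (τ:ℂ)).div h1 h).congr_deriv (by simp)

lemma hasDerivAt_S0 (τ : ℝ) {z : ℂ} (hz : z ∈ ball (0:ℂ) 1) :
    HasDerivAt (S0 τ) (Complex.cos ((τ:ℂ) / (1 - z) - τ) * ((τ:ℂ) / (1 - z)^2)) z := by
  have h := (hasDerivAt_w τ hz).sub_const (τ:ℂ)
  exact (Complex.hasDerivAt_sin _).comp z h

lemma hasDerivAt_V0 (τ : ℝ) {z : ℂ} (hz : z ∈ ball (0:ℂ) 1) :
    HasDerivAt (V0 τ) (-Complex.sin ((τ:ℂ) / (1 - z)) * ((τ:ℂ) / (1 - z)^2)) z := by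
  have h := (hasDerivAt_w τ hz)
  exact (Complex.hasDerivAt_cos _).comp z h

lemma S0_diff (τ : ℝ) : DifferentiableOn ℂ (S0 τ) (ball 0 1) :=
  fun _ hz => (hasDerivAt_S0 τ hz).differentiableAt.differentiableWithinAt

lemma V0_diff (τ : ℝ) : DifferentiableOn ℂ (V0 τ) (ball 0 1) :=
  fun _ hz => (hasDerivAt_V0 τ hz).differentiableAt.differentiableWithinAt

lemma U0_diff (τ : ℝ) : DifferentiableOn ℂ (U0 τ) (ball 0 1) := by
  rw [U0, Complex.differentiableOn_dslope ball_mem_nhds_zero]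
  exact S0_diff τ

lemma U0_spec (τ : ℝ) (z : ℂ) : z * U0 τ z = S0 τ z := by
  have := sub_smul_dslope (S0 τ) 0 z
  simp only [sub_zero, smul_eq_mul] at this
  rw [U0, this]
  simp [S0]

lemma base1 {τ d e : ℝ} (hc : Real.cos τ ≠ 0) (hd : d * Real.cos τ = τ)
    (he : e * Real.cos τ = τ * Real.sin τ) : E1 0 d e 0 (U0 τ) (V0 τ) := by
  intro z hz
  have hnz : ball (0:ℂ) 1 ∈ 𝓝 z := isOpen_ball.mem_nhds hz
  have hU : DifferentiableAt ℂ (U0 τ) z := (U0_diff τ z hz).differentiableAt hnz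
  have e1 : HasDerivAt (fun w => w * U0 τ w) (1 * U0 τ z + z * deriv (U0 τ) z) z :=
    (hasDerivAt_id z).mul hU.hasDerivAt
  have e3 : (fun w => w * U0 τ w) = S0 τ := by funext w; exact U0_spec τ w
  rw [e3] at e1
  have hder := e1.unique (hasDerivAt_S0 τ hz)
  have hs := U0_spec τ z
  have hcc : Complex.cos τ ≠ 0 := by exact_mod_cast hc
  have hdc : (d:ℂ) * Complex.cos τ = τ := by exact_mod_cast hd
  have hec : (e:ℂ) * Complex.cos τ = τ * Complex.sin τ := by exact_mod_cast he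
  have h1 : (1:ℂ) - z ≠ 0 := one_sub_ne hz
  have hder' : (1 - z)^2 * (U0 τ z + z * deriv (U0 τ) z)
      = Complex.cos ((τ:ℂ) / (1 - z) - τ) * τ := by
    rw [one_mul] at hder
    rw [hder]
    field_simp
  have : Complex.cos τ * (z * (1 - z)^2 * deriv (U0 τ) z - (((e:ℂ) * z - ((0:ℕ)+1) * (1 - z)^2)
      * U0 τ z + ((d:ℂ) + (1 - z) * (0:ℝ)) * V0 τ z)) = 0 := by
    rw [V0]
    rw [S0] at hs
    rw [Complex.cos_sub] at hder'
    rw [Complex.sin_sub] at hs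
    push_cast
    linear_combination Complex.cos τ * hder' - z * U0 τ z * hec
      - Complex.cos ((τ:ℂ) / (1 - z)) * hdc - τ * Complex.sin τ * hs
      + τ * Complex.cos ((τ:ℂ) / (1 - z)) * (Complex.sin_sq_add_cos_sq τ)
  have := (mul_eq_zero.mp this).resolve_left hcc
  linear_combination this

lemma base2 {τ d e : ℝ} (hc : Real.cos τ ≠ 0) (hd : d * Real.cos τ = τ)
    (he : e * Real.cos τ = τ * Real.sin τ) : E2 d e 0 (U0 τ) (V0 τ) := by
  intro z hz
  have hs := U0_spec τ z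
  have hcc : Complex.cos τ ≠ 0 := by exact_mod_cast hc
  have hdc : (d:ℂ) * Complex.cos τ = τ := by exact_mod_cast hd
  have hec : (e:ℂ) * Complex.cos τ = τ * Complex.sin τ := by exact_mod_cast he
  have h1 : (1:ℂ) - z ≠ 0 := one_sub_ne hz
  have hder' : (1 - z)^2 * deriv (V0 τ) z = -Complex.sin ((τ:ℂ) / (1 - z)) * τ := by
    rw [(hasDerivAt_V0 τ hz).deriv]
    field_simp
  have : Complex.cos τ * ((1 - z)^2 * deriv (V0 τ) z - ((-(d:ℂ) * z + (1 - z) * (0:ℝ)) * U0 τ z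
      - (e:ℂ) * V0 τ z)) = 0 := by
    rw [V0] at *
    rw [S0] at hs
    rw [Complex.sin_sub] at hs
    push_cast
    linear_combination Complex.cos τ * hder' + z * U0 τ z * hdc
      + Complex.cos ((τ:ℂ) / (1 - z)) * hec + τ * hs
  have := (mul_eq_zero.mp this).resolve_left hcc
  linear_combination this

/-- the chain of functions of the Schur algorithm -/
noncomputable def UV (τ : ℝ) (x : ℕ → ℝ) : ℕ → (ℂ → ℂ) × (ℂ → ℂ)
  | 0 => (U0 τ, V0 τ)
  | k+1 => (nextU (x k) (UV τ x k).1 (UV τ x k).2, nextV (x k) (UV τ x k).1 (UV τ x k).2)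

/-- The recurrence: `cosh ψ₀ = 1/cos τ`, `(k+1) x_k = τ ∑_{j ≤ k} cosh ψ_j`,
`ψ_{k+1} = ψ_k + log ((1+x_k)/(1-x_k))`, for indices below `n`, with `x_k < 1` for `k < n-1`. -/
structure Sys (n : ℕ) (τ : ℝ) (ψ x : ℕ → ℝ) : Prop where
  τ_pos : 0 < τ
  τ_lt : τ < Real.pi / 2
  cosh0 : Real.cosh (ψ 0) * Real.cos τ = 1
  sinh0 : Real.sinh (ψ 0) * Real.cos τ = Real.sin τ
  hx : ∀ k, k < n → ((k:ℝ)+1) * x k = τ * ∑ j ∈ Finset.range (k+1), Real.cosh (ψ j)
  hψ : ∀ k, k + 1 < n → ψ (k+1) = ψ k + Real.log ((1 + x k)/(1 - x k))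
  hlt : ∀ k, k + 1 < n → x k < 1

namespace Sys

variable {n : ℕ} {τ : ℝ} {ψ x : ℕ → ℝ}

lemma cos_pos (h : Sys n τ ψ x) : 0 < Real.cos τ :=
  Real.cos_pos_of_mem_Ioo ⟨by linarith [h.τ_pos, Real.pi_pos], h.τ_lt⟩

lemma x_pos (h : Sys n τ ψ x) {k : ℕ} (hk : k < n) : 0 < x k := by
  have h1 := h.hx k hk
  have h2 : 0 < τ * ∑ j ∈ Finset.range (k+1), Real.cosh (ψ j) := by
    apply mul_pos h.τ_pos
    apply Finset.sum_pos (fun i _ => Real.cosh_pos _) (by simp)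
  rw [← h1] at h2
  have h3 : (0:ℝ) < (k:ℝ) + 1 := by positivity
  exact (mul_pos_iff_of_pos_left h3).mp h2

lemma exp_succ (h : Sys n τ ψ x) {k : ℕ} (hk : k + 1 < n) :
    Real.exp (ψ (k+1)) * (1 - x k) = Real.exp (ψ k) * (1 + x k) := by
  have h1 := h.x_pos (k := k) (by omega)
  have h2 := h.hlt k hk
  have h3 : 0 < 1 - x k := by linarith
  rw [h.hψ k hk, Real.exp_add, Real.exp_log (by positivity)]
  field_simp

lemma exp_neg_succ (h : Sys n τ ψ x) {k : ℕ} (hk : k + 1 < n) :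
    Real.exp (-ψ (k+1)) * (1 + x k) = Real.exp (-ψ k) * (1 - x k) := by
  have h1 := h.x_pos (k := k) (by omega)
  have h2 := h.hlt k hk
  have h3 : 0 < 1 - x k := by linarith
  rw [h.hψ k hk, neg_add, Real.exp_add, Real.exp_neg (Real.log _), Real.exp_log (by positivity)]
  field_simp

lemma cosh_succ (h : Sys n τ ψ x) {k : ℕ} (hk : k + 1 < n) :
    (1 - x k ^ 2) * Real.cosh (ψ (k+1))
      = (1 + x k ^ 2) * Real.cosh (ψ k) + 2 * x k * Real.sinh (ψ k) := by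
  have e1 := h.exp_succ hk
  have e2 := h.exp_neg_succ hk
  rw [Real.cosh_eq, Real.cosh_eq, Real.sinh_eq]
  linear_combination (1 + x k)/2 * e1 + (1 - x k)/2 * e2

lemma sinh_succ (h : Sys n τ ψ x) {k : ℕ} (hk : k + 1 < n) :
    (1 - x k ^ 2) * Real.sinh (ψ (k+1))
      = (1 + x k ^ 2) * Real.sinh (ψ k) + 2 * x k * Real.cosh (ψ k) := by
  have e1 := h.exp_succ hk
  have e2 := h.exp_neg_succ hk
  rw [Real.sinh_eq, Real.cosh_eq, Real.sinh_eq]
  linear_combination (1 + x k)/2 * e1 - (1 - x k)/2 * e2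

/-- All members of the chain satisfy the differential system. -/
lemma chain (h : Sys n τ ψ x) : ∀ k, k < n →
    DifferentiableOn ℂ (UV τ x k).1 (ball 0 1) ∧ DifferentiableOn ℂ (UV τ x k).2 (ball 0 1) ∧
    E1 k (τ * Real.cosh (ψ k)) (τ * Real.sinh (ψ k))
      (τ * ∑ j ∈ Finset.range k, Real.cosh (ψ j)) (UV τ x k).1 (UV τ x k).2 ∧
    E2 (τ * Real.cosh (ψ k)) (τ * Real.sinh (ψ k))
      (τ * ∑ j ∈ Finset.range k, Real.cosh (ψ j)) (UV τ x k).1 (UV τ x k).2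
  | 0, _ => by
    have hc := h.cos_pos.ne'
    have hd : (τ * Real.cosh (ψ 0)) * Real.cos τ = τ := by rw [mul_assoc, h.cosh0, mul_one]
    have he : (τ * Real.sinh (ψ 0)) * Real.cos τ = τ * Real.sin τ := by rw [mul_assoc, h.sinh0]
    refine ⟨U0_diff τ, V0_diff τ, ?_, ?_⟩
    · have := base1 hc hd he
      simpa [UV] using this
    · have := base2 hc hd he
      simpa [UV] using this
  | k+1, hk => by
    obtain ⟨hu, hv, h1, h2⟩ := chain h k (by omega)
    have hx1 : 1 - x k ^ 2 ≠ 0 := by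
      have a1 := h.x_pos (k := k) (by omega)
      have a2 := h.hlt k hk
      nlinarith
    have hxk := h.hx k (by omega)
    rw [Finset.sum_range_succ, mul_add] at hxk
    have := step (x := x k) (d' := τ * Real.cosh (ψ (k+1))) (e' := τ * Real.sinh (ψ (k+1)))
      (p' := τ * ∑ j ∈ Finset.range (k+1), Real.cosh (ψ j)) hxk
      (by rw [Finset.sum_range_succ, mul_add])
      (by linear_combination τ * h.cosh_succ hk) (by linear_combination τ * h.sinh_succ hk)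
      hx1 hu hv h1 h2
    exact ⟨nextU_diff hu hv, nextV_diff hu hv, this.1, this.2⟩

lemma chain_zero (h : Sys n τ ψ x) {k : ℕ} (hk : k < n) :
    (UV τ x k).1 0 = x k * (UV τ x k).2 0 := by
  obtain ⟨_, _, h1, _⟩ := h.chain k hk
  have hxk := h.hx k hk
  rw [Finset.sum_range_succ, mul_add] at hxk
  exact u_zero hxk h1

end Sys

end Pool.Agent.H390
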