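import Mathlib

/-!
Monotonicity facts for the solution of `(r ψ')' = cosh ψ`, `ψ 0 = 0`.
-/

namespace Pool.Agent.H390

open Filter Topology Set

/-- the solution together with `q = r ψ'` -/
structure Facts (R : ℝ) (ψ q : ℝ → ℝ) : Prop where
  R_pos : 0 < R
  ψ0 : ψ 0 = 0
  q0 : q 0 = 0
  cψ : ContinuousOn ψ (Ico 0 R)
  cq : ContinuousOn q (Ico 0 R)
  dψ : ∀ r ∈ Ioo 0 R, HasDerivAt ψ (q r / r) r
  dq : ∀ r ∈ Ioo 0 R, HasDerivAt q (Real.cosh (ψ r)) r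
  blow : Tendsto ψ (𝓝[<] R) atTop

namespace Facts

variable {R : ℝ} {ψ q : ℝ → ℝ}

lemma q_mvt (h : Facts R ψ q) {s r : ℝ} (h0 : 0 ≤ s) (h1 : s < r) (h2 : r < R) :
    ∃ ξ ∈ Ioo s r, q r - q s = (r - s) * Real.cosh (ψ ξ) := by
  obtain ⟨ξ, hξ, he⟩ := exists_hasDerivAt_eq_slope q (fun t => Real.cosh (ψ t)) h1
    (h.cq.mono fun t ht => ⟨by linarith [ht.1], by linarith [ht.2]⟩)
    (fun t ht => h.dq t ⟨by linarith [ht.1], by linarith [ht.2]⟩)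
  refine ⟨ξ, hξ, ?_⟩
  rw [he]
  have : r - s ≠ 0 := by linarith
  field_simp

lemma ψ_mvt (h : Facts R ψ q) {s r : ℝ} (h0 : 0 ≤ s) (h1 : s < r) (h2 : r < R) :
    ∃ ξ ∈ Ioo s r, ψ r - ψ s = (r - s) * (q ξ / ξ) := by
  obtain ⟨ξ, hξ, he⟩ := exists_hasDerivAt_eq_slope ψ (fun t => q t / t) h1
    (h.cψ.mono fun t ht => ⟨by linarith [ht.1], by linarith [ht.2]⟩)
    (fun t ht => h.dψ t ⟨by linarith [ht.1], by linarith [ht.2]⟩)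
  refine ⟨ξ, hξ, ?_⟩
  rw [he]
  have : r - s ≠ 0 := by linarith
  field_simp

lemma q_ge (h : Facts R ψ q) {r : ℝ} (h0 : 0 ≤ r) (h1 : r < R) : r ≤ q r := by
  rcases h0.lt_or_eq with h0 | h0
  · obtain ⟨ξ, _, he⟩ := h.q_mvt le_rfl h0 h1
    rw [h.q0] at he
    have := Real.one_le_cosh (ψ ξ)
    nlinarith
  · rw [← h0, h.q0]

lemma ψ_mono (h : Facts R ψ q) {s r : ℝ} (h0 : 0 ≤ s) (h1 : s ≤ r) (h2 : r < R) : ψ s ≤ ψ r := by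
  rcases h1.lt_or_eq with h1 | h1
  · obtain ⟨ξ, hξ, he⟩ := h.ψ_mvt h0 h1 h2
    have hξ0 : 0 < ξ := by linarith [hξ.1]
    have : 0 < q ξ / ξ := div_pos (by linarith [h.q_ge hξ0.le (by linarith [hξ.2])]) hξ0
    nlinarith [hξ.1, hξ.2]
  · rw [h1]

lemma ψ_nonneg (h : Facts R ψ q) {r : ℝ} (h0 : 0 ≤ r) (h1 : r < R) : 0 ≤ ψ r := by
  have := h.ψ_mono le_rfl h0 h1
  rwa [h.ψ0] at this

lemma cosh_mono (h : Facts R ψ q) {s r : ℝ} (h0 : 0 ≤ s) (h1 : s ≤ r) (h2 : r < R) :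
    Real.cosh (ψ s) ≤ Real.cosh (ψ r) := by
  rw [Real.cosh_le_cosh, abs_of_nonneg (h.ψ_nonneg h0 (by linarith)),
    abs_of_nonneg (h.ψ_nonneg (by linarith) h2)]
  exact h.ψ_mono h0 h1 h2

lemma q_sub_le (h : Facts R ψ q) {s r : ℝ} (h0 : 0 ≤ s) (h1 : s ≤ r) (h2 : r < R) :
    q r - q s ≤ (r - s) * Real.cosh (ψ r) := by
  rcases h1.lt_or_eq with h1 | h1
  · obtain ⟨ξ, hξ, he⟩ := h.q_mvt h0 h1 h2
    rw [he]
    exact mul_le_mul_of_nonneg_left (h.cosh_mono (by linarith [hξ.1]) hξ.2.le h2) (by linarith)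
  · rw [h1]; simp

lemma le_q_sub (h : Facts R ψ q) {s r : ℝ} (h0 : 0 ≤ s) (h1 : s ≤ r) (h2 : r < R) :
    (r - s) * Real.cosh (ψ s) ≤ q r - q s := by
  rcases h1.lt_or_eq with h1 | h1
  · obtain ⟨ξ, hξ, he⟩ := h.q_mvt h0 h1 h2
    rw [he]
    exact mul_le_mul_of_nonneg_left (h.cosh_mono h0 hξ.1.le (by linarith [hξ.2])) (by linarith)
  · rw [h1]; simp

lemma q_mono (h : Facts R ψ q) {s r : ℝ} (h0 : 0 ≤ s) (h1 : s ≤ r) (h2 : r < R) : q s ≤ q r := by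
  have := h.le_q_sub h0 h1 h2
  have h3 := Real.cosh_pos (ψ s)
  nlinarith

/-- `ψ' = q / r` is nondecreasing -/
lemma p_mono (h : Facts R ψ q) {s r : ℝ} (h0 : 0 < s) (h1 : s ≤ r) (h2 : r < R) :
    q s / s ≤ q r / r := by
  have a1 := h.q_sub_le le_rfl h0.le (by linarith)
  rw [h.q0, sub_zero, sub_zero] at a1
  have a2 := h.le_q_sub h0.le h1 h2
  rw [div_le_div_iff₀ h0 (by linarith)]
  nlinarith

lemma ψ_sub_le (h : Facts R ψ q) {s r : ℝ} (h0 : 0 ≤ s) (h1 : s ≤ r) (h2 : r < R) :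
    ψ r - ψ s ≤ (r - s) * (q r / r) := by
  rcases h1.lt_or_eq with h1 | h1
  · obtain ⟨ξ, hξ, he⟩ := h.ψ_mvt h0 h1 h2
    rw [he]
    exact mul_le_mul_of_nonneg_left (h.p_mono (by linarith [hξ.1]) hξ.2.le h2) (by linarith)
  · rw [h1]; simp

lemma le_ψ_sub (h : Facts R ψ q) {s r : ℝ} (h0 : 0 < s) (h1 : s ≤ r) (h2 : r < R) :
    (r - s) * (q s / s) ≤ ψ r - ψ s := by
  rcases h1.lt_or_eq with h1 | h1
  · obtain ⟨ξ, hξ, he⟩ := h.ψ_mvt h0.le h1 h2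
    rw [he]
    exact mul_le_mul_of_nonneg_left (h.p_mono h0 hξ.1.le (by linarith [hξ.2])) (by linarith)
  · rw [h1]; simp

lemma ψ_ge (h : Facts R ψ q) {r : ℝ} (h0 : 0 ≤ r) (h1 : r < R) : r ≤ ψ r := by
  rcases h0.lt_or_eq with h0 | h0
  · obtain ⟨ξ, hξ, he⟩ := h.ψ_mvt le_rfl h0 h1
    rw [h.ψ0] at he
    have hξ0 : 0 < ξ := hξ.1
    have : 1 ≤ q ξ / ξ := by
      rw [le_div_iff₀ hξ0, one_mul]
      exact h.q_ge hξ0.le (by linarith [hξ.2])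
    nlinarith
  · rw [← h0, h.ψ0]

lemma ψ_le_q (h : Facts R ψ q) {r : ℝ} (h0 : 0 < r) (h1 : r < R) : ψ r ≤ q r := by
  have := h.ψ_sub_le le_rfl h0.le h1
  rw [h.ψ0, sub_zero, sub_zero] at this
  have e : r * (q r / r) = q r := by field_simp
  linarith

end Facts

end Pool.Agent.H390
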