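import Pool.Agent.H390.Exist
import Pool.Agent.H390.Ode

/-!
Comparison of the recurrence with the differential equation.
-/

namespace Pool.Agent.H390

open Filter Topology Set

lemma cosh_le_exp_mul {a b : ℝ} (h : b ≤ a) : Real.cosh a ≤ Real.exp (a - b) * Real.cosh b := by
  rw [Real.cosh_eq, Real.cosh_eq]
  have e1 : Real.exp (a - b) * ((Real.exp b + Real.exp (-b)) / 2)
      = (Real.exp a + Real.exp (a - 2 * b)) / 2 := by
    rw [mul_div_assoc', mul_add, ← Real.exp_add, ← Real.exp_add]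
    congr 3 <;> ring
  rw [e1]
  have : Real.exp (-a) ≤ Real.exp (a - 2 * b) := Real.exp_le_exp.mpr (by linarith)
  linarith

lemma two_mul_le_log {x : ℝ} (h0 : 0 ≤ x) (h1 : x < 1) : 2 * x ≤ Real.log ((1 + x) / (1 - x)) := by
  have hx : 0 < 1 - x := by linarith
  have h := Real.le_log_one_add_of_nonneg (x := 2 * x / (1 - x)) (by positivity)
  have e1 : 1 + 2 * x / (1 - x) = (1 + x) / (1 - x) := by field_simp; ring
  have e2 : 2 * (2 * x / (1 - x)) / (2 * x / (1 - x) + 2) = 2 * x := by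
    field_simp
    ring
  rw [e1, e2] at h
  exact h

lemma log_le_of {x d : ℝ} (h0 : 0 ≤ x) (hd : 0 ≤ d) (h1 : x ≤ d / (2 + d)) :
    x < 1 ∧ Real.log ((1 + x) / (1 - x)) ≤ d := by
  have hx1 : x < 1 := by
    refine lt_of_le_of_lt h1 ?_
    rw [div_lt_one (by linarith)]; linarith
  refine ⟨hx1, ?_⟩
  have h2 : (1 + x) / (1 - x) ≤ 1 + d := by
    rw [div_le_iff₀ (by linarith)]
    rw [le_div_iff₀ (by linarith)] at h1
    nlinarith
  have h3 : 0 < (1 + x) / (1 - x) := div_pos (by linarith) (by linarith)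
  have h4 := Real.log_le_log h3 h2
  have h5 := Real.log_le_sub_one_of_pos (x := 1 + d) (by linarith)
  linarith

namespace Sys

variable {n : ℕ} {τ : ℝ} {Ψ x : ℕ → ℝ}

lemma Ψ_zero_pos (h : Sys n τ Ψ x) : 0 < Ψ 0 := by
  have h1 := h.sinh0
  have h2 : 0 < Real.sin τ := Real.sin_pos_of_pos_of_lt_pi h.τ_pos (by linarith [h.τ_lt, Real.pi_pos])
  have h3 := h.cos_pos
  have h4 : 0 < Real.sinh (Ψ 0) := by
    by_contra hc
    push Not at hc
    nlinarith
  exact Real.sinh_pos_iff.mp h4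

lemma Ψ_succ_ge (h : Sys n τ Ψ x) {k : ℕ} (hk : k + 1 < n) : Ψ k + 2 * x k ≤ Ψ (k+1) := by
  rw [h.hψ k hk]
  have := two_mul_le_log (h.x_pos (k := k) (by omega)).le (h.hlt k hk)
  linarith

lemma Ψ_pos (h : Sys n τ Ψ x) : ∀ k, k < n → 0 < Ψ k
  | 0, _ => h.Ψ_zero_pos
  | k+1, hk => by
    have h1 := h.Ψ_pos k (by omega)
    have h2 := h.Ψ_succ_ge hk
    have h3 := h.x_pos (k := k) (by omega)
    linarith

lemma τ_le_x (h : Sys n τ Ψ x) {k : ℕ} (hk : k < n) : τ ≤ x k := by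
  have h1 := h.hx k hk
  have h2 : (k:ℝ) + 1 ≤ ∑ j ∈ Finset.range (k+1), Real.cosh (Ψ j) := by
    calc (k:ℝ) + 1 = ∑ j ∈ Finset.range (k+1), (1:ℝ) := by simp
      _ ≤ _ := Finset.sum_le_sum fun i _ => Real.one_le_cosh _
  have h3 : (0:ℝ) < (k:ℝ) + 1 := by positivity
  have h4 := h.τ_pos
  nlinarith

lemma Ψ_ge (h : Sys n τ Ψ x) : ∀ k, k < n → 2 * τ * k ≤ Ψ k
  | 0, _ => by simpa using h.Ψ_zero_pos.le
  | k+1, hk => by
    have h1 := h.Ψ_ge k (by omega)
    have h2 := h.Ψ_succ_ge hk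
    have h3 := h.τ_le_x (k := k) (by omega)
    push_cast
    linarith

/-- a crude bound which shows `τ → 0` -/
lemma τ_sq_le (h : Sys n τ Ψ x) (hn : 0 < n) (h1 : x (n-1) = 1) : τ^2 * ((n:ℝ) - 1) ≤ 1 := by
  have h2 := h.hx (n-1) (by omega)
  rw [h1, Nat.sub_add_cancel hn, mul_one, Nat.cast_sub (by omega : 1 ≤ n)] at h2
  have h3 : ∀ m, m ≤ n → τ * ((m:ℝ) * (m - 1)) ≤ ∑ j ∈ Finset.range m, Real.cosh (Ψ j) := by
    intro m
    induction m with
    | zero => intro _; simp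
    | succ m ih =>
      intro hm
      rw [Finset.sum_range_succ]
      have a1 := ih (by omega)
      have a2 := h.Ψ_ge m (by omega)
      have a3 : Ψ m ≤ Real.cosh (Ψ m) := by
        have := Real.self_le_sinh_iff.mpr (h.Ψ_pos m (by omega)).le
        exact this.trans (Real.sinh_lt_cosh _).le
      push_cast
      nlinarith
  have h4 := h3 n le_rfl
  have h5 := h.τ_pos
  have h6 : (0:ℝ) < n := by exact_mod_cast hn
  have h7 : τ * (τ * ((n:ℝ) * (n - 1))) ≤ n := by
    calc τ * (τ * ((n:ℝ) * (n - 1))) ≤ τ * ∑ j ∈ Finset.range n, Real.cosh (Ψ j) :=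
          mul_le_mul_of_nonneg_left h4 h5.le
      _ = n := by rw [← h2]; push_cast; ring
  have h8 : (n:ℝ) * (τ^2 * ((n:ℝ) - 1)) ≤ n * 1 := by nlinarith
  exact le_of_mul_le_mul_left h8 h6

end Sys

section

variable {R : ℝ} {ψ q : ℝ → ℝ} {t r₁ M : ℝ}

lemma ode_upper (h : Facts R ψ q) (ht : 0 < t) (hr : r₁ < R) (hM : q r₁ / r₁ ≤ M) :
    ∀ k : ℕ, t * k ≤ r₁ →
      t * ∑ j ∈ Finset.range k, Real.cosh (ψ (t * (j + 1))) ≤ Real.exp (t * M) * q (t * k)
  | 0, _ => by simp [h.q0]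
  | k+1, hk => by
    push_cast at hk
    have hk0 : t * k ≤ r₁ := by nlinarith
    have ih := ode_upper h ht hr hM k hk0
    rw [Finset.sum_range_succ]
    have hnn : 0 ≤ t * (k:ℝ) := by positivity
    have hpos : 0 < t * ((k:ℝ) + 1) := by positivity
    have a1 := h.le_q_sub hnn (show t * (k:ℝ) ≤ t * ((k:ℝ)+1) by nlinarith) (by linarith)
    have a2 := cosh_le_exp_mul (h.ψ_mono hnn (show t * (k:ℝ) ≤ t * ((k:ℝ)+1) by nlinarith) (by linarith))
    have a3 := h.ψ_sub_le hnn (show t * (k:ℝ) ≤ t * ((k:ℝ)+1) by nlinarith) (by linarith)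
    have a4 := h.p_mono hpos hk hr
    have a5 : ψ (t * ((k:ℝ)+1)) - ψ (t * k) ≤ t * M := by
      have e : t * ((k:ℝ)+1) - t * k = t := by ring
      rw [e] at a3
      have : t * (q (t * ((k:ℝ)+1)) / (t * ((k:ℝ)+1))) ≤ t * M :=
        mul_le_mul_of_nonneg_left (a4.trans hM) ht.le
      linarith
    have a6 : Real.cosh (ψ (t * ((k:ℝ)+1))) ≤ Real.exp (t * M) * Real.cosh (ψ (t * k)) :=
      a2.trans (mul_le_mul_of_nonneg_right (Real.exp_le_exp.mpr a5) (Real.cosh_pos _).le)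
    have e : t * ((k:ℝ)+1) - t * k = t := by ring
    rw [e] at a1
    push_cast
    have hE := Real.exp_pos (t * M)
    calc t * (∑ j ∈ Finset.range k, Real.cosh (ψ (t * (j + 1))) + Real.cosh (ψ (t * ((k:ℝ)+1))))
        = t * ∑ j ∈ Finset.range k, Real.cosh (ψ (t * (j + 1))) + t * Real.cosh (ψ (t * ((k:ℝ)+1))) := by
          ring
      _ ≤ Real.exp (t * M) * q (t * k) + t * (Real.exp (t * M) * Real.cosh (ψ (t * k))) :=
          add_le_add ih (mul_le_mul_of_nonneg_left a6 ht.le)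
      _ = Real.exp (t * M) * (q (t * k) + t * Real.cosh (ψ (t * k))) := by ring
      _ ≤ Real.exp (t * M) * q (t * ((k:ℝ)+1)) :=
          mul_le_mul_of_nonneg_left (by linarith) hE.le

lemma ode_lower (h : Facts R ψ q) (ht : 0 < t) (hr : r₁ < R) (hM : q r₁ / r₁ ≤ M) :
    ∀ k : ℕ, t * k ≤ r₁ →
      q (t * k) ≤ Real.exp (t * M) * (t * ∑ j ∈ Finset.range k, Real.cosh (ψ (t * j)))
  | 0, _ => by simp [h.q0]
  | k+1, hk => by
    push_cast at hk
    have hk0 : t * k ≤ r₁ := by nlinarith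
    have ih := ode_lower h ht hr hM k hk0
    rw [Finset.sum_range_succ]
    have hnn : 0 ≤ t * (k:ℝ) := by positivity
    have hpos : 0 < t * ((k:ℝ) + 1) := by positivity
    have a1 := h.q_sub_le hnn (show t * (k:ℝ) ≤ t * ((k:ℝ)+1) by nlinarith) (by linarith)
    have a2 := cosh_le_exp_mul (h.ψ_mono hnn (show t * (k:ℝ) ≤ t * ((k:ℝ)+1) by nlinarith) (by linarith))
    have a3 := h.ψ_sub_le hnn (show t * (k:ℝ) ≤ t * ((k:ℝ)+1) by nlinarith) (by linarith)
    have a4 := h.p_mono hpos hk hr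
    have a5 : ψ (t * ((k:ℝ)+1)) - ψ (t * k) ≤ t * M := by
      have e : t * ((k:ℝ)+1) - t * k = t := by ring
      rw [e] at a3
      have : t * (q (t * ((k:ℝ)+1)) / (t * ((k:ℝ)+1))) ≤ t * M :=
        mul_le_mul_of_nonneg_left (a4.trans hM) ht.le
      linarith
    have a6 : Real.cosh (ψ (t * ((k:ℝ)+1))) ≤ Real.exp (t * M) * Real.cosh (ψ (t * k)) :=
      a2.trans (mul_le_mul_of_nonneg_right (Real.exp_le_exp.mpr a5) (Real.cosh_pos _).le)
    have e : t * ((k:ℝ)+1) - t * k = t := by ring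
    rw [e] at a1
    push_cast
    have hE := Real.exp_pos (t * M)
    calc q (t * ((k:ℝ)+1)) ≤ q (t * k) + t * Real.cosh (ψ (t * ((k:ℝ)+1))) := by linarith
      _ ≤ Real.exp (t * M) * (t * ∑ j ∈ Finset.range k, Real.cosh (ψ (t * j)))
          + t * (Real.exp (t * M) * Real.cosh (ψ (t * k))) :=
          add_le_add ih (mul_le_mul_of_nonneg_left a6 ht.le)
      _ = _ := by ring

variable {n : ℕ} {τ : ℝ} {Ψ x : ℕ → ℝ}

/-- the recurrence stays below the differential equation run slightly faster -/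
lemma super_step (h : Facts R ψ q) (hs : Sys n τ Ψ x) (ht : 0 < t) (hr : r₁ < R)
    (hM : q r₁ / r₁ ≤ M) (hcond : 2 * τ * Real.exp (t * M) * (1 + t * M / 2) ≤ t)
    {k : ℕ} (hkn : k < n) (hk : t * (k + 2) ≤ r₁)
    (hj : ∀ j ≤ k, Ψ j ≤ ψ (t * (j + 1))) :
    x k ≤ (ψ (t * (k+2)) - ψ (t * (k+1))) / (2 + (ψ (t * (k+2)) - ψ (t * (k+1)))) := by
  have hτ := hs.τ_pos
  have h1 := hs.hx k hkn
  have hk1 : t * ((k+1:ℕ):ℝ) ≤ r₁ := by push_cast; nlinarith
  have h2 := ode_upper h ht hr hM (k+1) hk1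
  have h3 : ∑ j ∈ Finset.range (k+1), Real.cosh (Ψ j)
      ≤ ∑ j ∈ Finset.range (k+1), Real.cosh (ψ (t * (j+1))) := by
    apply Finset.sum_le_sum
    intro j hjm
    rw [Finset.mem_range] at hjm
    have b1 := hj j (by omega)
    have b2 := hs.Ψ_pos j (by omega)
    rw [Real.cosh_le_cosh, abs_of_pos b2, abs_of_pos (by linarith)]
    exact b1
  push_cast at h2
  set s : ℝ := t * ((k:ℝ) + 1) with hsdef
  set p : ℝ := q s / s with hp
  have hspos : 0 < s := by positivity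
  have hsR : s < R := by nlinarith
  have hqs : q s = s * p := by rw [hp]; field_simp
  have hppos : 0 < p := div_pos (by linarith [h.q_ge hspos.le hsR]) hspos
  have hE := Real.exp_pos (t * M)
  have hMpos : p ≤ M := (h.p_mono hspos (by nlinarith : s ≤ r₁) hr).trans hM
  -- `x_k ≤ τ e^{tM} p`
  have hxk : x k ≤ τ * Real.exp (t * M) * p := by
    have c1 : t * (((k:ℝ)+1) * x k) ≤ τ * (Real.exp (t * M) * q s) := by
      rw [h1]
      calc t * (τ * ∑ j ∈ Finset.range (k+1), Real.cosh (Ψ j))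
          = τ * (t * ∑ j ∈ Finset.range (k+1), Real.cosh (Ψ j)) := by ring
        _ ≤ τ * (t * ∑ j ∈ Finset.range (k+1), Real.cosh (ψ (t * (j+1)))) :=
            mul_le_mul_of_nonneg_left (mul_le_mul_of_nonneg_left h3 ht.le) hτ.le
        _ ≤ τ * (Real.exp (t * M) * q s) := mul_le_mul_of_nonneg_left h2 hτ.le
    rw [hqs] at c1
    have c2 : s * x k ≤ s * (τ * Real.exp (t * M) * p) := by
      calc s * x k = t * (((k:ℝ)+1) * x k) := by rw [hsdef]; ring
        _ ≤ _ := c1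
        _ = _ := by ring
    exact le_of_mul_le_mul_left c2 hspos
  have hd : t * p ≤ ψ (t * (k+2)) - ψ s := by
    have := h.le_ψ_sub hspos (show s ≤ t * ((k:ℝ)+2) by nlinarith) (by linarith)
    have e : t * ((k:ℝ)+2) - s = t := by rw [hsdef]; ring
    rw [e] at this
    exact this
  set d : ℝ := ψ (t * (k+2)) - ψ s with hddef
  have htp : 0 < t * p := mul_pos ht hppos
  have h5 : t * p / (2 + t * p) ≤ d / (2 + d) := by
    rw [div_le_div_iff₀ (by linarith) (by linarith)]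
    nlinarith
  refine hxk.trans (le_trans ?_ h5)
  rw [le_div_iff₀ (by linarith)]
  have c3 : t * p ≤ t * M := mul_le_mul_of_nonneg_left hMpos ht.le
  calc τ * Real.exp (t * M) * p * (2 + t * p)
      ≤ τ * Real.exp (t * M) * p * (2 + t * M) := by
        apply mul_le_mul_of_nonneg_left (by linarith) (by positivity)
    _ = (2 * τ * Real.exp (t * M) * (1 + t * M / 2)) * p := by ring
    _ ≤ t * p := mul_le_mul_of_nonneg_right hcond hppos.le

lemma super (h : Facts R ψ q) (hs : Sys n τ Ψ x) (ht : 0 < t) (hr : r₁ < R)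
    (hM : q r₁ / r₁ ≤ M) (hcond : 2 * τ * Real.exp (t * M) * (1 + t * M / 2) ≤ t)
    (h0 : Ψ 0 ≤ ψ t) : ∀ k : ℕ, k < n → t * (k + 1) ≤ r₁ → ∀ j ≤ k, Ψ j ≤ ψ (t * (j + 1))
  | 0, _, _ => by
    intro j hj
    obtain rfl : j = 0 := by omega
    simpa using h0
  | k+1, hkn, hk => by
    push_cast at hk
    have hk1 : t * ((k:ℝ) + 1) ≤ r₁ := by nlinarith
    have ih := super h hs ht hr hM hcond h0 k (by omega) hk1
    intro j hj
    rcases Nat.lt_or_ge j (k+1) with hj1 | hj1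
    · exact ih j (by omega)
    · obtain rfl : j = k+1 := by omega
      have hk2 : t * ((k:ℝ) + 2) ≤ r₁ := by linarith
      have h1 := super_step h hs ht hr hM hcond (by omega) hk2 ih
      have hnn : 0 ≤ t * ((k:ℝ)+1) := by positivity
      have h2 := h.ψ_mono hnn (show t * ((k:ℝ)+1) ≤ t * ((k:ℝ)+2) by nlinarith) (by linarith)
      have h3 := log_le_of (hs.x_pos (k := k) (by omega)).le (by linarith) h1
      rw [hs.hψ k hkn]
      have h4 := ih k le_rfl
      have e : t * (((k+1:ℕ):ℝ) + 1) = t * (k + 2) := by push_cast; ring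
      rw [e]
      linarith [h3.2]

/-- the parameter is not too small -/
theorem lower_bound (h : Facts R ψ q) (hs : Sys n τ Ψ x) (hn : 0 < n) (hx : x (n-1) = 1)
    (ht : 0 < t) (hr : r₁ < R)
    (hM : q r₁ / r₁ ≤ M) (hcond : 2 * τ * Real.exp (t * M) * (1 + t * M / 2) ≤ t)
    (h0 : Ψ 0 ≤ ψ t) : r₁ < t * (n + 1) := by
  by_contra hcon
  push Not at hcon
  obtain ⟨k, rfl⟩ : ∃ k, n = k + 1 := ⟨n-1, by omega⟩
  simp only [Nat.add_sub_cancel] at hx
  push_cast at hcon
  have hk2 : t * ((k:ℝ) + 2) ≤ r₁ := by linarith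
  have hk1 : t * ((k:ℝ) + 1) ≤ r₁ := by nlinarith
  have h1 := super h hs ht hr hM hcond h0 k (by omega) hk1
  have h2 := super_step h hs ht hr hM hcond (by omega) hk2 h1
  have hnn : 0 ≤ t * ((k:ℝ)+1) := by positivity
  have h3 := h.ψ_mono hnn (show t * ((k:ℝ)+1) ≤ t * ((k:ℝ)+2) by nlinarith) (by linarith)
  have h4 := (log_le_of (hs.x_pos (k := k) (by omega)).le (by linarith) h2).1
  linarith

/-- the recurrence stays above the differential equation run slightly slower -/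
lemma sub_step (h : Facts R ψ q) (hs : Sys n τ Ψ x) (ht : 0 < t) (hr : r₁ < R)
    (hM : q r₁ / r₁ ≤ M) (hcond : t * Real.exp (t * M) ≤ 2 * τ)
    {k : ℕ} (hkn : k < n) (hk : t * (k + 1) ≤ r₁)
    (hj : ∀ j ≤ k, ψ (t * j) ≤ Ψ j) :
    q (t * (k+1)) / 2 ≤ (k + 1) * x k := by
  have hτ := hs.τ_pos
  have h1 := hs.hx k hkn
  have hk1 : t * ((k+1:ℕ):ℝ) ≤ r₁ := by push_cast; linarith
  have h2 := ode_lower h ht hr hM (k+1) hk1
  have h3 : ∑ j ∈ Finset.range (k+1), Real.cosh (ψ (t * j))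
      ≤ ∑ j ∈ Finset.range (k+1), Real.cosh (Ψ j) := by
    apply Finset.sum_le_sum
    intro j hjm
    rw [Finset.mem_range] at hjm
    have b1 := hj j (by omega)
    have hjk : (j:ℝ) ≤ k := by exact_mod_cast (by omega : j ≤ k)
    have b2 := h.ψ_nonneg (r := t * j) (by positivity) (by nlinarith)
    rw [Real.cosh_le_cosh, abs_of_nonneg b2, abs_of_nonneg (by linarith)]
    exact b1
  push_cast at h2
  rw [h1]
  have hS : 0 ≤ ∑ j ∈ Finset.range (k+1), Real.cosh (ψ (t * j)) :=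
    Finset.sum_nonneg fun i _ => (Real.cosh_pos _).le
  calc q (t * ((k:ℝ)+1)) / 2
      ≤ (Real.exp (t * M) * (t * ∑ j ∈ Finset.range (k+1), Real.cosh (ψ (t * j)))) / 2 := by linarith
    _ = (t * Real.exp (t * M)) / 2 * ∑ j ∈ Finset.range (k+1), Real.cosh (ψ (t * j)) := by ring
    _ ≤ τ * ∑ j ∈ Finset.range (k+1), Real.cosh (ψ (t * j)) :=
        mul_le_mul_of_nonneg_right (by linarith) hS
    _ ≤ τ * ∑ j ∈ Finset.range (k+1), Real.cosh (Ψ j) := mul_le_mul_of_nonneg_left h3 hτ.le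

lemma sub (h : Facts R ψ q) (hs : Sys n τ Ψ x) (ht : 0 < t) (hr : r₁ < R)
    (hM : q r₁ / r₁ ≤ M) (hcond : t * Real.exp (t * M) ≤ 2 * τ) :
    ∀ k : ℕ, k < n → t * k ≤ r₁ → ∀ j ≤ k, ψ (t * j) ≤ Ψ j
  | 0, _, _ => by
    intro j hj
    obtain rfl : j = 0 := by omega
    simpa [h.ψ0] using hs.Ψ_zero_pos.le
  | k+1, hkn, hk => by
    push_cast at hk
    have hk1 : t * (k:ℝ) ≤ r₁ := by nlinarith
    have ih := sub h hs ht hr hM hcond k (by omega) hk1
    intro j hj
    rcases Nat.lt_or_ge j (k+1) with hj1 | hj1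
    · exact ih j (by omega)
    · obtain rfl : j = k+1 := by omega
      have h1 := sub_step h hs ht hr hM hcond (by omega) hk ih
      have hnn : 0 ≤ t * (k:ℝ) := by positivity
      have hspos : 0 < t * ((k:ℝ)+1) := by positivity
      have h2 := h.ψ_sub_le hnn (show t * (k:ℝ) ≤ t * ((k:ℝ)+1) by nlinarith) (by linarith)
      have h3 := hs.Ψ_succ_ge hkn
      have h4 := ih k le_rfl
      have e : t * ((k:ℝ)+1) - t * k = t := by ring
      rw [e] at h2
      have hk0 : (0:ℝ) < (k:ℝ) + 1 := by positivity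
      have h5 : t * (q (t * ((k:ℝ)+1)) / (t * ((k:ℝ)+1))) = q (t * ((k:ℝ)+1)) / (k+1) := by
        field_simp
      rw [h5] at h2
      have h6 : q (t * ((k:ℝ)+1)) / (k+1) ≤ 2 * x k := by
        rw [div_le_iff₀ hk0]; linarith
      push_cast
      linarith

/-- discrete blow-up -/
lemma blowup (hs : Sys n τ Ψ x) {k₁ L : ℕ} (hL : 2 ≤ L) (hk : k₁ + L < n)
    (ha : (n:ℝ) / L ≤ (k₁ + 1) * x k₁)
    (hb : 2 * (n:ℝ) ≤ τ * Real.exp (Ψ (k₁+1)) * (L * (L - 1))) : False := by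
  have hτ := hs.τ_pos
  have hn : (0:ℝ) < n := by exact_mod_cast (by omega : 0 < n)
  have key : ∀ j : ℕ, j + 2 ≤ L →
      (n:ℝ) ≤ ((k₁ + j : ℕ) + 1) * x (k₁ + j) * (L - j) ∧
      2 * (n:ℝ) ≤ τ * Real.exp (Ψ (k₁ + j + 1)) * ((L - j) * (L - j - 1)) := by
    intro j
    induction j with
    | zero =>
      intro _
      have hL0 : (0:ℝ) < L := by exact_mod_cast (by omega : 0 < L)
      rw [div_le_iff₀ hL0] at ha
      simpa using ⟨ha, hb⟩
    | succ j ih =>
      intro hj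
      obtain ⟨h1, h2⟩ := ih (by omega)
      have hLj : (j:ℝ) + 3 ≤ L := by exact_mod_cast (by omega : j + 3 ≤ L)
      set m := k₁ + j with hm
      have hmn : m + 1 + 1 < n := by omega
      have e3 := hs.hx m (by omega)
      have e4 := hs.hx (m+1) (by omega)
      rw [Finset.sum_range_succ, mul_add, ← e3] at e4
      have e5 : Real.exp (Ψ (m+1)) / 2 ≤ Real.cosh (Ψ (m+1)) := by
        rw [Real.cosh_eq]
        have := Real.exp_pos (-Ψ (m+1))
        linarith
      have hA : 0 < (L:ℝ) - j - 1 := by linarith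
      have hA1 : 0 < (L:ℝ) - j := by linarith
      have hA2 : 0 < (L:ℝ) - j - 2 := by linarith
      set X : ℝ := ((m:ℝ)+1) * x m with hX
      set E : ℝ := Real.exp (Ψ (m+1)) with hE
      have hEpos : 0 < E := Real.exp_pos _
      have f1 : (n:ℝ) ≤ X * (L - j) := h1
      have f2 : 2 * (n:ℝ) ≤ τ * E * ((L - j) * (L - j - 1)) := h2
      have f3 : X + τ * (E / 2) ≤ (((m+1:ℕ):ℝ)+1) * x (m+1) := by
        rw [e4]
        have := mul_le_mul_of_nonneg_left e5 hτ.le
        linarith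
      have g1 : (n:ℝ) ≤ (((m+1:ℕ):ℝ)+1) * x (m+1) * (L - j - 1) := by
        have g2 : (n:ℝ) ≤ (X + τ * (E / 2)) * (L - j - 1) := by
          have g3 : (n:ℝ) * (L - j) ≤ ((X + τ * (E / 2)) * (L - j - 1)) * (L - j) := by
            have : ((X + τ * (E / 2)) * (L - j - 1)) * (L - j)
              = (X * (L - j)) * (L - j - 1) + (τ * E * ((L - j) * (L - j - 1))) / 2 := by ring
            rw [this]
            have g4 : (n:ℝ) * (L - j - 1) ≤ (X * (L - j)) * (L - j - 1) :=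
              mul_le_mul_of_nonneg_right f1 hA.le
            linarith
          exact le_of_mul_le_mul_right g3 hA1
        exact g2.trans (mul_le_mul_of_nonneg_right f3 hA.le)
      -- lower bound for x (m+1)
      have hxpos := hs.x_pos (k := m+1) (by omega)
      have hxlt := hs.hlt (m+1) (by omega)
      have hmle : (((m+1:ℕ):ℝ)+1) ≤ n := by exact_mod_cast (by omega : m + 1 + 1 ≤ n)
      have g5 : 1 ≤ x (m+1) * (L - j - 1) := by
        have : (n:ℝ) * 1 ≤ n * (x (m+1) * (L - j - 1)) := by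
          calc (n:ℝ) * 1 = n := mul_one _
            _ ≤ (((m+1:ℕ):ℝ)+1) * x (m+1) * (L - j - 1) := g1
            _ = (((m+1:ℕ):ℝ)+1) * (x (m+1) * (L - j - 1)) := by ring
            _ ≤ n * (x (m+1) * (L - j - 1)) :=
                mul_le_mul_of_nonneg_right hmle (by positivity)
        exact le_of_mul_le_mul_left this hn
      have hes := hs.exp_succ hmn
      have g6 : E * (L - j) ≤ Real.exp (Ψ (m+1+1)) * (L - j - 2) := by
        -- (1+x)/(1-x) ≥ (L-j)/(L-j-2)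
        have hy : 0 < 1 - x (m+1) := by linarith
        have g7 : (L - j) * (1 - x (m+1)) ≤ (1 + x (m+1)) * (L - j - 2) := by nlinarith
        have g8 : (E * (L - j)) * (1 - x (m+1))
            ≤ (Real.exp (Ψ (m+1+1)) * (L - j - 2)) * (1 - x (m+1)) := by
          calc (E * (L - j)) * (1 - x (m+1)) = E * ((L - j) * (1 - x (m+1))) := by ring
            _ ≤ E * ((1 + x (m+1)) * (L - j - 2)) := mul_le_mul_of_nonneg_left g7 hEpos.le
            _ = (E * (1 + x (m+1))) * (L - j - 2) := by ring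
            _ = (Real.exp (Ψ (m+1+1)) * (1 - x (m+1))) * (L - j - 2) := by rw [hes]
            _ = _ := by ring
        exact le_of_mul_le_mul_right g8 hy
      have e8 : k₁ + (j+1) = m + 1 := by omega
      rw [e8]
      have e9 : ((j+1:ℕ):ℝ) = j + 1 := by push_cast; ring
      rw [e9]
      constructor
      · have : (L:ℝ) - (j + 1) = L - j - 1 := by ring
        rw [this]; exact g1
      · have : ((L:ℝ) - (j + 1)) * (L - (j+1) - 1) = (L - j - 1) * (L - j - 2) := by ring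
        rw [this]
        calc 2 * (n:ℝ) ≤ τ * E * ((L - j) * (L - j - 1)) := f2
          _ = τ * (E * (L - j)) * (L - j - 1) := by ring
          _ ≤ τ * (Real.exp (Ψ (m+1+1)) * (L - j - 2)) * (L - j - 1) := by
              apply mul_le_mul_of_nonneg_right _ hA.le
              exact mul_le_mul_of_nonneg_left g6 hτ.le
          _ = _ := by ring
  -- conclusion at j = L - 2
  obtain ⟨j, rfl⟩ : ∃ j, L = j + 2 := ⟨L-2, by omega⟩
  obtain ⟨h1, h2⟩ := key j le_rfl
  set m := k₁ + j with hm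
  have e3 := hs.hx m (by omega)
  have e4 := hs.hx (m+1) (by omega)
  rw [Finset.sum_range_succ, mul_add, ← e3] at e4
  have e5 : Real.exp (Ψ (m+1)) / 2 ≤ Real.cosh (Ψ (m+1)) := by
    rw [Real.cosh_eq]
    have := Real.exp_pos (-Ψ (m+1))
    linarith
  have hxlt := hs.hlt (m+1) (by omega)
  have hmle : (((m+1:ℕ):ℝ)+1) ≤ n := by exact_mod_cast (by omega : m + 1 + 1 ≤ n)
  have e6 : (((j+2:ℕ):ℝ) - j) = 2 := by push_cast; ring
  rw [e6] at h1 h2
  have h7 : (n:ℝ) ≤ (((m+1:ℕ):ℝ)+1) * x (m+1) := by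
    rw [e4]
    have := mul_le_mul_of_nonneg_left e5 hτ.le
    nlinarith
  have h8 : (((m+1:ℕ):ℝ)+1) * x (m+1) < (((m+1:ℕ):ℝ)+1) * 1 :=
    mul_lt_mul_of_pos_left hxlt (by positivity)
  linarith

end

end Pool.Agent.H390
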