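import Pool.Agent.H390.Nik

/-!
For every `n ≥ 1` the recurrence has a parameter `τ` with `x_{n-1} = 1`.
-/

namespace Pool.Agent.H390

open Filter Topology Set

/-- the state `(ψ_k, (k+1) x_k)` of the recurrence -/
noncomputable def st : ℕ → ℝ → ℝ × ℝ
  | 0, τ => (Real.arsinh (Real.tan τ), τ * Real.cosh (Real.arsinh (Real.tan τ)))
  | k+1, τ =>
    ((st k τ).1 + Real.log ((1 + (st k τ).2 / (k+1)) / (1 - (st k τ).2 / (k+1))),
     (st k τ).2 + τ * Real.cosh ((st k τ).1
       + Real.log ((1 + (st k τ).2 / (k+1)) / (1 - (st k τ).2 / (k+1)))))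

/-- `ψ_k` -/
noncomputable def psi (τ : ℝ) (k : ℕ) : ℝ := (st k τ).1

/-- `x_k` -/
noncomputable def xx (τ : ℝ) (k : ℕ) : ℝ := (st k τ).2 / (k+1)

lemma psi_succ (τ : ℝ) (k : ℕ) :
    psi τ (k+1) = psi τ k + Real.log ((1 + xx τ k) / (1 - xx τ k)) := rfl

lemma st_snd (τ : ℝ) : ∀ k, (st k τ).2 = τ * ∑ j ∈ Finset.range (k+1), Real.cosh (psi τ j)
  | 0 => by simp [st, psi]
  | k+1 => by
    rw [Finset.sum_range_succ, mul_add, ← st_snd τ k]
    rfl

lemma xx_eq (τ : ℝ) (k : ℕ) :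
    ((k:ℝ)+1) * xx τ k = τ * ∑ j ∈ Finset.range (k+1), Real.cosh (psi τ j) := by
  rw [xx, st_snd]
  field_simp

lemma xx_nonneg {τ : ℝ} (h : 0 ≤ τ) (k : ℕ) : 0 ≤ xx τ k := by
  rw [xx, st_snd]
  apply div_nonneg _ (by positivity)
  exact mul_nonneg h (Finset.sum_nonneg fun i _ => (Real.cosh_pos _).le)

lemma cosh_psi_zero {τ : ℝ} (h : 0 < Real.cos τ) : Real.cosh (psi τ 0) * Real.cos τ = 1 := by
  have : psi τ 0 = Real.arsinh (Real.tan τ) := rfl
  rw [this, Real.cosh_arsinh]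
  have h2 : 1 + Real.tan τ ^ 2 = ((Real.cos τ)⁻¹)^2 := by
    rw [Real.tan_eq_sin_div_cos]
    have := Real.sin_sq_add_cos_sq τ
    field_simp
    linarith
  rw [h2, Real.sqrt_sq (by positivity)]
  field_simp

lemma sinh_psi_zero {τ : ℝ} (h : 0 < Real.cos τ) : Real.sinh (psi τ 0) * Real.cos τ = Real.sin τ := by
  have : psi τ 0 = Real.arsinh (Real.tan τ) := rfl
  rw [this, Real.sinh_arsinh, Real.tan_eq_sin_div_cos]
  field_simp

lemma sys_of {n : ℕ} {τ : ℝ} (h0 : 0 < τ) (h1 : τ < Real.pi / 2)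
    (h : ∀ k, k + 1 < n → xx τ k < 1) : Sys n τ (psi τ) (xx τ) where
  τ_pos := h0
  τ_lt := h1
  cosh0 := cosh_psi_zero (Real.cos_pos_of_mem_Ioo ⟨by linarith [Real.pi_pos], h1⟩)
  sinh0 := sinh_psi_zero (Real.cos_pos_of_mem_Ioo ⟨by linarith [Real.pi_pos], h1⟩)
  hx := fun k _ => xx_eq τ k
  hψ := fun k _ => psi_succ τ k
  hlt := h

lemma cont_st : ∀ (k : ℕ) {τ : ℝ}, 0 ≤ τ → τ < Real.pi / 2 → (∀ j < k, xx τ j < 1) →
    ContinuousAt (fun t => (st k t).1) τ ∧ ContinuousAt (fun t => (st k t).2) τ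
  | 0, τ, h0, h1, _ => by
    have hc : Real.cos τ ≠ 0 :=
      (Real.cos_pos_of_mem_Ioo ⟨by linarith [Real.pi_pos], h1⟩).ne'
    have ht : ContinuousAt Real.tan τ := Real.continuousAt_tan.mpr hc
    have ha : ContinuousAt (fun t => Real.arsinh (Real.tan t)) τ :=
      Real.continuous_arsinh.continuousAt.comp ht
    refine ⟨ha, ?_⟩
    simp only [st]
    exact continuousAt_id.mul (Real.continuous_cosh.continuousAt.comp ha)
  | k+1, τ, h0, h1, h => by
    obtain ⟨c1, c2⟩ := cont_st k h0 h1 (fun j hj => h j (by omega))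
    have hx := h k (by omega)
    have hx0 := xx_nonneg h0 k
    rw [xx] at hx hx0
    have c3 : ContinuousAt (fun t => (1 + (st k t).2 / ((k:ℝ)+1)) / (1 - (st k t).2 / (k+1))) τ := by
      apply ContinuousAt.div
      · exact continuousAt_const.add (c2.div_const _)
      · exact continuousAt_const.sub (c2.div_const _)
      · linarith
    have c4 : ContinuousAt (fun t => (st k t).1
        + Real.log ((1 + (st k t).2 / ((k:ℝ)+1)) / (1 - (st k t).2 / (k+1)))) τ := by
      apply c1.add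
      apply c3.log
      apply (div_pos _ _).ne'
      · linarith
      · linarith
    refine ⟨c4, ?_⟩
    simp only [st]
    exact c2.add (continuousAt_id.mul (Real.continuous_cosh.continuousAt.comp c4))

lemma cont_xx {k : ℕ} {τ : ℝ} (h0 : 0 ≤ τ) (h1 : τ < Real.pi / 2) (h : ∀ j < k, xx τ j < 1) :
    ContinuousAt (fun t => xx t k) τ := by
  unfold xx
  exact (cont_st k h0 h1 h).2.div_const _

/-- first hitting time of the level `1` -/
lemma first_hit {f : ℝ → ℝ} {t₀ : ℝ} (ht : 0 ≤ t₀) (hf : ContinuousOn f (Icc 0 t₀))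
    (h0 : f 0 < 1) (h1 : 1 ≤ f t₀) :
    ∃ t, 0 < t ∧ t ≤ t₀ ∧ f t = 1 ∧ ∀ s, 0 ≤ s → s < t → f s < 1 := by
  have hcl : IsCompact (Icc 0 t₀ ∩ f ⁻¹' (Ici 1)) := by
    apply IsCompact.of_isClosed_subset isCompact_Icc
    · exact hf.preimage_isClosed_of_isClosed isClosed_Icc isClosed_Ici
    · exact inter_subset_left
  obtain ⟨t, ⟨⟨hta, htb⟩, htc⟩, htmin⟩ := hcl.exists_isLeast ⟨t₀, ⟨⟨ht, le_rfl⟩, h1⟩⟩
  have hlt : ∀ s, 0 ≤ s → s < t → f s < 1 := by
    intro s hs hst
    by_contra hcon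
    push Not at hcon
    have := htmin (show s ∈ Icc 0 t₀ ∩ f ⁻¹' (Ici 1) from ⟨⟨hs, by linarith⟩, hcon⟩)
    linarith
  have htpos : 0 < t := by
    rcases hta.lt_or_eq with h | h
    · exact h
    · exfalso
      rw [← h] at htc
      simp only [mem_preimage, mem_Ici] at htc
      linarith
  refine ⟨t, htpos, htb, ?_, hlt⟩
  apply le_antisymm _ htc
  by_contra hcon
  push Not at hcon
  have hsub : ContinuousOn f (Icc 0 t) := hf.mono (Icc_subset_Icc_right htb)
  obtain ⟨s, ⟨hs0, hst⟩, hs⟩ := intermediate_value_Ioo htpos.le hsub (show (1:ℝ) ∈ Ioo (f 0) (f t) from ⟨h0, hcon⟩)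
  have := hlt s hs0.le hst
  linarith

lemma psi_nonneg {τ : ℝ} (h0 : 0 ≤ τ) (h1 : τ < Real.pi / 2) : ∀ (k : ℕ), (∀ j < k, xx τ j < 1) →
    0 ≤ psi τ k
  | 0, _ => by
    show 0 ≤ Real.arsinh (Real.tan τ)
    rw [Real.arsinh_nonneg_iff]
    exact Real.tan_nonneg_of_nonneg_of_le_pi_div_two h0 h1.le
  | k+1, h => by
    rw [psi_succ]
    have ih := psi_nonneg h0 h1 k (fun j hj => h j (by omega))
    have hx := h k (by omega)
    have hx0 := xx_nonneg h0 k
    apply add_nonneg ih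
    apply Real.log_nonneg
    rw [le_div_iff₀ (by linarith)]
    linarith

lemma xx_at_zero : ∀ (k : ℕ), xx 0 k = 0 := by
  intro k
  rw [xx, st_snd]; simp

lemma xx_zero_ge {τ : ℝ} (h0 : 0 ≤ τ) (k : ℕ) : τ ≤ xx τ k := by
  have h := xx_eq τ k
  have h2 : (k:ℝ) + 1 ≤ ∑ j ∈ Finset.range (k+1), Real.cosh (psi τ j) := by
    calc (k:ℝ) + 1 = ∑ j ∈ Finset.range (k+1), (1:ℝ) := by simp
      _ ≤ _ := Finset.sum_le_sum fun i _ => Real.one_le_cosh _
  have h3 : (0:ℝ) < (k:ℝ) + 1 := by positivity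
  nlinarith

theorem exists_param : ∀ (m : ℕ), ∃ τ : ℝ, 0 < τ ∧ τ ≤ 1 ∧ xx τ m = 1 ∧
    ∀ s, 0 ≤ s → (s < τ → ∀ j ≤ m, xx s j < 1) ∧ (s ≤ τ → ∀ j < m, xx s j < 1)
  | 0 => by
    have hpi := Real.pi_gt_three
    obtain ⟨t, ht0, ht1, ht2, ht3⟩ := first_hit (f := fun t => xx t 0) (t₀ := 1) zero_le_one
      (fun t ht => (cont_xx ht.1 (by linarith [ht.2]) (by omega)).continuousWithinAt)
      (by simp [xx_at_zero]) (xx_zero_ge zero_le_one 0)
    refine ⟨t, ht0, ht1, ht2, fun s hs => ⟨fun hst j hj => ?_, fun _ j hj => by omega⟩⟩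
    obtain rfl : j = 0 := by omega
    exact ht3 s hs hst
  | m+1 => by
    obtain ⟨τ, h0, h1, h2, h3⟩ := exists_param m
    have hpi := Real.pi_gt_three
    -- a point below `τ` where `x_{m+1} ≥ 1`
    have hcont : ContinuousAt (fun t => xx t m) τ := cont_xx h0.le (by linarith) ((h3 τ h0.le).2 le_rfl)
    have hex : ∃ t, 0 < t ∧ t < τ ∧ 1 ≤ xx t (m+1) := by
      set δ : ℝ := τ / (4 * ((m:ℝ) + 2)) with hδ
      have hδ0 : 0 < δ := by positivity
      have hev : ∀ᶠ t in 𝓝 τ, 1 - δ < xx t m := by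
        have : Tendsto (fun t => xx t m) (𝓝 τ) (𝓝 1) := by
          have := hcont.tendsto
          rwa [h2] at this
        exact this.eventually (lt_mem_nhds (by linarith))
      have hev2 : ∀ᶠ t in 𝓝[<] τ, 1 - δ < xx t m ∧ τ / 2 < t ∧ t < τ := by
        filter_upwards [mem_nhdsWithin_of_mem_nhds hev, Ioo_mem_nhdsLT (show τ/2 < τ by linarith)]
          with t a1 a2 using ⟨a1, a2.1, a2.2⟩
      obtain ⟨t, e1, e2, e3⟩ := hev2.exists
      have ht0 : 0 < t := by linarith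
      refine ⟨t, ht0, e3, ?_⟩
      have hlt := (h3 t ht0.le).1 e3
      have hxm := hlt m le_rfl
      have hx0 := xx_nonneg ht0.le m
      have hpsi := psi_nonneg ht0.le (by linarith) m (fun j hj => hlt j hj.le)
      have hcosh : 1 / (2 * δ) ≤ Real.cosh (psi t (m+1)) := by
        rw [psi_succ]
        have e4 : Real.exp (psi t m + Real.log ((1 + xx t m) / (1 - xx t m))) / 2
            ≤ Real.cosh (psi t m + Real.log ((1 + xx t m) / (1 - xx t m))) := by
          rw [Real.cosh_eq]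
          have := Real.exp_pos (-(psi t m + Real.log ((1 + xx t m) / (1 - xx t m))))
          linarith
        refine le_trans ?_ e4
        have hq : 0 < (1 + xx t m) / (1 - xx t m) := div_pos (by linarith) (by linarith)
        rw [Real.exp_add, Real.exp_log hq]
        have e5 : 1 ≤ Real.exp (psi t m) := Real.one_le_exp hpsi
        have e6 : 1 / δ ≤ (1 + xx t m) / (1 - xx t m) := by
          rw [div_le_div_iff₀ hδ0 (by linarith)]
          nlinarith
        have e7 : 1 / (2 * δ) = 1 / δ / 2 := by field_simp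
        rw [e7]
        have : 1 * (1 / δ) ≤ Real.exp (psi t m) * ((1 + xx t m) / (1 - xx t m)) :=
          mul_le_mul e5 e6 (by positivity) (Real.exp_pos _).le
        linarith
      have hx := xx_eq t (m+1)
      rw [Finset.sum_range_succ, mul_add] at hx
      have hs : 0 ≤ t * ∑ j ∈ Finset.range (m+1), Real.cosh (psi t j) :=
        mul_nonneg ht0.le (Finset.sum_nonneg fun i _ => (Real.cosh_pos _).le)
      have h5 : (m:ℝ) + 2 ≤ t * Real.cosh (psi t (m+1)) := by
        have : τ / 2 * (1 / (2 * δ)) = (m:ℝ) + 2 := by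
          rw [hδ]; field_simp
          ring
        rw [← this]
        apply mul_le_mul e2.le hcosh (by positivity) ht0.le
      push_cast at hx
      have h6 : (0:ℝ) < (m:ℝ) + 2 := by positivity
      by_contra hcon
      push Not at hcon
      nlinarith
    obtain ⟨t₀, ht00, ht01, ht02⟩ := hex
    obtain ⟨t, ht0, ht1, ht2, ht3⟩ := first_hit (f := fun t => xx t (m+1)) (t₀ := t₀) ht00.le
      (fun t ht => (cont_xx ht.1 (by linarith [ht.2])
        (fun j hj => (h3 t ht.1).1 (by linarith [ht.2]) j (by omega))).continuousWithinAt)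
      (by simp [xx_at_zero]) ht02
    refine ⟨t, ht0, by linarith, ht2, fun s hs => ⟨fun hst j hj => ?_, fun hst j hj => ?_⟩⟩
    · rcases Nat.lt_or_ge j (m+1) with hj1 | hj1
      · exact (h3 s hs).1 (by linarith) j (by omega)
      · obtain rfl : j = m+1 := by omega
        exact ht3 s hs hst
    · exact (h3 s hs).1 (by linarith) j (by omega)

/-- For each `n ≥ 1` there is a parameter with the required properties. -/
theorem exists_sys {n : ℕ} (hn : 0 < n) :
    ∃ τ : ℝ, Sys n τ (psi τ) (xx τ) ∧ xx τ (n-1) = 1 := by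
  obtain ⟨τ, h0, h1, h2, h3⟩ := exists_param (n-1)
  refine ⟨τ, sys_of h0 (by linarith [Real.pi_gt_three]) ?_, h2⟩
  intro k hk
  exact (h3 τ h0.le).2 le_rfl k (by omega)

end Pool.Agent.H390
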