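import Pool.Agent.H390.LogPart

/-!
The exact constant for every degree, given a solution of the recurrence.
-/

namespace Pool.Agent.H390

open Complex Metric Set Filter Topology
open MeasureTheory (volume)

lemma sum_split (g : ℕ → ℝ) (n : ℕ) :
    ∑ j ∈ Finset.range (2 * n + 1), g j
      = g n + ∑ k ∈ Finset.Icc 1 n, (g (n + k) + g (n - k)) := by
  have e0 : Finset.Icc 1 n = Finset.Ico 1 (n+1) := by ext; simp
  rw [e0, Finset.sum_add_distrib]
  have h1 : ∑ k ∈ Finset.Ico 1 (n+1), g (n + k) = ∑ i ∈ Finset.range n, g (n + 1 + i) := by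
    rw [Finset.sum_Ico_eq_sum_range]
    simp only [Nat.add_sub_cancel]
    exact Finset.sum_congr rfl fun i _ => by rw [add_assoc]
  have h2 : ∑ k ∈ Finset.Ico 1 (n+1), g (n - k) = ∑ i ∈ Finset.range n, g i := by
    rw [Finset.sum_Ico_eq_sum_range]
    simp only [Nat.add_sub_cancel]
    rw [← Finset.sum_range_reflect g n]
    exact Finset.sum_congr rfl fun i _ => by rw [Nat.sub_sub]
  rw [h1, h2]
  have : 2 * n + 1 = (n + 1) + n := by ring
  rw [this, Finset.sum_range_add, Finset.sum_range_succ]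
  ring

/-- a real function of the form `z^{-n} p(z)` on the circle is a trigonometric polynomial -/
lemma trig_of_poly {n : ℕ} {p : Polynomial ℝ} (hp : p.natDegree ≤ 2 * n) {f : ℝ → ℝ}
    (hf : ∀ θ : ℝ, (f θ : ℂ) * (circleMap 0 1 θ)^n = Polynomial.aeval (circleMap 0 1 θ) p) :
    ∃ a b : ℕ → ℝ, ∀ θ, f θ = trigPoly n a b θ := by
  refine ⟨fun k => if k = 0 then 2 * p.coeff n else p.coeff (n+k) + p.coeff (n-k),
    fun _ => 0, fun θ => ?_⟩
  have hz : circleMap 0 1 θ ≠ 0 := circleMap_ne_center one_ne_zero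
  have h3 : (circleMap 0 1 θ)^n ≠ 0 := pow_ne_zero _ hz
  have h1 : (f θ : ℂ) = ∑ j ∈ Finset.range (2 * n + 1),
      (p.coeff j : ℂ) * Complex.exp (((((j:ℝ) - n) * θ : ℝ) : ℂ) * Complex.I) := by
    have h2 := hf θ
    rw [Polynomial.aeval_eq_sum_range' (n := 2 * n + 1) (by omega)] at h2
    have h4 : (∑ j ∈ Finset.range (2 * n + 1),
      (p.coeff j : ℂ) * Complex.exp (((((j:ℝ) - n) * θ : ℝ) : ℂ) * Complex.I))
        * (circleMap 0 1 θ)^n = ∑ i ∈ Finset.range (2 * n + 1), p.coeff i • circleMap 0 1 θ ^ i := by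
      rw [Finset.sum_mul]
      refine Finset.sum_congr rfl fun j _ => ?_
      rw [circleMap_pow, circleMap_pow, Complex.real_smul, mul_assoc]
      congr 1
      rw [Complex.ofReal_one, one_pow, one_pow, one_mul, one_mul, ← Complex.exp_add]
      congr 1
      push_cast
      ring
    rw [← h4] at h2
    exact mul_right_cancel₀ h3 h2
  have h5 : f θ = ∑ j ∈ Finset.range (2 * n + 1), p.coeff j * Real.cos (((j:ℝ) - n) * θ) := by
    have := congrArg Complex.re h1
    rw [Complex.ofReal_re, Complex.re_sum] at this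
    rw [this]
    refine Finset.sum_congr rfl fun j _ => ?_
    rw [Complex.re_ofReal_mul, Complex.exp_ofReal_mul_I_re]
  rw [h5, sum_split, trigPoly]
  congr 1
  · simp
  · refine Finset.sum_congr rfl fun k hk => ?_
    rw [Finset.mem_Icc] at hk
    have hk0 : k ≠ 0 := by omega
    simp only [hk0, if_false, zero_mul, add_zero]
    have e1 : (((n + k : ℕ):ℝ) - n) * θ = k * θ := by push_cast; ring
    have e2 : (((n - k : ℕ):ℝ) - n) * θ = -(k * θ) := by
      rw [Nat.cast_sub hk.2]; ring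
    rw [e1, e2, Real.cos_neg]
    ring

section

variable {n : ℕ} {τ : ℝ} {ψ x : ℕ → ℝ}

/-- the imaginary part of `A conj B` -/
noncomputable def Gf (τ : ℝ) (P Q : ℂ → ℂ) (z : ℂ) : ℝ :=
  Real.sin τ * (‖Q z‖^2 + ‖P z‖^2) + 2 * (P z * (starRingEnd ℂ) (Q z)).re

lemma Pf_one (y : ℕ → ℝ) (j : ℕ) : Pf y j 1 = ((∏ i ∈ Finset.range j, (1 + y i) : ℝ) : ℂ)
    ∧ Qf y j 1 = ((∏ i ∈ Finset.range j, (1 + y i) : ℝ) : ℂ) := by
  induction j with
  | zero => simp
  | succ j ih =>
    rw [Pf_succ, Qf_succ, ih.1, ih.2, Finset.prod_range_succ]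
    push_cast
    constructor <;> ring

/-- the extremal polynomial is a trigonometric polynomial -/
lemma G_trig (τ : ℝ) (y : ℕ → ℝ) (j : ℕ) :
    ∃ a b : ℕ → ℝ, ∀ θ, Gf τ (Pf y j) (Qf y j) (circleMap 0 1 θ) = trigPoly (j+1) a b θ := by
  set p : Polynomial ℝ := (PQ y j).1^2 + (PQ y j).2^2
    + Polynomial.C (2 * Real.sin τ) * ((PQ y j).1 * (PQ y j).2) with hp
  obtain ⟨d1, d2⟩ := natDegree_PQ y j
  have hdeg : p.natDegree ≤ 2 * (j+1) := by
    rw [hp]
    refine (Polynomial.natDegree_add_le _ _).trans (max_le ((Polynomial.natDegree_add_le _ _).trans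
      (max_le ?_ ?_)) ?_)
    · exact (Polynomial.natDegree_pow_le).trans (by omega)
    · exact (Polynomial.natDegree_pow_le).trans (by omega)
    · refine (Polynomial.natDegree_C_mul_le _ _).trans ?_
      exact (Polynomial.natDegree_mul_le).trans (by omega)
  refine trig_of_poly hdeg (f := fun θ => Gf τ (Pf y j) (Qf y j) (circleMap 0 1 θ)) fun θ => ?_
  set z := circleMap 0 1 θ with hz
  have hzn : ‖z‖ = 1 := by rw [hz, norm_circleMap_zero]; simp
  obtain ⟨h1, h2⟩ := Qf_circle y j hzn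
  have hzz : z^(j+1) * (starRingEnd ℂ) (z^(j+1)) = 1 := by
    rw [Complex.mul_conj, Complex.normSq_eq_norm_sq, norm_pow, hzn]; simp
  have e1 : ((‖Qf y j z‖^2 : ℝ) : ℂ) = Qf y j z * (starRingEnd ℂ) (Qf y j z) := by
    rw [Complex.mul_conj, Complex.normSq_eq_norm_sq]
  have e2 : ((‖Pf y j z‖^2 : ℝ) : ℂ) = Pf y j z * (starRingEnd ℂ) (Pf y j z) := by
    rw [Complex.mul_conj, Complex.normSq_eq_norm_sq]
  have e3 : ((2 * (Pf y j z * (starRingEnd ℂ) (Qf y j z)).re : ℝ) : ℂ)
      = Pf y j z * (starRingEnd ℂ) (Qf y j z) + (starRingEnd ℂ) (Pf y j z) * Qf y j z := by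
    have := Complex.add_conj (Pf y j z * (starRingEnd ℂ) (Qf y j z))
    rw [← this]; simp
  have hval : Polynomial.aeval z p = Pf y j z^2 + Qf y j z^2
      + 2 * Real.sin τ * (Pf y j z * Qf y j z) := by
    rw [hp]; simp [Pf, Qf]
  rw [hval]
  simp only [Gf]
  rw [Complex.ofReal_add, e3, Complex.ofReal_mul, Complex.ofReal_add, e1, e2]
  set P := Pf y j z
  set Q := Qf y j z
  linear_combination -Q * h1 - P * h2 - (Real.sin τ : ℂ) * (P * h1 + Q * h2)

lemma trigPoly_zero (n : ℕ) (a b : ℕ → ℝ) :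
    trigPoly n a b 0 = a 0 / 2 + ∑ k ∈ Finset.Icc 1 n, a k := by
  simp [trigPoly]

lemma tendsto_val (n : ℕ) (a b : ℕ → ℝ) (τ : ℝ) :
    Tendsto (fun ρ : ℝ => 2 * Real.pi * τ * (a 0 / 2 + ∑ k ∈ Finset.Icc 1 n, a k * ρ^k))
      (𝓝[<] 1) (𝓝 (2 * Real.pi * τ * trigPoly n a b 0)) := by
  have : Continuous (fun ρ : ℝ => 2 * Real.pi * τ * (a 0 / 2 + ∑ k ∈ Finset.Icc 1 n, a k * ρ^k)) := by
    fun_prop
  have h := (this.tendsto 1).mono_left (nhdsWithin_le_nhds (s := Iio 1))
  simpa [trigPoly_zero] using h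

lemma Ioo_ev : ∀ᶠ ρ : ℝ in 𝓝[<] 1, 0 < ρ ∧ ρ < 1 := by
  filter_upwards [Ioo_mem_nhdsLT (zero_lt_one (α := ℝ))] with ρ hρ using hρ

/-- The product `A conj B` of the construction. -/
noncomputable def Wf (τ : ℝ) (y : ℕ → ℝ) (j : ℕ) (z : ℂ) : ℂ :=
  Af τ (Pf y j) (Qf y j) z * (starRingEnd ℂ) (Bf τ (Pf y j) (Qf y j) z)

lemma Wf_continuous (τ : ℝ) (y : ℕ → ℝ) (j : ℕ) : Continuous (Wf τ y j) := by
  have c1 := (Pf_diff y j).continuous
  have c2 := (Qf_diff y j).continuous
  unfold Wf Af Bf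
  fun_prop

lemma Wf_im (τ : ℝ) (y : ℕ → ℝ) (j : ℕ) (z : ℂ) : (Wf τ y j z).im = Gf τ (Pf y j) (Qf y j) z := by
  rw [Wf, A_conj_B, Gf]
  simp only [Complex.add_im, Complex.ofReal_im, Complex.mul_im, Complex.I_im, mul_one,
    Complex.ofReal_re, Complex.I_re, mul_zero, add_zero, zero_add]

lemma Wf_re (τ : ℝ) (y : ℕ → ℝ) (j : ℕ) (z : ℂ) :
    (Wf τ y j z).re = Real.cos τ * (‖Qf y j z‖^2 - ‖Pf y j z‖^2) := by
  rw [Wf, A_conj_B]
  simp only [Complex.add_re, Complex.ofReal_re, Complex.mul_re, Complex.I_re, mul_zero,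
    Complex.ofReal_im, Complex.I_im, mul_one, sub_zero, add_zero]

/-- The data produced by a solution of the recurrence. -/
lemma data (hn : 0 < n) (h : Sys n τ ψ x) (h1 : x (n-1) = 1) :
    ∀ (ρ : ℝ), 0 < ρ → ρ < 1 → ∀ a b : ℕ → ℝ,
      (∀ θ : ℝ, 0 < (Wf τ (fun i => x (n-2-i)) (n-1) (circleMap 0 ρ θ)).re) ∧
      ∫ θ in (0:ℝ)..(2 * Real.pi), trigPoly n a b θ *
        Complex.arg (Wf τ (fun i => x (n-2-i)) (n-1) (circleMap 0 ρ θ))
      = 2 * Real.pi * τ * (a 0 / 2 + ∑ k ∈ Finset.Icc 1 n, a k * ρ^k) := by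
  intro ρ h2 h3 a b
  set y : ℕ → ℝ := fun i => x (n-2-i) with hy
  have hyi : ∀ i < n-1, |y i| < 1 := by
    intro i hi
    have e1 := h.x_pos (k := n-2-i) (by omega)
    have e2 := h.hlt (n-2-i) (by omega)
    rw [abs_lt]; constructor
    · simp only [hy]; linarith
    · exact e2
  have hPQ : ∀ z : ℂ, ‖z‖ < 1 → ‖Pf y (n-1) z‖ < ‖Qf y (n-1) z‖ := fun z hz =>
    norm_Pf_lt (n-1) hyi hz
  have hnorm : ∀ θ : ℝ, ‖circleMap 0 ρ θ‖ < 1 := fun θ => by
    simpa using circle_mem h2 h3 θ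
  obtain ⟨hLd, H, hH, hL⟩ := log_taylor (n := n) h.τ_pos h.τ_lt (Pf_diff y (n-1))
    (Qf_diff y (n-1)) hPQ (contact hn h h1)
  refine ⟨fun θ => re_pos h.cos_pos (hPQ _ (hnorm θ)), ?_⟩
  rw [← pairing hLd hH hL h2 h3 a b]
  refine intervalIntegral.integral_congr fun θ _ => ?_
  rw [arg_eq h.cos_pos (hPQ _ (hnorm θ)), Wf]

/-- Half of the theorem: the inequality. -/
theorem upper_zero (hn : 0 < n) (h : Sys n τ ψ x) (h1 : x (n-1) = 1) (a b : ℕ → ℝ) :
    4 * τ * trigPoly n a b 0 ≤ ∫ θ in (0:ℝ)..(2 * Real.pi), |trigPoly n a b θ| := by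
  have hpi := Real.pi_pos
  have key : 2 * Real.pi * τ * trigPoly n a b 0
      ≤ (Real.pi / 2) * ∫ θ in (0:ℝ)..(2 * Real.pi), |trigPoly n a b θ| := by
    refine le_of_tendsto (tendsto_val n a b τ) ?_
    filter_upwards [Ioo_ev] with ρ hρ
    obtain ⟨hre, hint⟩ := data hn h h1 ρ hρ.1 hρ.2 a b
    rw [← hint, ← intervalIntegral.integral_const_mul]
    have hAc : Continuous fun θ : ℝ => Wf τ (fun i => x (n-2-i)) (n-1) (circleMap 0 ρ θ) :=
      (Wf_continuous _ _ _).comp (continuous_circleMap 0 ρ)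
    have hac : Continuous fun θ : ℝ =>
        Complex.arg (Wf τ (fun i => x (n-2-i)) (n-1) (circleMap 0 ρ θ)) := by
      rw [continuous_iff_continuousAt]
      intro θ
      exact ContinuousAt.comp (f := fun θ : ℝ => Wf τ (fun i => x (n-2-i)) (n-1) (circleMap 0 ρ θ))
        (Complex.continuousAt_arg (Or.inl (hre θ))) hAc.continuousAt
    have hpc := continuous_trigPoly n a b
    refine intervalIntegral.integral_mono_on (by positivity)
      ((hpc.mul hac).intervalIntegrable _ _) ((continuous_const.mul hpc.abs).intervalIntegrable _ _)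
      ?_
    intro θ _
    have h5 := Complex.abs_arg_le_pi_div_two_iff.mpr (hre θ).le
    calc trigPoly n a b θ * Complex.arg (Wf τ (fun i => x (n-2-i)) (n-1) (circleMap 0 ρ θ))
        ≤ |trigPoly n a b θ * Complex.arg (Wf τ (fun i => x (n-2-i)) (n-1) (circleMap 0 ρ θ))| :=
          le_abs_self _
      _ = |trigPoly n a b θ| * |Complex.arg (Wf τ (fun i => x (n-2-i)) (n-1) (circleMap 0 ρ θ))| :=
          abs_mul _ _
      _ ≤ |trigPoly n a b θ| * (Real.pi / 2) := mul_le_mul_of_nonneg_left h5 (abs_nonneg _)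
      _ = _ := mul_comm _ _
  nlinarith

lemma trigPoly_neg (n : ℕ) (a b : ℕ → ℝ) (θ : ℝ) :
    trigPoly n (fun k => -a k) (fun k => -b k) θ = -trigPoly n a b θ := by
  simp only [trigPoly, neg_mul]
  rw [neg_add, ← Finset.sum_neg_distrib, neg_div]
  congr 1
  exact Finset.sum_congr rfl fun k _ => by ring

lemma trigPoly_shift (n : ℕ) (a b : ℕ → ℝ) (θ₀ θ : ℝ) :
    trigPoly n a b (θ + θ₀) = trigPoly n
      (fun k => a k * Real.cos (k * θ₀) + b k * Real.sin (k * θ₀))
      (fun k => b k * Real.cos (k * θ₀) - a k * Real.sin (k * θ₀)) θ := by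
  simp only [trigPoly]
  congr 1
  · simp
  · refine Finset.sum_congr rfl fun k _ => ?_
    rw [mul_add, Real.cos_add, Real.sin_add]
    ring

lemma trigPoly_periodic (n : ℕ) (a b : ℕ → ℝ) : Function.Periodic (trigPoly n a b) (2 * Real.pi) := by
  intro θ
  simp only [trigPoly]
  congr 1
  refine Finset.sum_congr rfl fun k _ => ?_
  have : (k:ℝ) * (θ + 2 * Real.pi) = k * θ + k * (2 * Real.pi) := by ring
  rw [this, Real.cos_add_nat_mul_two_pi, Real.sin_add_nat_mul_two_pi]

theorem upper (hn : 0 < n) (h : Sys n τ ψ x) (h1 : x (n-1) = 1) (a b : ℕ → ℝ) (θ₀ : ℝ) :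
    4 * τ * |trigPoly n a b θ₀| ≤ ∫ θ in (-Real.pi)..Real.pi, |trigPoly n a b θ| := by
  have hper : Function.Periodic (fun θ => |trigPoly n a b θ|) (2 * Real.pi) := fun θ => by
    simp only [trigPoly_periodic n a b θ]
  have e1 : ∫ θ in (-Real.pi)..Real.pi, |trigPoly n a b θ|
      = ∫ θ in (0:ℝ)..(2 * Real.pi), |trigPoly n a b (θ + θ₀)| := by
    rw [intervalIntegral.integral_comp_add_right (fun θ => |trigPoly n a b θ|)]
    have := hper.intervalIntegral_add_eq (-Real.pi) (0 + θ₀)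
    rw [show -Real.pi + 2 * Real.pi = Real.pi by ring] at this
    rw [this]
    congr 1; ring
  rw [e1]
  set a' : ℕ → ℝ := fun k => a k * Real.cos (k * θ₀) + b k * Real.sin (k * θ₀) with ha'
  set b' : ℕ → ℝ := fun k => b k * Real.cos (k * θ₀) - a k * Real.sin (k * θ₀) with hb'
  have e2 : ∀ θ, trigPoly n a b (θ + θ₀) = trigPoly n a' b' θ := trigPoly_shift n a b θ₀
  simp_rw [e2]
  have e3 : trigPoly n a b θ₀ = trigPoly n a' b' 0 := by rw [← e2, zero_add]
  rw [e3]
  rcases abs_cases (trigPoly n a' b' 0) with ⟨he, _⟩ | ⟨he, _⟩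
  · rw [he]; exact upper_zero hn h h1 a' b'
  · rw [he]
    have := upper_zero hn h h1 (fun k => -a' k) (fun k => -b' k)
    simp only [trigPoly_neg, abs_neg] at this
    exact this

/-- The other half: the extremal polynomial. -/
theorem extremal (hn : 0 < n) (h : Sys n τ ψ x) (h1 : x (n-1) = 1) :
    ∃ a b : ℕ → ℝ, 0 < trigPoly n a b 0 ∧
      ∫ θ in (0:ℝ)..(2 * Real.pi), |trigPoly n a b θ| = 4 * τ * trigPoly n a b 0 := by
  have hpi := Real.pi_pos
  set y : ℕ → ℝ := fun i => x (n-2-i) with hy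
  obtain ⟨a, b, hab⟩ := G_trig τ y (n-1)
  rw [Nat.sub_add_cancel hn] at hab
  have hsin : 0 < Real.sin τ :=
    Real.sin_pos_of_pos_of_lt_pi h.τ_pos (by linarith [h.τ_lt])
  have hpos : 0 < trigPoly n a b 0 := by
    rw [← hab 0]
    have hz : circleMap 0 1 0 = 1 := by simp [circleMap]
    rw [hz, Gf, (Pf_one y (n-1)).1, (Pf_one y (n-1)).2]
    set c : ℝ := ∏ i ∈ Finset.range (n-1), (1 + y i) with hc
    have hcpos : 0 < c := by
      apply Finset.prod_pos
      intro i hi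
      rw [Finset.mem_range] at hi
      have := h.x_pos (k := n-2-i) (by omega)
      simp only [hy]; linarith
    rw [Complex.conj_ofReal, ← Complex.ofReal_mul, Complex.ofReal_re, Complex.norm_real]
    have : 0 < c * c := mul_pos hcpos hcpos
    positivity
  refine ⟨a, b, hpos, ?_⟩
  have hpc := continuous_trigPoly n a b
  have hlim : Tendsto (fun ρ : ℝ => ∫ θ in (0:ℝ)..(2 * Real.pi), trigPoly n a b θ *
        Complex.arg (Wf τ y (n-1) (circleMap 0 ρ θ))) (𝓝[<] 1)
        (𝓝 (∫ θ in (0:ℝ)..(2 * Real.pi), (Real.pi / 2) * |trigPoly n a b θ|)) := by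
    apply intervalIntegral.tendsto_integral_filter_of_dominated_convergence
      (fun θ => Real.pi * |trigPoly n a b θ|)
    · filter_upwards with ρ
      have m1 : Measurable fun θ : ℝ => Complex.arg (Wf τ y (n-1) (circleMap 0 ρ θ)) :=
        Complex.measurable_arg.comp
          ((Wf_continuous τ y (n-1)).comp (continuous_circleMap 0 ρ)).measurable
      exact (hpc.measurable.mul m1).aestronglyMeasurable
    · filter_upwards with ρ
      filter_upwards with θ _
      rw [norm_mul, Real.norm_eq_abs, Real.norm_eq_abs, mul_comm]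
      exact mul_le_mul_of_nonneg_right (Complex.abs_arg_le_pi _) (abs_nonneg _)
    · exact (continuous_const.mul hpc.abs).intervalIntegrable _ _
    · filter_upwards with θ _
      by_cases h0 : trigPoly n a b θ = 0
      · simp [h0]
      · have hre : (Wf τ y (n-1) (circleMap 0 1 θ)).re = 0 := by
          rw [Wf_re]
          have hzn : ‖circleMap 0 1 θ‖ = 1 := by rw [norm_circleMap_zero]; simp
          have := (Qf_circle y (n-1) hzn).1
          have e : ‖Qf y (n-1) (circleMap 0 1 θ)‖ = ‖Pf y (n-1) (circleMap 0 1 θ)‖ := by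
            rw [this, norm_mul, norm_pow, hzn, one_pow, one_mul, Complex.norm_conj]
          rw [e]; ring
        have him : (Wf τ y (n-1) (circleMap 0 1 θ)).im = trigPoly n a b θ := by
          rw [Wf_im]; exact hab θ
        have hW : Wf τ y (n-1) (circleMap 0 1 θ) = trigPoly n a b θ * Complex.I := by
          apply Complex.ext <;> simp [hre, him]
        have hslit : Wf τ y (n-1) (circleMap 0 1 θ) ∈ Complex.slitPlane := by
          rw [Complex.mem_slitPlane_iff, him]; exact Or.inr h0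
        have hcm : Tendsto (fun ρ : ℝ => circleMap 0 ρ θ) (𝓝[<] 1) (𝓝 (circleMap 0 1 θ)) := by
          have : Continuous fun ρ : ℝ => circleMap 0 ρ θ := by
            unfold circleMap; fun_prop
          exact (this.tendsto 1).mono_left nhdsWithin_le_nhds
        have harg : Tendsto (fun ρ : ℝ => Complex.arg (Wf τ y (n-1) (circleMap 0 ρ θ))) (𝓝[<] 1)
            (𝓝 (Complex.arg (Wf τ y (n-1) (circleMap 0 1 θ)))) :=
          (Complex.continuousAt_arg hslit).tendsto.comp
            (((Wf_continuous τ y (n-1)).tendsto _).comp hcm)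
        have hval : trigPoly n a b θ * Complex.arg (Wf τ y (n-1) (circleMap 0 1 θ))
            = (Real.pi / 2) * |trigPoly n a b θ| := by
          rw [hW]
          rcases lt_or_gt_of_ne h0 with hneg | hgt
          · have : (trigPoly n a b θ : ℂ) * Complex.I
                = ((-trigPoly n a b θ : ℝ) : ℂ) * (-Complex.I) := by push_cast; ring
            rw [this, Complex.arg_real_mul _ (by linarith), Complex.arg_neg_I, abs_of_neg hneg]
            ring
          · rw [Complex.arg_real_mul _ hgt, Complex.arg_I, abs_of_pos hgt]; ring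
        rw [← hval]
        exact harg.const_mul _
  have hlim2 := tendsto_val n a b τ
  have heq : (fun ρ : ℝ => 2 * Real.pi * τ * (a 0 / 2 + ∑ k ∈ Finset.Icc 1 n, a k * ρ^k))
      =ᶠ[𝓝[<] 1] (fun ρ : ℝ => ∫ θ in (0:ℝ)..(2 * Real.pi), trigPoly n a b θ *
        Complex.arg (Wf τ y (n-1) (circleMap 0 ρ θ))) := by
    filter_upwards [Ioo_ev] with ρ hρ
    exact ((data hn h h1 ρ hρ.1 hρ.2 a b).2).symm
  have := tendsto_nhds_unique (hlim2.congr' heq) hlim
  rw [intervalIntegral.integral_const_mul] at this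
  have h3 : Real.pi * (∫ θ in (0:ℝ)..(2 * Real.pi), |trigPoly n a b θ|)
      = Real.pi * (4 * τ * trigPoly n a b 0) := by linarith
  exact mul_left_cancel₀ hpi.ne' h3

end

end Pool.Agent.H390
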