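import Pool.Agent.H390.Compare

/-!
The limit of the constants.
-/

namespace Pool.Agent.H390

open Filter Topology Set

section

variable {R : ℝ} {ψ q : ℝ → ℝ} {T : ℕ → ℝ} {Ψ x : ℕ → ℕ → ℝ}

lemma T_tendsto (hT : ∀ n, 0 < n → Sys n (T n) (Ψ n) (x n) ∧ x n (n-1) = 1) :
    Tendsto T atTop (𝓝 0) := by
  have h1 : ∀ᶠ n : ℕ in atTop, 0 ≤ T n := by
    filter_upwards [eventually_gt_atTop 0] with n hn using (hT n hn).1.τ_pos.le
  have h2 : ∀ᶠ n : ℕ in atTop, T n ≤ Real.sqrt (1 / ((n:ℝ) - 1)) := by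
    filter_upwards [eventually_gt_atTop 1] with n hn
    obtain ⟨hs, hx⟩ := hT n (by omega)
    have h3 := hs.τ_sq_le (by omega) hx
    have h4 : (0:ℝ) < (n:ℝ) - 1 := by
      have : (1:ℝ) < n := by exact_mod_cast hn
      linarith
    apply Real.le_sqrt_of_sq_le
    rw [le_div_iff₀ h4]
    exact h3
  have h3 : Tendsto (fun n : ℕ => Real.sqrt (1 / ((n:ℝ) - 1))) atTop (𝓝 0) := by
    have h4 : Tendsto (fun n : ℕ => 1 / ((n:ℝ) - 1)) atTop (𝓝 0) := by
      have : Tendsto (fun n : ℕ => (n:ℝ) - 1) atTop atTop :=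
        tendsto_atTop_add_const_right _ _ tendsto_natCast_atTop_atTop
      exact this.const_div_atTop 1
    have := (Real.continuous_sqrt.tendsto 0).comp h4
    rwa [Real.sqrt_zero] at this
  exact tendsto_of_tendsto_of_tendsto_of_le_of_le' tendsto_const_nhds h3 h1 h2

lemma Ψ_zero_le {n : ℕ} {τ : ℝ} {Ψ x : ℕ → ℝ} (hs : Sys n τ Ψ x) (h1 : τ ≤ 1) : Ψ 0 ≤ 2 * τ := by
  have h0 := hs.τ_pos
  have hc := hs.cos_pos
  have h2 : Ψ 0 ≤ Real.sinh (Ψ 0) := Real.self_le_sinh_iff.mpr hs.Ψ_zero_pos.le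
  have h3 := hs.sinh0
  have h4 : Real.sin τ ≤ τ := Real.sin_le h0.le
  have h5 : 1/2 ≤ Real.cos τ := by
    have := Real.one_sub_sq_div_two_le_cos (x := τ)
    nlinarith
  have h6 : 0 < Real.sinh (Ψ 0) := Real.sinh_pos_iff.mpr hs.Ψ_zero_pos
  nlinarith

/-- lower half of the limit -/
lemma lower_half (h : Facts R ψ q)
    (hT : ∀ n, 0 < n → Sys n (T n) (Ψ n) (x n) ∧ x n (n-1) = 1) {c : ℝ} (hc : c < R) :
    ∀ᶠ n : ℕ in atTop, c < 2 * n * T n := by
  by_cases hc0 : c ≤ 0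
  · filter_upwards [eventually_gt_atTop 0] with n hn
    have h1 := (hT n hn).1.τ_pos
    have h2 : (0:ℝ) < n := by exact_mod_cast hn
    have : 0 < 2 * (n:ℝ) * T n := by positivity
    linarith
  · push Not at hc0
    set r₁ : ℝ := (c + R) / 2 with hr₁
    have hr1 : r₁ < R := by rw [hr₁]; linarith
    have hcr : c < r₁ := by rw [hr₁]; linarith
    -- `δ` with `c (1+δ) < r₁`
    set δ : ℝ := (r₁ - c) / (2 * c) with hδ
    have hδ0 : 0 < δ := by apply div_pos <;> linarith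
    have hcδ : c * (1 + δ) < r₁ := by
      have : c * δ = (r₁ - c) / 2 := by rw [hδ]; field_simp
      nlinarith
    set M : ℝ := q r₁ / r₁ with hM
    have hTt := T_tendsto hT
    have ht : Tendsto (fun n => 2 * (1 + δ) * T n) atTop (𝓝 0) := by
      simpa using hTt.const_mul (2 * (1 + δ))
    have e1 : ∀ᶠ n : ℕ in atTop, Real.exp ((2 * (1 + δ) * T n) * M)
        * (1 + (2 * (1 + δ) * T n) * M / 2) < 1 + δ := by
      have hcont : Continuous fun t : ℝ => Real.exp (t * M) * (1 + t * M / 2) := by fun_prop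
      have := (hcont.tendsto 0).comp ht
      simp only [zero_mul, Real.exp_zero, zero_div, add_zero, mul_one] at this
      exact this.eventually (gt_mem_nhds (by linarith))
    have e2 : ∀ᶠ n : ℕ in atTop, 2 * (1 + δ) * T n < R := ht.eventually (gt_mem_nhds h.R_pos)
    have e3 : ∀ᶠ n : ℕ in atTop, T n < 1 := hTt.eventually (gt_mem_nhds one_pos)
    have e4 : ∀ᶠ n : ℕ in atTop, 2 * (1 + δ) * T n < r₁ - c * (1 + δ) :=
      ht.eventually (gt_mem_nhds (by linarith))
    filter_upwards [e1, e2, e3, e4, eventually_gt_atTop 0] with n a1 a2 a3 a4 hn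
    obtain ⟨hs, hx⟩ := hT n hn
    have hτ := hs.τ_pos
    have htpos : 0 < 2 * (1 + δ) * T n := by positivity
    have hcond : 2 * T n * Real.exp ((2 * (1 + δ) * T n) * M) * (1 + (2 * (1 + δ) * T n) * M / 2)
        ≤ 2 * (1 + δ) * T n := by
      have := mul_le_mul_of_nonneg_left a1.le (show 0 ≤ 2 * T n by positivity)
      linarith
    have h0 : Ψ n 0 ≤ ψ (2 * (1 + δ) * T n) := by
      have b1 := Ψ_zero_le hs a3.le
      have b2 := h.ψ_ge htpos.le a2
      nlinarith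
    have := lower_bound h hs hn hx htpos hr1 le_rfl hcond h0
    have h5 : c * (1 + δ) < (2 * n * T n) * (1 + δ) := by nlinarith
    exact lt_of_mul_lt_mul_right h5 (by linarith)

/-- upper half of the limit -/
lemma upper_half (h : Facts R ψ q)
    (hT : ∀ n, 0 < n → Sys n (T n) (Ψ n) (x n) ∧ x n (n-1) = 1) {c : ℝ} (hc : R < c) :
    ∀ᶠ n : ℕ in atTop, 2 * n * T n < c := by
  have hR := h.R_pos
  -- `δ` with `R (1+δ) < c (1-δ)`
  set δ : ℝ := (c - R) / (2 * (c + R)) with hδ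
  have hcR : 0 < c + R := by linarith
  have hδ0 : 0 < δ := by apply div_pos <;> linarith
  have hδ1 : δ < 1 := by rw [hδ, div_lt_one (by linarith)]; linarith
  have hδc : R * (1 + δ) < c * (1 - δ) := by
    have : (c + R) * δ = (c - R) / 2 := by rw [hδ]; field_simp
    nlinarith
  set K : ℝ := max (2 / δ) (16 / (R * δ^2)) with hK
  obtain ⟨r₀, hr0K, hr0, hr0R⟩ : ∃ r₀, K ≤ ψ r₀ ∧ 0 < r₀ ∧ r₀ < R := by
    have e1 := h.blow.eventually (eventually_ge_atTop K)
    have e2 : ∀ᶠ r in 𝓝[<] R, 0 < r ∧ r < R := by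
      filter_upwards [Ioo_mem_nhdsLT hR] with r hr using hr
    exact (e1.and e2).exists
  set r₁ : ℝ := (r₀ + R) / 2 with hr₁
  have hr1 : r₁ < R := by rw [hr₁]; linarith
  have hr01 : r₀ < r₁ := by rw [hr₁]; linarith
  set M : ℝ := q r₁ / r₁ with hM
  have hTt := T_tendsto hT
  have ht : Tendsto (fun n => 2 * T n / (1 + δ)) atTop (𝓝 0) := by
    have := (hTt.const_mul 2).div_const (1 + δ)
    simpa using this
  have e1 : ∀ᶠ n : ℕ in atTop, Real.exp ((2 * T n / (1 + δ)) * M) < 1 + δ := by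
    have hcont : Continuous fun t : ℝ => Real.exp (t * M) := by fun_prop
    have := (hcont.tendsto 0).comp ht
    simp only [zero_mul, Real.exp_zero] at this
    exact this.eventually (gt_mem_nhds (by linarith))
  have e2 : ∀ᶠ n : ℕ in atTop, 2 * T n / (1 + δ) < r₁ - r₀ := ht.eventually (gt_mem_nhds (by linarith))
  have e3 : ∀ᶠ n : ℕ in atTop, R / 2 < 2 * n * T n := lower_half h hT (by linarith)
  have e4 : ∀ᶠ n : ℕ in atTop, 2 < δ * (n:ℝ) := by
    have : Tendsto (fun n : ℕ => δ * (n:ℝ)) atTop atTop :=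
      tendsto_natCast_atTop_atTop.const_mul_atTop hδ0
    exact this.eventually (eventually_gt_atTop 2)
  filter_upwards [e1, e2, e3, e4, eventually_gt_atTop 0] with n a1 a2 a3 a4 hn
  obtain ⟨hs, hx⟩ := hT n hn
  have hτ := hs.τ_pos
  set t : ℝ := 2 * T n / (1 + δ) with htdef
  have htpos : 0 < t := by positivity
  have htT : t * (1 + δ) = 2 * T n := by rw [htdef]; field_simp
  have hnpos : (0:ℝ) < n := by exact_mod_cast hn
  have hcond : t * Real.exp (t * M) ≤ 2 * T n := by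
    rw [← htT]; exact mul_le_mul_of_nonneg_left a1.le htpos.le
  -- the index
  set N : ℕ := ⌊r₁ / t⌋₊ with hN
  have hr1pos : 0 < r₁ := by linarith
  have hN1 : 1 ≤ N := by
    rw [hN]
    apply Nat.le_floor
    rw [Nat.cast_one, le_div_iff₀ htpos]
    linarith
  have hNle : t * N ≤ r₁ := by
    have := Nat.floor_le (show 0 ≤ r₁ / t by positivity)
    rw [← hN, le_div_iff₀ htpos] at this
    linarith
  have hNge : r₀ ≤ t * N := by
    have := Nat.lt_floor_add_one (r₁ / t)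
    rw [← hN, div_lt_iff₀ htpos] at this
    nlinarith
  obtain ⟨k₁, hk₁⟩ : ∃ k₁, N = k₁ + 1 := ⟨N-1, by omega⟩
  have hNcast : (N:ℝ) = (k₁:ℝ) + 1 := by rw [hk₁]; push_cast; ring
  -- final inequality helper
  have hfin : (1 - δ) * n ≤ N → 2 * (n:ℝ) * T n < c := by
    intro hle
    have b1 : 2 * (n:ℝ) * T n * (1 - δ) ≤ R * (1 + δ) := by
      calc 2 * (n:ℝ) * T n * (1 - δ) = (t * (1 + δ)) * ((1 - δ) * n) := by rw [htT]; ring
        _ ≤ (t * (1 + δ)) * N := mul_le_mul_of_nonneg_left hle (by positivity)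
        _ = (t * N) * (1 + δ) := by ring
        _ ≤ R * (1 + δ) := mul_le_mul_of_nonneg_right (by linarith) (by linarith)
    have b2 : 2 * (n:ℝ) * T n * (1 - δ) < c * (1 - δ) := lt_of_le_of_lt b1 hδc
    exact lt_of_mul_lt_mul_right b2 (by linarith)
  by_cases hNn : n ≤ N
  · apply hfin
    have : (n:ℝ) ≤ N := by exact_mod_cast hNn
    nlinarith
  · push Not at hNn
    set L : ℕ := ⌈δ * (n:ℝ)⌉₊ with hL
    have hL1 : δ * (n:ℝ) ≤ L := Nat.le_ceil _
    have hL2 : (L:ℝ) < δ * n + 1 := Nat.ceil_lt_add_one (by positivity)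
    have hLL : 2 ≤ L := by
      have : (2:ℝ) < L := by linarith
      exact_mod_cast this.le
    by_contra hcon
    have hcon2 : ¬ ((1 - δ) * n ≤ (N:ℝ)) := fun hh => hcon (hfin hh)
    push Not at hcon2
    have hkL : k₁ + L < n := by
      have : ((k₁ + L : ℕ):ℝ) < n := by push_cast; linarith
      exact_mod_cast this
    have hk1n : k₁ < n := by omega
    have hkt : t * ((k₁:ℝ) + 1) ≤ r₁ := by rw [← hNcast]; exact hNle
    have hkt0 : t * (k₁:ℝ) ≤ r₁ := by nlinarith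
    have hsub := sub h hs htpos hr1 le_rfl hcond k₁ hk1n hkt0
    have hstep := sub_step h hs htpos hr1 le_rfl hcond hk1n hkt hsub
    have hsub2 := sub h hs htpos hr1 le_rfl hcond (k₁+1) (by omega) (by push_cast; exact hkt)
      (k₁+1) le_rfl
    rw [← hNcast] at hstep
    have hψN : ψ r₀ ≤ ψ (t * N) := h.ψ_mono hr0.le hNge (by linarith)
    have hqN : ψ (t * N) ≤ q (t * N) := h.ψ_le_q (by linarith) (by linarith)
    have hK1 : 2 / δ ≤ K := le_max_left _ _
    have hK2 : 16 / (R * δ^2) ≤ K := le_max_right _ _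
    refine blowup hs hLL hkL ?_ ?_
    · have b1 : (n:ℝ) / L ≤ 1 / δ := by
        rw [div_le_div_iff₀ (by linarith) hδ0]
        linarith
      have b2 : 1 / δ ≤ q (t * N) / 2 := by
        have : 2 / δ ≤ q (t * N) := by linarith
        have e : 1 / δ = (2 / δ) / 2 := by ring
        rw [e]; linarith
      rw [← hNcast]
      linarith
    · have hψcast : ψ (t * N) ≤ Ψ n (k₁+1) := by
        rw [hk₁]; exact hsub2
      have b1 : 16 / (R * δ^2) ≤ Real.exp (Ψ n (k₁+1)) := by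
        have := Real.add_one_le_exp (Ψ n (k₁+1))
        linarith
      have b2 : δ * n ≤ L := hL1
      have b3 : δ * n / 2 ≤ (L:ℝ) - 1 := by linarith
      have b4 : (δ * n) * (δ * n / 2) ≤ (L:ℝ) * (L - 1) :=
        mul_le_mul b2 b3 (by positivity) (by linarith)
      have b5 : (16 / (R * δ^2)) * ((δ * n) * (δ * n / 2)) ≤ Real.exp (Ψ n (k₁+1)) * ((L:ℝ) * (L - 1)) :=
        mul_le_mul b1 b4 (by positivity) (Real.exp_pos _).le
      have b6 : (16 / (R * δ^2)) * ((δ * n) * (δ * n / 2)) = 8 * n^2 / R := by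
        field_simp; ring
      rw [b6] at b5
      have b7 : 2 * (n:ℝ) ≤ T n * (8 * n^2 / R) := by
        rw [mul_div_assoc', le_div_iff₀ hR]
        have b8 : R / 2 * (4 * (n:ℝ)) ≤ (2 * n * T n) * (4 * n) :=
          mul_le_mul_of_nonneg_right a3.le (by positivity)
        calc 2 * (n:ℝ) * R = R / 2 * (4 * (n:ℝ)) := by ring
          _ ≤ (2 * n * T n) * (4 * n) := b8
          _ = _ := by ring
      calc 2 * (n:ℝ) ≤ T n * (8 * n^2 / R) := b7
        _ ≤ T n * (Real.exp (Ψ n (k₁+1)) * ((L:ℝ) * (L - 1))) := mul_le_mul_of_nonneg_left b5 hτ.le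
        _ = _ := by ring

theorem tendsto_param (h : Facts R ψ q)
    (hT : ∀ n, 0 < n → Sys n (T n) (Ψ n) (x n) ∧ x n (n-1) = 1) :
    Tendsto (fun n : ℕ => 2 * n * T n) atTop (𝓝 R) := by
  rw [tendsto_order]
  exact ⟨fun c hc => lower_half h hT hc, fun c hc => upper_half h hT hc⟩

end

/-- The constants converge to `π / R`. -/
theorem tendsto_nikC {R : ℝ} {ψ q : ℝ → ℝ} (h : Facts R ψ q) :
    Tendsto nikC atTop (𝓝 (Real.pi / R)) := by
  choose T hT using fun n : {n : ℕ // 0 < n} => exists_sys n.2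
  set T' : ℕ → ℝ := fun n => if hn : 0 < n then T ⟨n, hn⟩ else 0 with hT'
  have hTT : ∀ n (hn : 0 < n), T' n = T ⟨n, hn⟩ := fun n hn => by simp [hT', hn]
  have hsys : ∀ n, 0 < n → Sys n (T' n) (psi (T' n)) (xx (T' n)) ∧ xx (T' n) (n-1) = 1 := by
    intro n hn
    rw [hTT n hn]
    exact hT ⟨n, hn⟩
  have hlim := tendsto_param (Ψ := fun n => psi (T' n)) (x := fun n => xx (T' n)) h hsys
  have h2 : Tendsto (fun n : ℕ => Real.pi / (2 * n * T' n)) atTop (𝓝 (Real.pi / R)) :=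
    tendsto_const_nhds.div hlim h.R_pos.ne'
  refine h2.congr' ?_
  filter_upwards [eventually_gt_atTop 0] with n hn
  exact (nikC_eq hn (hsys n hn).1 (hsys n hn).2).symm

end Pool.Agent.H390
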