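import Pool.Agent.H390.OdeBlow
import Pool.Agent.H390.Limit

/-!
The final form: the differential equation stated with derivatives only.
-/

namespace Pool.Agent.H390

open Filter Topology Set

/-- `ψ` solves `(r ψ')' = cosh ψ` on `(0, R)`, is continuous on `[0, R)` with `ψ 0 = 0`, and tends to
`+∞` at `R`. -/
def IsBlowup (R : ℝ) (ψ : ℝ → ℝ) : Prop :=
  0 < R ∧ ContinuousOn ψ (Ico 0 R) ∧ ψ 0 = 0 ∧
  (∀ r ∈ Ioo 0 R, DifferentiableAt ℝ ψ r ∧
    HasDerivAt (fun s => s * deriv ψ s) (Real.cosh (ψ r)) r) ∧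
  Tendsto ψ (𝓝[<] R) atTop

lemma IsBlowup.facts {R : ℝ} {ψ : ℝ → ℝ} (h : IsBlowup R ψ) :
    Facts R ψ (fun s => s * deriv ψ s) := by
  obtain ⟨hR, hc, h0, hd, hb⟩ := h
  set q : ℝ → ℝ := fun s => s * deriv ψ s with hq
  have hqd : ∀ r ∈ Ioo 0 R, HasDerivAt q (Real.cosh (ψ r)) r := fun r hr => (hd r hr).2
  have hψd : ∀ r ∈ Ioo 0 R, HasDerivAt ψ (q r / r) r := by
    intro r hr
    refine (hd r hr).1.hasDerivAt.congr_deriv ?_
    rw [hq]
    have := hr.1.ne'
    simp only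
    field_simp
  have hqmono : ∀ s r, 0 < s → s ≤ r → r < R → q s ≤ q r := by
    intro s r hs hsr hr
    have : MonotoneOn q (Icc s r) := by
      apply monotoneOn_of_deriv_nonneg (convex_Icc _ _)
      · intro x hx
        exact (hqd x ⟨by linarith [hx.1], by linarith [hx.2]⟩).continuousAt.continuousWithinAt
      · intro x hx
        rw [interior_Icc] at hx
        exact (hqd x ⟨by linarith [hx.1], by linarith [hx.2]⟩).differentiableAt.differentiableWithinAt
      · intro x hx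
        rw [interior_Icc] at hx
        rw [(hqd x ⟨by linarith [hx.1], by linarith [hx.2]⟩).deriv]
        exact (Real.cosh_pos _).le
    exact this ⟨le_rfl, hsr⟩ ⟨hsr, le_rfl⟩ hsr
  -- small values of `q` near the origin
  have hsmall : ∀ ε > 0, ∀ δ > 0, ∃ ξ, 0 < ξ ∧ ξ < δ ∧ ξ < R ∧ |q ξ| < ε := by
    intro ε hε δ hδ
    have hcw : Tendsto ψ (𝓝[Ico 0 R] 0) (𝓝 0) := by
      have := hc 0 ⟨le_rfl, hR⟩
      unfold ContinuousWithinAt at this
      rwa [h0] at this
    have hev : ∀ᶠ x in 𝓝[Ico 0 R] (0:ℝ), |ψ x| < ε / 4 := by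
      have := hcw.abs
      rw [abs_zero] at this
      exact this.eventually (gt_mem_nhds (by linarith))
    have hev2 : ∀ᶠ x in 𝓝[>] (0:ℝ), |ψ x| < ε / 4 := by
      have h1 : 𝓝[>] (0:ℝ) ≤ 𝓝[Ico 0 R] 0 := by
        rw [← nhdsWithin_Ioo_eq_nhdsGT hR]
        exact nhdsWithin_mono _ Ioo_subset_Ico_self
      exact h1 hev
    rw [eventually_nhdsWithin_iff, Metric.eventually_nhds_iff] at hev2
    obtain ⟨η, hη, hηp⟩ := hev2
    -- the points `b` and `a = b/4`
    set b : ℝ := min (η / 2) (min (δ / 2) (R / 2)) with hb'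
    have hb0 : 0 < b := lt_min (by linarith) (lt_min (by linarith) (by linarith))
    have hbη : b < η := lt_of_le_of_lt (min_le_left _ _) (by linarith)
    have hbδ : b < δ := lt_of_le_of_lt ((min_le_right _ _).trans (min_le_left _ _)) (by linarith)
    have hbR : b < R := lt_of_le_of_lt ((min_le_right _ _).trans (min_le_right _ _)) (by linarith)
    have hval : ∀ x, 0 < x → x ≤ b → |ψ x| < ε / 4 := by
      intro x hx0 hx
      apply hηp
      · rw [Real.dist_eq, sub_zero, abs_of_pos hx0]; linarith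
      · exact hx0
    set a : ℝ := b / 4 with ha
    have ha0 : 0 < a := by positivity
    have hab : a < b := by rw [ha]; linarith
    obtain ⟨ξ, hξ, he⟩ := exists_ratio_hasDerivAt_eq_ratio_slope ψ (fun t => q t / t) hab
      (fun x hx => (hψd x ⟨by linarith [hx.1], by linarith [hx.2]⟩).continuousAt.continuousWithinAt)
      (fun x hx => hψd x ⟨by linarith [hx.1], by linarith [hx.2]⟩)
      Real.log (fun t => t⁻¹)
      (fun x hx => (Real.continuousAt_log (by linarith [hx.1])).continuousWithinAt)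
      (fun x hx => Real.hasDerivAt_log (by linarith [hx.1]))
    have hξ0 : 0 < ξ := by linarith [hξ.1]
    have hlog : 1 ≤ Real.log b - Real.log a := by
      rw [← Real.log_div hb0.ne' ha0.ne']
      have : b / a = 4 := by rw [ha]; field_simp
      rw [this, Real.le_log_iff_exp_le (by norm_num)]
      have := Real.exp_one_lt_d9
      linarith
    have he2 : (Real.log b - Real.log a) * q ξ = ψ b - ψ a := by
      have e3 : (Real.log b - Real.log a) * (q ξ / ξ) = (ψ b - ψ a) * ξ⁻¹ := he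
      have e4 : ((Real.log b - Real.log a) * q ξ - (ψ b - ψ a)) * ξ⁻¹ = 0 := by
        have : (Real.log b - Real.log a) * q ξ * ξ⁻¹ = (Real.log b - Real.log a) * (q ξ / ξ) := by
          rw [div_eq_mul_inv]; ring
        rw [sub_mul, this, e3]; ring
      have := (mul_eq_zero.mp e4).resolve_right (inv_ne_zero hξ0.ne')
      linarith
    refine ⟨ξ, hξ0, by linarith [hξ.2], by linarith [hξ.2], ?_⟩
    have e5 : |(Real.log b - Real.log a)| * |q ξ| = |ψ b - ψ a| := by rw [← abs_mul, he2]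
    rw [abs_of_pos (by linarith)] at e5
    have e6 : |ψ b - ψ a| ≤ |ψ b| + |ψ a| := abs_sub _ _
    have e7 := hval b hb0 le_rfl
    have e8 := hval a ha0 hab.le
    nlinarith [abs_nonneg (q ξ)]
  have hq0 : q 0 = 0 := by rw [hq]; simp
  have hqc0 : ContinuousWithinAt q (Ico 0 R) 0 := by
    rw [Metric.continuousWithinAt_iff]
    intro ε hε
    obtain ⟨ξ, hξ0, _, hξR, hξ⟩ := hsmall ε hε 1 one_pos
    refine ⟨ξ, hξ0, ?_⟩
    intro x hx hxd
    rw [Real.dist_eq, sub_zero] at hxd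
    rw [hq0, Real.dist_eq, sub_zero]
    rcases hx.1.lt_or_eq with hx0 | hx0
    · rw [abs_of_pos hx0] at hxd
      obtain ⟨ξ', hξ'0, hξ'x, _, hξ'⟩ := hsmall ε hε x hx0
      have a1 := hqmono x ξ hx0 hxd.le hξR
      have a2 := hqmono ξ' x hξ'0 hξ'x.le hx.2
      rw [abs_lt] at hξ hξ' ⊢
      constructor <;> linarith [hξ.1, hξ.2, hξ'.1, hξ'.2]
    · rw [← hx0, hq0, abs_zero]; exact hε
  refine ⟨hR, h0, hq0, hc, ?_, hψd, hqd, hb⟩
  intro x hx
  rcases hx.1.lt_or_eq with hx0 | hx0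
  · exact (hqd x ⟨hx0, hx.2⟩).continuousAt.continuousWithinAt
  · rw [← hx0]; exact hqc0

lemma isBlowup_lim : IsBlowup Rb lim := by
  have h := facts_lim
  refine ⟨h.R_pos, h.cψ, h.ψ0, ?_, h.blow⟩
  intro r hr
  refine ⟨(h.dψ r hr).differentiableAt, ?_⟩
  refine (h.dq r hr).congr_of_eventuallyEq ?_
  filter_upwards [Ioo_mem_nhds hr.1 hr.2] with s hs
  rw [(h.dψ s hs).deriv]
  have := hs.1.ne'
  field_simp

theorem exact_constant :
    (∃ (R : ℝ) (ψ : ℝ → ℝ), IsBlowup R ψ) ∧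
    ∀ (R : ℝ) (ψ : ℝ → ℝ), IsBlowup R ψ → limsup nikC atTop = Real.pi / R :=
  ⟨⟨Rb, lim, isBlowup_lim⟩, fun _ _ h => (tendsto_nikC h.facts).limsup_eq⟩

end Pool.Agent.H390
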