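import Mathlib

/-!
Fourier coefficients, on circles around the origin, of the imaginary part of an analytic function
whose Taylor polynomial is `iτ (1 + 2 z + ... + 2 z^n)`.
-/

namespace Pool.Agent.H390

open Complex Metric Set Filter Topology intervalIntegral
open MeasureTheory (volume)

/-- A real trigonometric polynomial of degree at most `n` with the coefficients `a`, `b`. -/
noncomputable def trigPoly (n : ℕ) (a b : ℕ → ℝ) (θ : ℝ) : ℝ :=
  a 0 / 2 + ∑ k ∈ Finset.Icc 1 n, (a k * Real.cos (k * θ) + b k * Real.sin (k * θ))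

lemma continuous_trigPoly (n : ℕ) (a b : ℕ → ℝ) : Continuous (trigPoly n a b) := by
  unfold trigPoly
  fun_prop

lemma circle_mem {ρ : ℝ} (h0 : 0 < ρ) (h1 : ρ < 1) (θ : ℝ) : circleMap 0 ρ θ ∈ ball (0:ℂ) 1 := by
  rw [mem_ball_zero_iff, norm_circleMap_zero, abs_of_pos h0]; exact h1

/-- mean value zero -/
lemma M2 {h : ℂ → ℂ} (hh : DifferentiableOn ℂ h (ball 0 1)) {ρ : ℝ} (h0 : 0 < ρ) (h1 : ρ < 1)
    {m : ℕ} (hm : 1 ≤ m) :
    ∫ θ in (0:ℝ)..(2 * Real.pi), circleMap 0 ρ θ ^ m * h (circleMap 0 ρ θ) = 0 := by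
  have hd : DiffContOnCl ℂ (fun z => z^m * h z) (ball 0 |ρ|) := by
    have : DifferentiableOn ℂ (fun z => z^m * h z) (closedBall 0 |ρ|) := by
      apply DifferentiableOn.mul (by fun_prop)
      exact hh.mono (closedBall_subset_ball (by rw [abs_of_pos h0]; exact h1))
    exact this.diffContOnCl_ball subset_rfl
  have := hd.circleAverage
  rw [Real.circleAverage_def] at this
  simp only [zero_pow (by omega : m ≠ 0), zero_mul] at this
  rw [smul_eq_zero] at this
  rcases this with h | h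
  · exact absurd h (by positivity)
  · exact h

/-- mean value -/
lemma M0 {h : ℂ → ℂ} (hh : DifferentiableOn ℂ h (ball 0 1)) {ρ : ℝ} (h0 : 0 < ρ) (h1 : ρ < 1) :
    ∫ θ in (0:ℝ)..(2 * Real.pi), h (circleMap 0 ρ θ) = 2 * Real.pi * h 0 := by
  have hd : DiffContOnCl ℂ h (ball 0 |ρ|) := by
    have : DifferentiableOn ℂ h (closedBall 0 |ρ|) :=
      hh.mono (closedBall_subset_ball (by rw [abs_of_pos h0]; exact h1))
    exact this.diffContOnCl_ball subset_rfl
  have := hd.circleAverage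
  rw [Real.circleAverage_def] at this
  rw [← this, Complex.real_smul]
  push_cast
  have : (Real.pi:ℂ) ≠ 0 := by exact_mod_cast Real.pi_ne_zero
  field_simp

/-- integrals of exponentials -/
lemma M1 (m : ℤ) : ∫ θ in (0:ℝ)..(2 * Real.pi), Complex.exp (m * θ * I)
    = if m = 0 then (2 * Real.pi : ℂ) else 0 := by
  split_ifs with h
  · subst h; simp
  · have hc : (m:ℂ) * I ≠ 0 := by
      simp [h]
    have := integral_exp_mul_complex (a := 0) (b := 2 * Real.pi) hc
    have e : (fun θ : ℝ => Complex.exp (m * θ * I)) = fun θ : ℝ => Complex.exp (m * I * θ) := by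
      funext θ; congr 1; ring
    rw [e, this]
    have e2 : Complex.exp (m * I * ((2 * Real.pi : ℝ):ℂ)) = 1 := by
      rw [Complex.exp_eq_one_iff]
      exact ⟨m, by push_cast; ring⟩
    rw [e2]; simp

lemma circleMap_pow (ρ θ : ℝ) (m : ℕ) :
    circleMap 0 ρ θ ^ m = (ρ:ℂ)^m * Complex.exp ((m:ℤ) * θ * I) := by
  simp only [circleMap, zero_add, mul_pow, ← Complex.exp_nat_mul]
  congr 2
  push_cast
  ring

section

variable {L h : ℂ → ℂ} {τ : ℝ} {n : ℕ}

/-- negative frequencies -/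
lemma Kneg (hh : DifferentiableOn ℂ h (ball 0 1))
    (hL : ∀ z ∈ ball (0:ℂ) 1, L z = I * τ * (1 + 2 * ∑ j ∈ Finset.Icc 1 n, z^j) + z^(n+1) * h z)
    {ρ : ℝ} (h0 : 0 < ρ) (h1 : ρ < 1) {k : ℕ} (hk1 : 1 ≤ k) (hkn : k ≤ n) :
    ∫ θ in (0:ℝ)..(2 * Real.pi), L (circleMap 0 ρ θ) * Complex.exp ((-k:ℤ) * θ * I)
      = 4 * Real.pi * I * τ * ρ^k := by
  have hcont : Continuous fun θ : ℝ => h (circleMap 0 ρ θ) :=
    hh.continuousOn.comp_continuous (continuous_circleMap 0 ρ) (circle_mem h0 h1)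
  have hcm : Continuous (circleMap 0 ρ) := continuous_circleMap 0 ρ
  have e : ∀ θ : ℝ, L (circleMap 0 ρ θ) * Complex.exp ((-k:ℤ) * θ * I)
      = I * τ * Complex.exp ((-k:ℤ) * θ * I)
        + 2 * I * τ * ∑ j ∈ Finset.Icc 1 n, (ρ:ℂ)^j * Complex.exp (((j - k : ℤ):ℂ) * θ * I)
        + (ρ:ℂ)^k * (circleMap 0 ρ θ ^ (n+1-k) * h (circleMap 0 ρ θ)) := by
    intro θ
    rw [hL _ (circle_mem h0 h1 θ)]
    have e1 : ∀ j : ℕ, circleMap 0 ρ θ ^ j * Complex.exp ((-k:ℤ) * θ * I)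
        = (ρ:ℂ)^j * Complex.exp (((j - k : ℤ):ℂ) * θ * I) := by
      intro j
      rw [circleMap_pow, mul_assoc, ← Complex.exp_add]
      congr 2
      push_cast; ring
    have e2 : circleMap 0 ρ θ ^ (n+1) * Complex.exp ((-k:ℤ) * θ * I)
        = (ρ:ℂ)^k * circleMap 0 ρ θ ^ (n+1-k) := by
      rw [e1, circleMap_pow, ← mul_assoc, ← pow_add, show k + (n+1-k) = n+1 by omega]
      congr 3
      push_cast [show k ≤ n+1 by omega]; ring
    have e3 : (∑ j ∈ Finset.Icc 1 n, circleMap 0 ρ θ ^ j) * Complex.exp ((-k:ℤ) * θ * I)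
        = ∑ j ∈ Finset.Icc 1 n, (ρ:ℂ)^j * Complex.exp (((j - k : ℤ):ℂ) * θ * I) := by
      rw [Finset.sum_mul]; exact Finset.sum_congr rfl fun j _ => e1 j
    linear_combination 2 * I * τ * e3 + h (circleMap 0 ρ θ) * e2
  simp_rw [e]
  have i1 : IntervalIntegrable (fun θ : ℝ => I * τ * Complex.exp ((-k:ℤ) * θ * I)) volume
      0 (2 * Real.pi) := by
    apply Continuous.intervalIntegrable; fun_prop
  have i2 : IntervalIntegrable (fun θ : ℝ => 2 * I * τ * ∑ j ∈ Finset.Icc 1 n,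
      (ρ:ℂ)^j * Complex.exp (((j - k : ℤ):ℂ) * θ * I)) volume 0 (2 * Real.pi) := by
    apply Continuous.intervalIntegrable; fun_prop
  have i3 : IntervalIntegrable (fun θ : ℝ => (ρ:ℂ)^k * (circleMap 0 ρ θ ^ (n+1-k)
      * h (circleMap 0 ρ θ))) volume 0 (2 * Real.pi) := by
    exact (continuous_const.mul ((hcm.pow _).mul hcont)).intervalIntegrable _ _
  rw [integral_add (i1.add i2) i3, integral_add i1 i2]
  rw [integral_const_mul, integral_const_mul, integral_const_mul, M1, M2 hh h0 h1 (by omega)]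
  rw [integral_finsetSum (fun j _ => by apply Continuous.intervalIntegrable; fun_prop)]
  have e4 : ∀ j ∈ Finset.Icc 1 n, ∫ θ in (0:ℝ)..(2 * Real.pi),
      (ρ:ℂ)^j * Complex.exp (((j - k : ℤ):ℂ) * θ * I)
      = if j = k then (ρ:ℂ)^k * (2 * Real.pi) else 0 := by
    intro j _
    rw [integral_const_mul, M1]
    by_cases hjk : j = k
    · subst hjk; simp
    · have : (j:ℤ) - k ≠ 0 := by omega
      simp [this, hjk]
  rw [Finset.sum_congr rfl e4, Finset.sum_ite_eq']
  have : (-(k:ℤ)) ≠ 0 := by omega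
  simp only [this, if_false, Finset.mem_Icc, hk1, hkn, and_self, if_true]
  ring

end

/-- The pairing of a trigonometric polynomial with the imaginary part of a function with given
Fourier coefficients. -/
lemma pairing' {Lc : ℝ → ℂ} (hLc : Continuous Lc) {τ ρ : ℝ} {n : ℕ}
    (c0' : ∫ θ in (0:ℝ)..(2 * Real.pi), Lc θ = 2 * Real.pi * (I * τ))
    (cp : ∀ k : ℕ, 1 ≤ k → ∫ θ in (0:ℝ)..(2 * Real.pi), Lc θ * Complex.exp ((k:ℤ) * θ * I) = 0)
    (cn : ∀ k : ℕ, 1 ≤ k → k ≤ n → ∫ θ in (0:ℝ)..(2 * Real.pi),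
      Lc θ * Complex.exp ((-k:ℤ) * θ * I) = 4 * Real.pi * I * τ * ρ^k)
    (a b : ℕ → ℝ) :
    ∫ θ in (0:ℝ)..(2 * Real.pi), trigPoly n a b θ * (Lc θ).im
      = 2 * Real.pi * τ * (a 0 / 2 + ∑ k ∈ Finset.Icc 1 n, a k * ρ^k) := by
  -- complex integral of `trigPoly * L`
  have hI : ∀ g : ℝ → ℝ, Continuous g → ∫ θ in (0:ℝ)..(2 * Real.pi), g θ * (Lc θ).im
      = (∫ θ in (0:ℝ)..(2 * Real.pi), (g θ : ℂ) * Lc θ).im := by
    intro g hg
    have := Complex.imCLM.intervalIntegral_comp_comm (μ := volume) (a := 0) (b := 2 * Real.pi)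
      (f := fun θ : ℝ => (g θ : ℂ) * Lc θ)
      (by apply Continuous.intervalIntegrable; fun_prop)
    rw [← Complex.imCLM_apply, ← this]
    simp
  have c0 : ∫ θ in (0:ℝ)..(2 * Real.pi), (Lc θ).im = 2 * Real.pi * τ := by
    have := hI (fun _ => 1) continuous_const
    simp only [one_mul, Complex.ofReal_one] at this
    rw [this, c0']
    simp [Complex.mul_im]
  have ck : ∀ k : ℕ, 1 ≤ k → k ≤ n →
      ∫ θ in (0:ℝ)..(2 * Real.pi), Real.cos (k * θ) * (Lc θ).im = 2 * Real.pi * τ * ρ^k := by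
    intro k hk1 hkn
    rw [hI (fun θ => Real.cos (k * θ)) (by fun_prop)]
    have e : ∀ θ : ℝ, ((Real.cos (k * θ) : ℝ) : ℂ) * Lc θ
      = (1/2) * (Lc θ * Complex.exp ((k:ℤ) * θ * I))
        + (1/2) * (Lc θ * Complex.exp ((-k:ℤ) * θ * I)) := by
      intro θ
      rw [Complex.ofReal_cos, Complex.cos]
      push_cast
      ring_nf
    simp_rw [e]
    rw [integral_add (by apply Continuous.intervalIntegrable; fun_prop)
      (by apply Continuous.intervalIntegrable; fun_prop), integral_const_mul, integral_const_mul,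
      cp k hk1, cn k hk1 hkn]
    have : (1/2:ℂ) * 0 + (1/2) * (4 * Real.pi * I * τ * ρ^k)
        = ((2 * Real.pi * τ * ρ^k : ℝ) : ℂ) * I := by push_cast; ring
    rw [this, Complex.im_ofReal_mul, Complex.I_im, mul_one]
  have sk : ∀ k : ℕ, 1 ≤ k → k ≤ n →
      ∫ θ in (0:ℝ)..(2 * Real.pi), Real.sin (k * θ) * (Lc θ).im = 0 := by
    intro k hk1 hkn
    rw [hI (fun θ => Real.sin (k * θ)) (by fun_prop)]
    have e : ∀ θ : ℝ, ((Real.sin (k * θ) : ℝ) : ℂ) * Lc θ
      = (-I/2) * (Lc θ * Complex.exp ((k:ℤ) * θ * I))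
        + (I/2) * (Lc θ * Complex.exp ((-k:ℤ) * θ * I)) := by
      intro θ
      rw [Complex.ofReal_sin, Complex.sin]
      push_cast
      ring_nf
    simp_rw [e]
    rw [integral_add (by apply Continuous.intervalIntegrable; fun_prop)
      (by apply Continuous.intervalIntegrable; fun_prop), integral_const_mul, integral_const_mul,
      cp k hk1, cn k hk1 hkn]
    have : (-I/2:ℂ) * 0 + (I/2) * (4 * Real.pi * I * τ * ρ^k)
        = ((-2 * Real.pi * τ * ρ^k : ℝ) : ℂ) := by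
      push_cast
      linear_combination (2 * Real.pi * τ * ρ^k) * Complex.I_sq
    rw [this, Complex.ofReal_im]
  have hdist : ∀ θ : ℝ, trigPoly n a b θ * (Lc θ).im
      = (a 0 / 2) * (Lc θ).im
        + ∑ k ∈ Finset.Icc 1 n, (a k * (Real.cos (k * θ) * (Lc θ).im)
          + b k * (Real.sin (k * θ) * (Lc θ).im)) := by
    intro θ
    rw [trigPoly, add_mul, Finset.sum_mul]
    congr 1
    exact Finset.sum_congr rfl fun k _ => by ring
  simp_rw [hdist]
  rw [integral_add (by apply Continuous.intervalIntegrable; fun_prop)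
    (by apply Continuous.intervalIntegrable; fun_prop), integral_const_mul, c0,
    integral_finsetSum (fun j _ => by apply Continuous.intervalIntegrable; fun_prop)]
  have e5 : ∀ k ∈ Finset.Icc 1 n, ∫ θ in (0:ℝ)..(2 * Real.pi),
      (a k * (Real.cos (k * θ) * (Lc θ).im)
          + b k * (Real.sin (k * θ) * (Lc θ).im))
      = 2 * Real.pi * τ * (a k * ρ^k) := by
    intro k hk
    rw [Finset.mem_Icc] at hk
    rw [integral_add (by apply Continuous.intervalIntegrable; fun_prop)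
      (by apply Continuous.intervalIntegrable; fun_prop), integral_const_mul, integral_const_mul,
      ck k hk.1 hk.2, sk k hk.1 hk.2]
    ring
  rw [Finset.sum_congr rfl e5, ← Finset.mul_sum]
  ring

/-- The pairing of a trigonometric polynomial with the imaginary part of `L`. -/
lemma pairing {L h : ℂ → ℂ} {τ : ℝ} {n : ℕ}
    (hLd : DifferentiableOn ℂ L (ball 0 1)) (hh : DifferentiableOn ℂ h (ball 0 1))
    (hL : ∀ z ∈ ball (0:ℂ) 1, L z = I * τ * (1 + 2 * ∑ j ∈ Finset.Icc 1 n, z^j) + z^(n+1) * h z)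
    {ρ : ℝ} (h0 : 0 < ρ) (h1 : ρ < 1) (a b : ℕ → ℝ) :
    ∫ θ in (0:ℝ)..(2 * Real.pi), trigPoly n a b θ * (L (circleMap 0 ρ θ)).im
      = 2 * Real.pi * τ * (a 0 / 2 + ∑ k ∈ Finset.Icc 1 n, a k * ρ^k) := by
  have hLc : Continuous fun θ : ℝ => L (circleMap 0 ρ θ) :=
    hLd.continuousOn.comp_continuous (continuous_circleMap 0 ρ) (circle_mem h0 h1)
  have hL0 : L 0 = I * τ := by
    rw [hL 0 (mem_ball_self one_pos)]
    have : ∑ j ∈ Finset.Icc 1 n, (0:ℂ)^j = 0 := by
      apply Finset.sum_eq_zero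
      intro j hj
      rw [Finset.mem_Icc] at hj
      exact zero_pow (by omega)
    rw [this]; simp
  refine pairing' hLc (by rw [M0 hLd h0 h1, hL0]) ?_ (fun k h2 h3 => Kneg hh hL h0 h1 h2 h3) a b
  intro k hk
  have hρ : (ρ:ℂ) ≠ 0 := by exact_mod_cast h0.ne'
  have := M2 hLd h0 h1 hk
  have e : ∀ θ : ℝ, circleMap 0 ρ θ ^ k * L (circleMap 0 ρ θ)
      = (ρ:ℂ)^k * (L (circleMap 0 ρ θ) * Complex.exp ((k:ℤ) * θ * I)) := by
    intro θ; rw [circleMap_pow]; ring
  simp_rw [e] at this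
  rw [integral_const_mul] at this
  exact (mul_eq_zero.mp this).resolve_left (pow_ne_zero _ hρ)

end Pool.Agent.H390
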