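import Pool.Agent.H390.Poly
import Pool.Agent.H390.Fourier

/-!
The argument of `A / B` inside the unit disc.
-/

namespace Pool.Agent.H390

open Complex Metric Set Filter Topology

/-- the numerator -/
noncomputable def Af (τ : ℝ) (P Q : ℂ → ℂ) (z : ℂ) : ℂ :=
  Complex.exp (I * τ / 2) * Q z + I * Complex.exp (-(I * τ / 2)) * P z

/-- the denominator -/
noncomputable def Bf (τ : ℝ) (P Q : ℂ → ℂ) (z : ℂ) : ℂ :=
  Complex.exp (-(I * τ / 2)) * Q z - I * Complex.exp (I * τ / 2) * P z

lemma conj_exp (τ : ℝ) : (starRingEnd ℂ) (Complex.exp (I * τ / 2)) = Complex.exp (-(I * τ / 2)) := by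
  rw [← Complex.exp_conj]; congr 1
  simp [map_ofNat]; ring

lemma conj_exp' (τ : ℝ) : (starRingEnd ℂ) (Complex.exp (-(I * τ / 2))) = Complex.exp (I * τ / 2) := by
  rw [← Complex.exp_conj]; congr 1
  simp [map_ofNat]; ring

lemma exp_mul_exp (τ : ℝ) : Complex.exp (I * τ / 2) * Complex.exp (I * τ / 2)
    = Real.cos τ + Real.sin τ * I := by
  rw [← Complex.exp_add, Complex.ofReal_cos, Complex.ofReal_sin, ← Complex.exp_mul_I]
  congr 1; ring

lemma exp_mul_exp' (τ : ℝ) : Complex.exp (-(I * τ / 2)) * Complex.exp (-(I * τ / 2))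
    = Real.cos τ - Real.sin τ * I := by
  have : (Real.cos τ - Real.sin τ * I : ℂ) = Complex.exp (-(τ:ℂ) * I) := by
    rw [Complex.exp_mul_I, Complex.cos_neg, Complex.sin_neg, Complex.ofReal_cos,
      Complex.ofReal_sin]; ring
  rw [← Complex.exp_add, this]
  congr 1; ring

lemma exp_mul_exp_neg (τ : ℝ) : Complex.exp (I * τ / 2) * Complex.exp (-(I * τ / 2)) = 1 := by
  rw [← Complex.exp_add]; simp

/-- the product of the numerator with the conjugate of the denominator -/
lemma A_conj_B (τ : ℝ) (P Q : ℂ → ℂ) (z : ℂ) :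
    Af τ P Q z * (starRingEnd ℂ) (Bf τ P Q z)
      = (Real.cos τ * (‖Q z‖^2 - ‖P z‖^2) : ℝ)
        + (Real.sin τ * (‖Q z‖^2 + ‖P z‖^2) + 2 * (P z * (starRingEnd ℂ) (Q z)).re : ℝ) * I := by
  have e1 : ((‖Q z‖^2 : ℝ) : ℂ) = Q z * (starRingEnd ℂ) (Q z) := by
    rw [Complex.mul_conj, Complex.normSq_eq_norm_sq]
  have e2 : ((‖P z‖^2 : ℝ) : ℂ) = P z * (starRingEnd ℂ) (P z) := by
    rw [Complex.mul_conj, Complex.normSq_eq_norm_sq]
  have e3 : ((2 * (P z * (starRingEnd ℂ) (Q z)).re : ℝ) : ℂ)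
      = P z * (starRingEnd ℂ) (Q z) + (starRingEnd ℂ) (P z) * Q z := by
    have := Complex.add_conj (P z * (starRingEnd ℂ) (Q z))
    rw [← this]; simp
  rw [Complex.ofReal_add, e3, Complex.ofReal_mul, Complex.ofReal_mul, Complex.ofReal_sub,
    Complex.ofReal_add, e1, e2]
  rw [Af, Bf, map_sub, map_mul, map_mul, map_mul, conj_exp, conj_exp', Complex.conj_I]
  have h1 := exp_mul_exp τ
  have h2 := exp_mul_exp' τ
  have h3 := exp_mul_exp_neg τ
  linear_combination (Q z * (starRingEnd ℂ) (Q z)) * h1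
    + Complex.I^2 * (P z * (starRingEnd ℂ) (P z)) * h2
    + Complex.I * (Q z * (starRingEnd ℂ) (P z) + P z * (starRingEnd ℂ) (Q z)) * h3
    + ((Real.cos τ : ℂ) - (Real.sin τ : ℂ) * Complex.I) * (P z * (starRingEnd ℂ) (P z)) * Complex.I_sq

section

variable {P Q : ℂ → ℂ} {τ : ℝ}

lemma re_pos (hc : 0 < Real.cos τ) {z : ℂ} (hPQ : ‖P z‖ < ‖Q z‖) :
    0 < (Af τ P Q z * (starRingEnd ℂ) (Bf τ P Q z)).re := by
  rw [A_conj_B]
  simp only [Complex.add_re, Complex.ofReal_re, Complex.mul_re, Complex.I_re, mul_zero,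
    Complex.ofReal_im, Complex.I_im, mul_one, sub_zero, add_zero]
  apply mul_pos hc
  have := norm_nonneg (P z)
  nlinarith

lemma B_ne (hc : 0 < Real.cos τ) {z : ℂ} (hPQ : ‖P z‖ < ‖Q z‖) : Bf τ P Q z ≠ 0 := by
  intro h
  have := re_pos hc hPQ
  rw [h] at this
  simp at this

lemma A_ne (hc : 0 < Real.cos τ) {z : ℂ} (hPQ : ‖P z‖ < ‖Q z‖) : Af τ P Q z ≠ 0 := by
  intro h
  have := re_pos hc hPQ
  rw [h] at this
  simp at this

lemma div_eq (hc : 0 < Real.cos τ) {z : ℂ} (hPQ : ‖P z‖ < ‖Q z‖) :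
    Af τ P Q z / Bf τ P Q z
      = ((Complex.normSq (Bf τ P Q z))⁻¹ : ℝ) * (Af τ P Q z * (starRingEnd ℂ) (Bf τ P Q z)) := by
  have h := B_ne hc hPQ
  have h2 : (Complex.normSq (Bf τ P Q z) : ℂ) ≠ 0 := by
    exact_mod_cast (Complex.normSq_pos.mpr h).ne'
  rw [Complex.ofReal_inv, div_eq_iff h]
  field_simp
  rw [← Complex.mul_conj]; ring

lemma mem_slit (hc : 0 < Real.cos τ) {z : ℂ} (hPQ : ‖P z‖ < ‖Q z‖) :
    Af τ P Q z / Bf τ P Q z ∈ Complex.slitPlane := by
  rw [div_eq hc hPQ, Complex.mem_slitPlane_iff]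
  left
  rw [Complex.re_ofReal_mul]
  exact mul_pos (inv_pos.mpr (Complex.normSq_pos.mpr (B_ne hc hPQ))) (re_pos hc hPQ)

lemma arg_eq (hc : 0 < Real.cos τ) {z : ℂ} (hPQ : ‖P z‖ < ‖Q z‖) :
    (Complex.log (Af τ P Q z / Bf τ P Q z)).im
      = Complex.arg (Af τ P Q z * (starRingEnd ℂ) (Bf τ P Q z)) := by
  rw [Complex.log_im, div_eq hc hPQ, Complex.arg_real_mul]
  exact inv_pos.mpr (Complex.normSq_pos.mpr (B_ne hc hPQ))

/-- dividing by a power of `z` -/
lemma div_pow_aux {f g : ℂ → ℂ} {m : ℕ} (hf : DifferentiableOn ℂ f (ball 0 1))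
    (hg : DifferentiableAt ℂ g 0) (hfg : ∀ᶠ z in 𝓝 (0:ℂ), f z = z^m * g z) :
    ∃ h : ℂ → ℂ, DifferentiableOn ℂ h (ball 0 1) ∧ ∀ z ∈ ball (0:ℂ) 1, f z = z^m * h z := by
  classical
  refine ⟨fun z => if z = 0 then g 0 else f z / z^m, ?_, ?_⟩
  · intro z hz
    by_cases h0 : z = 0
    · subst h0
      apply DifferentiableAt.differentiableWithinAt
      refine hg.congr_of_eventuallyEq ?_
      filter_upwards [hfg] with z hz
      by_cases h : z = 0
      · simp [h]
      · simp only [h, if_false]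
        rw [hz]
        field_simp
    · apply DifferentiableAt.differentiableWithinAt
      have h1 : DifferentiableAt ℂ (fun w => f w / w^m) z := by
        apply DifferentiableAt.div
        · exact (hf z hz).differentiableAt (isOpen_ball.mem_nhds hz)
        · fun_prop
        · exact pow_ne_zero _ h0
      refine h1.congr_of_eventuallyEq ?_
      filter_upwards [isOpen_ne.mem_nhds h0] with w hw
      simp only [show w ≠ 0 from hw, if_false]
  · intro z hz
    by_cases h0 : z = 0
    · subst h0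
      simpa using hfg.self_of_nhds
    · simp only [h0, if_false]
      field_simp

/-- The logarithm of `A/B` has the expected Taylor polynomial. -/
lemma log_taylor {n : ℕ} (h0 : 0 < τ) (h1 : τ < Real.pi / 2) (hP : Differentiable ℂ P)
    (hQ : Differentiable ℂ Q) (hPQ : ∀ z : ℂ, ‖z‖ < 1 → ‖P z‖ < ‖Q z‖)
    (hcon : ∃ H : ℂ → ℂ, DifferentiableOn ℂ H (ball 0 1) ∧ ∀ z : ℂ,
      P z * V0 τ z - Q z * S0 τ z = z^(n+1) * H z) :
    DifferentiableOn ℂ (fun z => Complex.log (Af τ P Q z / Bf τ P Q z)) (ball 0 1) ∧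
    ∃ h : ℂ → ℂ, DifferentiableOn ℂ h (ball 0 1) ∧ ∀ z ∈ ball (0:ℂ) 1,
      Complex.log (Af τ P Q z / Bf τ P Q z)
        = I * τ * (1 + 2 * ∑ j ∈ Finset.Icc 1 n, z^j) + z^(n+1) * h z := by
  have hc : 0 < Real.cos τ := Real.cos_pos_of_mem_Ioo ⟨by linarith [Real.pi_pos], h1⟩
  have hPQ' : ∀ z ∈ ball (0:ℂ) 1, ‖P z‖ < ‖Q z‖ := fun z hz => hPQ z (by simpa using hz)
  obtain ⟨H, hH, hcon⟩ := hcon
  have hA : Differentiable ℂ (Af τ P Q) := by unfold Af; fun_prop
  have hB : Differentiable ℂ (Bf τ P Q) := by unfold Bf; fun_prop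
  have hLd : DifferentiableOn ℂ (fun z => Complex.log (Af τ P Q z / Bf τ P Q z)) (ball 0 1) := by
    apply DifferentiableOn.clog
    · exact hA.differentiableOn.div hB.differentiableOn fun z hz => B_ne hc (hPQ' z hz)
    · exact fun z hz => mem_slit hc (hPQ' z hz)
  refine ⟨hLd, ?_⟩
  -- the difference with the logarithm of `F`
  set w : ℂ → ℂ := fun z => (τ:ℂ) / (1 - z) with hw
  have hwd : DifferentiableOn ℂ w (ball 0 1) := fun z hz =>
    (hasDerivAt_w τ hz).differentiableAt.differentiableWithinAt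
  set ell : ℂ → ℂ := fun z => Complex.log (Af τ P Q z / Bf τ P Q z) - I * (2 * w z - τ) with hell
  have helld : DifferentiableOn ℂ ell (ball 0 1) := by
    apply hLd.sub
    exact (((hwd.const_mul 2).sub_const _).const_mul I)
  set H1 : ℂ → ℂ := fun z => 2 * I * Complex.exp (I * w z - I * τ / 2) * H z
    / (Complex.exp (I * (2 * w z - τ)) * Bf τ P Q z) with hH1
  have hH1d : DifferentiableOn ℂ H1 (ball 0 1) := by
    apply DifferentiableOn.div
    · apply DifferentiableOn.mul _ hH
      apply DifferentiableOn.const_mul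
      apply DifferentiableOn.cexp
      exact (hwd.const_mul I).sub_const _
    · apply DifferentiableOn.mul _ hB.differentiableOn
      apply DifferentiableOn.cexp
      exact (((hwd.const_mul 2).sub_const _).const_mul I)
    · intro z hz
      exact mul_ne_zero (Complex.exp_ne_zero _) (B_ne hc (hPQ' z hz))
  have hexp : ∀ z ∈ ball (0:ℂ) 1, Complex.exp (ell z) = 1 + z^(n+1) * H1 z := by
    intro z hz
    have hBz := B_ne hc (hPQ' z hz)
    have hAz := A_ne hc (hPQ' z hz)
    have hcz := hcon z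
    rw [hell]
    simp only
    rw [Complex.exp_sub, Complex.exp_log (div_ne_zero hAz hBz)]
    have key : Af τ P Q z = Complex.exp (I * (2 * w z - τ)) * Bf τ P Q z
        + 2 * I * Complex.exp (I * w z - I * τ / 2) * (z^(n+1) * H z) := by
      rw [← hcz, V0, S0, Af, Bf]
      have hcos : Complex.cos ((τ:ℂ) / (1 - z))
          = (Complex.exp (w z * I) + Complex.exp (-w z * I)) / 2 := rfl
      have hsin : Complex.sin ((τ:ℂ) / (1 - z) - τ)
          = (Complex.exp (-(w z - τ) * I) - Complex.exp ((w z - τ) * I)) * I / 2 := rfl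
      rw [hcos, hsin]
      have q1 : Complex.exp (I * (2 * w z - τ)) * Complex.exp (-(I * τ / 2))
          = Complex.exp (I * w z - I * τ / 2) * Complex.exp ((w z - τ) * I) := by
        rw [← Complex.exp_add, ← Complex.exp_add]; congr 1; ring
      have q2 : Complex.exp (I * τ / 2)
          = Complex.exp (I * w z - I * τ / 2) * Complex.exp (-(w z - τ) * I) := by
        rw [← Complex.exp_add]; congr 1; ring
      have q3 : Complex.exp (I * (2 * w z - τ)) * Complex.exp (I * τ / 2)
          = Complex.exp (I * w z - I * τ / 2) * Complex.exp (w z * I) := by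
        rw [← Complex.exp_add, ← Complex.exp_add]; congr 1; ring
      have q4 : Complex.exp (-(I * τ / 2))
          = Complex.exp (I * w z - I * τ / 2) * Complex.exp (-w z * I) := by
        rw [← Complex.exp_add]; congr 1; ring
      linear_combination -Q z * q1 + Q z * q2 + I * P z * q3 + I * P z * q4
        + Complex.exp (I * w z - I * τ / 2) * Q z * (Complex.exp (-(w z - τ) * I)
            - Complex.exp ((w z - τ) * I)) * Complex.I_sq
    rw [hH1]
    simp only
    have hE := Complex.exp_ne_zero (I * (2 * w z - τ))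
    rw [div_div, div_eq_iff (mul_ne_zero hBz hE)]
    rw [key]
    field_simp
  have hell0 : ell 0 = 0 := by
    have hz : (0:ℂ) ∈ ball (0:ℂ) 1 := mem_ball_self one_pos
    have hBz := B_ne hc (hPQ' 0 hz)
    have hAz := A_ne hc (hPQ' 0 hz)
    have e := hexp 0 hz
    rw [hell] at e ⊢
    simp only [ne_eq, Nat.add_eq_zero_iff, one_ne_zero, and_false, not_false_eq_true, zero_pow,
      zero_mul, add_zero] at e ⊢
    rw [Complex.exp_sub, Complex.exp_log (div_ne_zero hAz hBz),
      div_eq_one_iff_eq (Complex.exp_ne_zero _)] at e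
    have hw0 : I * (2 * w 0 - τ) = τ * I := by
      rw [hw]; simp; ring
    rw [hw0] at e ⊢
    rw [e, Complex.log_exp, sub_self]
    · simp; linarith [Real.pi_pos]
    · simp; linarith [Real.pi_pos]
  -- local form of `ell`
  set lam : ℂ → ℂ := dslope (fun w => Complex.log (1 + w)) 0 with hlam
  have hlamd : DifferentiableAt ℂ lam 0 := by
    have h1 : DifferentiableOn ℂ (fun w => Complex.log (1 + w)) (ball 0 1) := by
      apply DifferentiableOn.clog (by fun_prop)
      intro z hz
      rw [Complex.mem_slitPlane_iff]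
      left
      have : |z.re| < 1 := lt_of_le_of_lt (Complex.abs_re_le_norm z) (by simpa using hz)
      simp only [Complex.add_re, Complex.one_re]
      linarith [(abs_lt.mp this).1]
    have h2 : DifferentiableOn ℂ lam (ball 0 1) := by
      rw [hlam, Complex.differentiableOn_dslope ball_mem_nhds_zero]
      exact h1
    exact h2.differentiableAt ball_mem_nhds_zero
  have hH10 : DifferentiableAt ℂ H1 0 := hH1d.differentiableAt ball_mem_nhds_zero
  have hloc : ∀ᶠ z in 𝓝 (0:ℂ), ell z = z^(n+1) * (H1 z * lam (z^(n+1) * H1 z)) := by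
    have hcont : ContinuousAt ell 0 := helld.continuousOn.continuousAt ball_mem_nhds_zero
    have him : ∀ᶠ z in 𝓝 (0:ℂ), ‖ell z‖ < 1 := by
      have : Tendsto (fun z => ‖ell z‖) (𝓝 0) (𝓝 0) := by
        have := hcont.norm.tendsto
        rwa [hell0, norm_zero] at this
      exact this.eventually (gt_mem_nhds one_pos)
    filter_upwards [him, ball_mem_nhds_zero] with z hz1 hz2
    have him1 : |(ell z).im| < 1 := lt_of_le_of_lt (Complex.abs_im_le_norm _) hz1
    have hpi := Real.pi_gt_three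
    have e1 : Complex.log (Complex.exp (ell z)) = ell z := by
      apply Complex.log_exp
      · linarith [(abs_lt.mp him1).1]
      · linarith [(abs_lt.mp him1).2]
    rw [hexp z hz2] at e1
    have e2 := sub_smul_dslope (fun w => Complex.log (1 + w)) 0 (z^(n+1) * H1 z)
    simp only [sub_zero, smul_eq_mul, add_zero, Complex.log_one] at e2
    rw [← e1, ← e2, hlam]
    ring
  have hgd : DifferentiableAt ℂ (fun z => H1 z * lam (z^(n+1) * H1 z)) 0 := by
    apply hH10.mul
    have h5 : DifferentiableAt ℂ lam ((fun z => z^(n+1) * H1 z) 0) := by simpa using hlamd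
    have h6 : DifferentiableAt ℂ (fun z => z^(n+1) * H1 z) 0 :=
      (by fun_prop : DifferentiableAt ℂ (fun z : ℂ => z^(n+1)) 0).mul hH10
    exact h5.comp 0 h6
  obtain ⟨h, hh, hhe⟩ := div_pow_aux helld hgd hloc
  refine ⟨fun z => h z + 2 * I * τ / (1 - z), ?_, ?_⟩
  · apply hh.add
    intro z hz
    have := one_sub_ne hz
    apply DifferentiableAt.differentiableWithinAt
    exact DifferentiableAt.div (by fun_prop) (by fun_prop) this
  · intro z hz
    have h3 := hhe z hz
    have h4 := one_sub_ne hz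
    rw [hell] at h3
    simp only at h3
    have hgeo : (1 - z) * (1 + 2 * ∑ j ∈ Finset.Icc 1 n, z^j) = 1 + z - 2 * z^(n+1) := by
      have : ∀ m : ℕ, (1 - z) * (1 + 2 * ∑ j ∈ Finset.Icc 1 m, z^j) = 1 + z - 2 * z^(m+1) := by
        intro m
        induction m with
        | zero => simp; ring
        | succ m ih =>
          rw [Finset.sum_Icc_succ_top (by omega)]
          linear_combination ih
      exact this n
    have h5 : I * (2 * w z - τ) = I * τ * (1 + 2 * ∑ j ∈ Finset.Icc 1 n, z^j)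
        + z^(n+1) * (2 * I * τ / (1 - z)) := by
      rw [hw]
      simp only
      have : (1 - z) * (I * (2 * ((τ:ℂ) / (1 - z)) - τ)) = (1 - z) * (I * τ * (1 + 2 * ∑ j ∈ Finset.Icc 1 n, z^j)
        + z^(n+1) * (2 * I * τ / (1 - z))) := by
        have e1 : (1 - z) * (I * (2 * ((τ:ℂ) / (1 - z)) - τ)) = I * τ * (1 + z) := by
          field_simp; ring
        have e2 : (1 - z) * (z^(n+1) * (2 * I * τ / (1 - z))) = 2 * I * τ * z^(n+1) := by
          field_simp
        rw [e1, mul_add (1 - z), e2]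
        linear_combination -I * τ * hgeo
      exact mul_left_cancel₀ h4 this
    linear_combination h3 + h5

end

end Pool.Agent.H390
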