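import Pool.Agent.H390.Extremal

/-!
The constants of the problem, and their value for each degree in terms of the recurrence.
-/

namespace Pool.Agent.H390

open Filter Topology

/-- The constants admissible in the inequality for degree `n`. -/
def admissible (n : ℕ) : Set ℝ :=
  {C : ℝ | ∀ (a b : ℕ → ℝ) (θ : ℝ),
    |trigPoly n a b θ| ≤ C * ((n / (2 * Real.pi)) * ∫ t in (-Real.pi)..Real.pi, |trigPoly n a b t|)}

/-- `C_n`, the smallest admissible constant. -/
noncomputable def nikC (n : ℕ) : ℝ := sInf (admissible n)

variable {n : ℕ} {τ : ℝ} {ψ x : ℕ → ℝ}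

theorem isLeast_admissible (hn : 0 < n) (h : Sys n τ ψ x) (h1 : x (n-1) = 1) :
    IsLeast (admissible n) (Real.pi / (2 * n * τ)) := by
  have hpi := Real.pi_pos
  have hτ := h.τ_pos
  have hn' : (0:ℝ) < n := by exact_mod_cast hn
  constructor
  · intro a b θ
    have := upper hn h h1 a b θ
    have e : Real.pi / (2 * n * τ) * ((n / (2 * Real.pi)) *
        ∫ t in (-Real.pi)..Real.pi, |trigPoly n a b t|)
        = (∫ t in (-Real.pi)..Real.pi, |trigPoly n a b t|) / (4 * τ) := by
      field_simp
      ring
    rw [e, le_div_iff₀ (by positivity)]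
    linarith
  · intro C hC
    obtain ⟨a, b, hpos, hint⟩ := extremal hn h h1
    have hper : Function.Periodic (fun θ => |trigPoly n a b θ|) (2 * Real.pi) := fun θ => by
      simp only [trigPoly_periodic n a b θ]
    have e1 : ∫ θ in (-Real.pi)..Real.pi, |trigPoly n a b θ| = 4 * τ * trigPoly n a b 0 := by
      have := hper.intervalIntegral_add_eq (-Real.pi) 0
      rw [show -Real.pi + 2 * Real.pi = Real.pi by ring, zero_add] at this
      rw [this, hint]
    have h2 := hC a b 0
    rw [e1, abs_of_pos hpos] at h2
    have h3 : C * ((n / (2 * Real.pi)) * (4 * τ * trigPoly n a b 0))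
        = (C * (2 * n * τ) / Real.pi) * trigPoly n a b 0 := by
      field_simp
      ring
    rw [h3] at h2
    have h4 : 1 ≤ C * (2 * n * τ) / Real.pi := by
      by_contra hcon
      push Not at hcon
      nlinarith
    rw [le_div_iff₀ hpi] at h4
    rw [div_le_iff₀ (by positivity)]
    linarith

theorem nikC_eq (hn : 0 < n) (h : Sys n τ ψ x) (h1 : x (n-1) = 1) :
    nikC n = Real.pi / (2 * n * τ) := (isLeast_admissible hn h h1).csInf_eq

end Pool.Agent.H390
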