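import Pool.Agent.H390.OdeExist

/-!
The blow-up radius is positive and finite.
-/

namespace Pool.Agent.H390

open Filter Topology Set

lemma cosh_one_le : Real.cosh 1 ≤ 2 := by
  rw [Real.cosh_eq]
  have h1 := Real.exp_one_lt_d9
  have h2 : Real.exp (-1) < 1 := by
    rw [Real.exp_lt_one_iff]; norm_num
  linarith

lemma half_good : (1/2 : ℝ) ∈ good := by
  refine ⟨by norm_num, 1, ?_⟩
  have key : ∀ m : ℕ, ∀ r : ℝ, 0 ≤ r → r ≤ 1/2 → itf m r ≤ 1 := by
    intro m
    induction m with
    | zero => intro r _ _; show (0:ℝ) ≤ 1; norm_num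
    | succ m ih =>
      intro r h0 h1
      have e : itf (m+1) r = ∫ s in (0:ℝ)..r, avg (itf m) s := rfl
      rw [e]
      have h2 : ∫ s in (0:ℝ)..r, avg (itf m) s ≤ ∫ s in (0:ℝ)..r, Real.cosh 1 := by
        apply intervalIntegral.integral_mono_on h0
        · exact (avg_continuous (itf_continuous m)).intervalIntegrable _ _
        · exact continuous_const.intervalIntegrable _ _
        · intro s hs
          apply avg_le (itf_continuous m)
          intro u hu0 hu1
          have h3 : 0 ≤ s * u := mul_nonneg hs.1 hu0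
          rw [abs_of_nonneg (itf_nonneg m h3)]
          exact ih _ h3 (by nlinarith [hs.1, hs.2])
      refine h2.trans ?_
      simp only [intervalIntegral.integral_const, sub_zero, smul_eq_mul]
      have := cosh_one_le
      nlinarith [Real.cosh_pos 1]
  rintro _ ⟨m, rfl⟩
  exact key m _ (by norm_num) le_rfl

/-- comparison with an explicit solution of Liouville's equation -/
lemma liouville_le {R : ℝ} {ψ q : ℝ → ℝ} (h : Sol R ψ q) (hR : 5 ≤ R) {b : ℝ} (hb0 : 0 ≤ b)
    (hb : b < 5) : Real.log (4/5) - 2 * Real.log (1 - b/5) < ψ b := by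
  set g : ℝ → ℝ := fun s => ψ s + 2 * Real.log (1 - s/5) - Real.log (4/5) with hg
  have hlog : Real.log (4/5) < 0 := Real.log_neg (by norm_num) (by norm_num)
  have hlogc : ContinuousOn (fun s : ℝ => Real.log (1 - s/5)) (Icc 0 b) := by
    apply ContinuousOn.log (by fun_prop)
    intro s hs
    have : s < 5 := lt_of_le_of_lt hs.2 hb
    have : 0 < 1 - s/5 := by linarith
    exact this.ne'
  have hgc : ContinuousOn g (Icc 0 b) := by
    apply ContinuousOn.sub _ continuousOn_const
    apply ContinuousOn.add _ (continuousOn_const.mul hlogc)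
    exact h.cψ.mono fun s hs => ⟨hs.1, by linarith [hs.2]⟩
  suffices hmain : ∀ s ∈ Icc 0 b, 0 < g s by
    have := hmain b ⟨hb0, le_rfl⟩
    rw [hg] at this
    simp only at this
    linarith
  by_contra hcon
  push Not at hcon
  have hcomp : IsCompact (Icc 0 b ∩ g ⁻¹' (Iic 0)) := by
    apply IsCompact.of_isClosed_subset isCompact_Icc
    · exact hgc.preimage_isClosed_of_isClosed isClosed_Icc isClosed_Iic
    · exact inter_subset_left
  obtain ⟨s₁, hs₁, hgs₁⟩ := hcon
  obtain ⟨x₀, ⟨⟨hx0, hxb⟩, hgx⟩, hmin⟩ := hcomp.exists_isLeast ⟨s₁, hs₁, hgs₁⟩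
  have hg0 : 0 < g 0 := by
    rw [hg]; simp only [h.ψ0, zero_div, sub_zero, Real.log_one, mul_zero, add_zero]
    linarith
  simp only [mem_preimage, mem_Iic] at hgx
  have hx0' : 0 < x₀ := by
    rcases hx0.lt_or_eq with h | h
    · exact h
    · exfalso; rw [← h] at hgx; linarith
  have hpos : ∀ s, 0 ≤ s → s < x₀ → 0 < g s := by
    intro s hs0 hs
    by_contra hc
    push Not at hc
    have := hmin (show s ∈ Icc 0 b ∩ g ⁻¹' (Iic 0) from ⟨⟨hs0, by linarith⟩, hc⟩)
    linarith
  -- first order quantity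
  set k : ℝ → ℝ := fun s => q s - 2 * s / (5 - s) with hk
  have hkd : ∀ s ∈ Ioo 0 x₀, HasDerivAt k (Real.cosh (ψ s) - 10 / (5 - s)^2) s := by
    intro s hs
    have hs5 : (5:ℝ) - s ≠ 0 := by
      have : s < 5 := by linarith [hs.2]
      linarith
    have h1 := h.dq s ⟨hs.1, by linarith [hs.2]⟩
    have h2 : HasDerivAt (fun s : ℝ => 2 * s / (5 - s)) ((2 * (5 - s) - 2 * s * (-1)) / (5 - s)^2) s := by
      have e1 : HasDerivAt (fun s : ℝ => 2 * s) 2 s := by
        simpa using (hasDerivAt_id s).const_mul 2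
      have e2 : HasDerivAt (fun s : ℝ => 5 - s) (-1) s := by
        simpa using (hasDerivAt_id s).const_sub 5
      exact e1.div e2 hs5
    refine (h1.sub h2).congr_deriv ?_
    congr 1
    ring
  have hkc : ContinuousOn k (Icc 0 x₀) := by
    apply ContinuousOn.sub
    · exact h.cq.mono fun s hs => ⟨hs.1, by linarith [hs.2]⟩
    · apply ContinuousOn.div (by fun_prop) (by fun_prop)
      intro s hs
      have : s < 5 := by linarith [hs.2]
      linarith
  have hkmono : MonotoneOn k (Icc 0 x₀) := by
    apply monotoneOn_of_deriv_nonneg (convex_Icc _ _) hkc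
    · intro s hs
      rw [interior_Icc] at hs
      exact (hkd s hs).differentiableAt.differentiableWithinAt
    · intro s hs
      rw [interior_Icc] at hs
      rw [(hkd s hs).deriv]
      have h1 := hpos s hs.1.le hs.2
      have hs5 : 0 < 1 - s/5 := by
        have : s < 5 := by linarith [hs.2]
        linarith
      have h2 : Real.log (4/5) - 2 * Real.log (1 - s/5) ≤ ψ s := by
        rw [hg] at h1; simp only at h1; linarith
      have h3 : 20 / (5 - s)^2 ≤ Real.exp (ψ s) := by
        refine le_trans (le_of_eq ?_) (Real.exp_le_exp.mpr h2)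
        have e5 : 2 * Real.log (1 - s/5) = Real.log ((1 - s/5)^2) := by
          rw [Real.log_pow]; norm_num
        rw [e5, Real.exp_sub, Real.exp_log (by norm_num), Real.exp_log (by positivity)]
        have e6 : (5:ℝ) - s ≠ 0 := by linarith
        have e7 : 1 - s/5 = (5 - s)/5 := by ring
        rw [e7]
        field_simp
        norm_num
      have h4 : Real.exp (ψ s) / 2 ≤ Real.cosh (ψ s) := by
        rw [Real.cosh_eq]
        have := Real.exp_pos (-ψ s)
        linarith
      have h5 : 10 / (5 - s)^2 = (20 / (5 - s)^2) / 2 := by ring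
      rw [h5]; linarith
  have hkpos : ∀ s ∈ Icc 0 x₀, 0 ≤ k s := by
    intro s hs
    have := hkmono ⟨le_rfl, hx0⟩ hs hs.1
    have k0 : k 0 = 0 := by rw [hk]; simp [h.q0]
    rwa [k0] at this
  have hgmono : MonotoneOn g (Icc 0 x₀) := by
    have hgd : ∀ s ∈ Ioo 0 x₀, HasDerivAt g (k s / s) s := by
      intro s hs
      have hs5 : (5:ℝ) - s ≠ 0 := by
        have : s < 5 := by linarith [hs.2]
        linarith
      have hs50 : (1:ℝ) - s/5 ≠ 0 := by
        have : s < 5 := by linarith [hs.2]
        have : 0 < 1 - s/5 := by linarith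
        exact this.ne'
      have e1 := h.dψ s ⟨hs.1, by linarith [hs.2]⟩
      have e2 : HasDerivAt (fun s : ℝ => 1 - s/5) (-(1/5)) s := by
        simpa using ((hasDerivAt_id s).div_const 5).const_sub 1
      have e3 := ((e2.log hs50).const_mul 2)
      refine ((e1.add e3).sub_const _).congr_deriv ?_
      rw [hk]
      have hs0 : s ≠ 0 := hs.1.ne'
      simp only
      field_simp
      ring
    apply monotoneOn_of_deriv_nonneg (convex_Icc _ _) (hgc.mono (Icc_subset_Icc_right hxb))
    · intro s hs
      rw [interior_Icc] at hs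
      exact (hgd s hs).differentiableAt.differentiableWithinAt
    · intro s hs
      rw [interior_Icc] at hs
      rw [(hgd s hs).deriv]
      exact div_nonneg (hkpos s ⟨hs.1.le, hs.2.le⟩) hs.1.le
  have := hgmono ⟨le_rfl, hx0⟩ ⟨hx0, le_rfl⟩ hx0
  linarith

lemma good_le {r : ℝ} (hr : r ∈ good) : r ≤ 5 := by
  by_contra hcon
  push Not at hcon
  have hsol : Sol r lim qlim := sol_of_forall fun s _ hs => ⟨r, hr, hs⟩
  have hl := lim_nonneg hr
  -- choose b close to 5
  set ε : ℝ := Real.exp (-(lim r + 1) / 2) * (1/2) with hε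
  have hε0 : 0 < ε := by positivity
  have hε1 : ε < 1 := by
    have : Real.exp (-(lim r + 1) / 2) ≤ 1 := by
      rw [Real.exp_le_one_iff]; linarith
    rw [hε]; linarith
  have h1 := liouville_le hsol hcon.le (b := 5 * (1 - ε)) (by nlinarith) (by nlinarith)
  have e1 : 1 - 5 * (1 - ε) / 5 = ε := by ring
  rw [e1] at h1
  have h2 : lim (5 * (1 - ε)) ≤ lim r := lim_mono hr (by nlinarith) (by nlinarith)
  have h3 : Real.log ε ≤ -(lim r + 1)/2 + Real.log (1/2) := by
    rw [hε, Real.log_mul (Real.exp_pos _).ne' (by norm_num), Real.log_exp]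
  have h4 : Real.log (1/2) = -Real.log 2 := by
    rw [one_div, Real.log_inv]
  have h5 : 0 < Real.log 2 := Real.log_pos (by norm_num)
  have h6 : Real.log (4/5) = -Real.log (5/4) := by
    rw [← Real.log_inv]; norm_num
  have h7 : Real.log (5/4) ≤ 1/4 := by
    have := Real.log_le_sub_one_of_pos (x := 5/4) (by norm_num)
    linarith
  rw [h6] at h1
  linarith

/-- the blow-up radius -/
noncomputable def Rb : ℝ := sSup good

lemma good_bdd : BddAbove good := ⟨5, fun _ hr => good_le hr⟩

lemma exists_good_gt {r : ℝ} (hr : r < Rb) : ∃ r' ∈ good, r < r' :=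
  exists_lt_of_lt_csSup ⟨_, half_good⟩ hr

lemma mem_good_of_lt {r : ℝ} (h0 : 0 ≤ r) (hr : r < Rb) : r ∈ good := by
  obtain ⟨r', hr', hlt⟩ := exists_good_gt hr
  exact good_down hr' h0 hlt.le

lemma Rb_pos : 0 < Rb := by
  have := le_csSup good_bdd half_good
  have h : Rb = sSup good := rfl
  rw [h]; linarith

lemma lim_unbounded (B : ℝ) : ∃ r, 0 ≤ r ∧ r < Rb ∧ B < lim r := by
  by_contra hcon
  push Not at hcon
  -- the iterates are bounded by `max B 0` up to `Rb`
  have hB0 : 0 ≤ B := by
    have := hcon 0 le_rfl Rb_pos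
    rwa [lim_zero] at this
  have h1 : ∀ m, itf m Rb ≤ B := by
    intro m
    have hc : Tendsto (itf m) (𝓝[<] Rb) (𝓝 (itf m Rb)) :=
      ((itf_continuous m).tendsto Rb).mono_left nhdsWithin_le_nhds
    refine le_of_tendsto hc ?_
    filter_upwards [Ioo_mem_nhdsLT Rb_pos] with r hr
    exact (itf_le_lim (mem_good_of_lt hr.1.le hr.2) m).trans (hcon r hr.1.le hr.2)
  set δ : ℝ := 1 / Real.cosh (B + 1) with hδ
  have hch := Real.cosh_pos (B + 1)
  have hδ0 : 0 < δ := by positivity
  have h2 : ∀ m, itf m (Rb + δ) ≤ B + 1 := by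
    intro m
    induction m with
    | zero => show (0:ℝ) ≤ B + 1; linarith
    | succ m ih =>
      have e := itf_sub m (Rb + δ) Rb
      have h3 : ∫ t in Rb..(Rb + δ), avg (itf m) t ≤ ∫ t in Rb..(Rb + δ), Real.cosh (B + 1) := by
        apply intervalIntegral.integral_mono_on (by linarith)
        · exact (avg_continuous (itf_continuous m)).intervalIntegrable _ _
        · exact continuous_const.intervalIntegrable _ _
        · intro t ht
          have ht0 : 0 ≤ t := Rb_pos.le.trans ht.1
          apply avg_le (itf_continuous m)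
          intro u hu0 hu1
          have htu : 0 ≤ t * u := mul_nonneg ht0 hu0
          rw [abs_of_nonneg (itf_nonneg m htu)]
          exact (itf_mono m (by nlinarith [ht.2])).trans ih
      have h4 : ∫ t in Rb..(Rb + δ), Real.cosh (B + 1) = 1 := by
        simp only [intervalIntegral.integral_const, smul_eq_mul, add_sub_cancel_left]
        rw [hδ]; field_simp
      have h5 := h1 (m+1)
      linarith
  have h3 : Rb + δ ∈ good := by
    refine ⟨by linarith [Rb_pos], B + 1, ?_⟩
    rintro _ ⟨m, rfl⟩
    exact h2 m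
  have h4 : Rb + δ ≤ Rb := le_csSup good_bdd h3
  linarith

/-- The solution exists and blows up. -/
theorem facts_lim : Facts Rb lim qlim := by
  have hs : Sol Rb lim qlim := sol_of_forall fun r _ hr => exists_good_gt hr
  refine ⟨Rb_pos, hs.ψ0, hs.q0, hs.cψ, hs.cq, hs.dψ, hs.dq, ?_⟩
  rw [tendsto_atTop]
  intro B
  obtain ⟨r, h0, h1, h2⟩ := lim_unbounded B
  filter_upwards [Ioo_mem_nhdsLT h1] with s hs
  exact h2.le.trans (lim_mono (mem_good_of_lt (h0.trans hs.1.le) hs.2) h0 hs.1.le)

end Pool.Agent.H390
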