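import Pool.Agent.H390.Ode

/-!
Existence of the blow-up solution of `(r ψ')' = cosh ψ`, `ψ 0 = 0`, by monotone iteration.
-/

namespace Pool.Agent.H390

open Filter Topology Set

/-- the averages of `cosh f` -/
noncomputable def avg (f : ℝ → ℝ) (s : ℝ) : ℝ := ∫ u in (0:ℝ)..1, Real.cosh (f (s * u))

/-- the iterates -/
noncomputable def itf : ℕ → ℝ → ℝ
  | 0, _ => 0
  | m+1, r => ∫ s in (0:ℝ)..r, avg (itf m) s

lemma avg_continuous {f : ℝ → ℝ} (hf : Continuous f) : Continuous (avg f) := by
  unfold avg
  apply intervalIntegral.continuous_parametric_intervalIntegral_of_continuous'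
  fun_prop

lemma itf_continuous : ∀ m, Continuous (itf m)
  | 0 => by
    have : itf 0 = fun _ => 0 := by funext r; rfl
    rw [this]; exact continuous_const
  | m+1 => by
    have h := avg_continuous (itf_continuous m)
    have : itf (m+1) = fun r => ∫ s in (0:ℝ)..r, avg (itf m) s := by funext r; rfl
    rw [this]
    exact intervalIntegral.continuous_primitive (fun a b => h.intervalIntegrable a b) 0

lemma avg_one_le {f : ℝ → ℝ} (hf : Continuous f) (s : ℝ) : 1 ≤ avg f s := by
  have h : ∫ u in (0:ℝ)..1, (1:ℝ) ≤ avg f s := by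
    apply intervalIntegral.integral_mono_on zero_le_one
    · exact continuous_const.intervalIntegrable _ _
    · apply Continuous.intervalIntegrable; fun_prop
    · intro u _; exact Real.one_le_cosh _
  simpa using h

lemma avg_mono {f g : ℝ → ℝ} (hf : Continuous f) (hg : Continuous g) {s t : ℝ} (h0 : 0 ≤ s)
    (hst : s ≤ t)
    (h : ∀ u, 0 ≤ u → u ≤ 1 → |f (s * u)| ≤ |g (t * u)|) : avg f s ≤ avg g t := by
  unfold avg
  apply intervalIntegral.integral_mono_on zero_le_one
  · apply Continuous.intervalIntegrable; fun_prop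
  · apply Continuous.intervalIntegrable; fun_prop
  · intro u hu; rw [Real.cosh_le_cosh]; exact h u hu.1 hu.2

lemma avg_le {f : ℝ → ℝ} (hf : Continuous f) {s B : ℝ}
    (h : ∀ u, 0 ≤ u → u ≤ 1 → |f (s * u)| ≤ B) : avg f s ≤ Real.cosh B := by
  have h1 : avg f s ≤ ∫ u in (0:ℝ)..1, Real.cosh B := by
    unfold avg
    apply intervalIntegral.integral_mono_on zero_le_one
    · apply Continuous.intervalIntegrable; fun_prop
    · exact continuous_const.intervalIntegrable _ _
    · intro u hu
      rw [Real.cosh_le_cosh]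
      exact (h u hu.1 hu.2).trans (le_abs_self _)
  simpa using h1

lemma itf_sub (m : ℕ) (r s : ℝ) : itf (m+1) r - itf (m+1) s = ∫ t in s..r, avg (itf m) t := by
  have h := avg_continuous (itf_continuous m)
  have := intervalIntegral.integral_interval_sub_left (h.intervalIntegrable (μ := MeasureTheory.volume) 0 r)
    (h.intervalIntegrable 0 s)
  exact this

/-- monotone in `r ≥ 0` -/
lemma itf_mono : ∀ (m : ℕ) {s r : ℝ}, s ≤ r → itf m s ≤ itf m r
  | 0, s, r, _ => le_rfl
  | m+1, s, r, h => by
    have h1 := itf_sub m r s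
    have h2 : 0 ≤ ∫ t in s..r, avg (itf m) t := by
      apply intervalIntegral.integral_nonneg h
      intro t _
      linarith [avg_one_le (itf_continuous m) t]
    linarith

lemma itf_zero_right : ∀ m, itf m 0 = 0
  | 0 => rfl
  | m+1 => by simp [itf]

lemma itf_nonneg (m : ℕ) {r : ℝ} (h : 0 ≤ r) : 0 ≤ itf m r := by
  rw [← itf_zero_right m]; exact itf_mono m h

lemma itf_succ_le : ∀ (m : ℕ) {r : ℝ}, 0 ≤ r → itf m r ≤ itf (m+1) r
  | 0, r, h => itf_nonneg 1 h
  | m+1, r, h => by
    have e1 : itf (m+1) r = ∫ s in (0:ℝ)..r, avg (itf m) s := rfl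
    have e2 : itf (m+1+1) r = ∫ s in (0:ℝ)..r, avg (itf (m+1)) s := rfl
    rw [e1, e2]
    apply intervalIntegral.integral_mono_on h
    · exact (avg_continuous (itf_continuous m)).intervalIntegrable _ _
    · exact (avg_continuous (itf_continuous (m+1))).intervalIntegrable _ _
    · intro s hs
      apply avg_mono (itf_continuous m) (itf_continuous (m+1)) hs.1 le_rfl
      intro u hu0 _
      have hsu : 0 ≤ s * u := mul_nonneg hs.1 hu0
      rw [abs_of_nonneg (itf_nonneg m hsu), abs_of_nonneg (itf_nonneg (m+1) hsu)]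
      exact itf_succ_le m hsu

lemma itf_monotone {r : ℝ} (h : 0 ≤ r) : Monotone (fun m => itf m r) :=
  monotone_nat_of_le_succ fun m => itf_succ_le m h

/-- the set of radii where the iterates stay bounded -/
def good : Set ℝ := {r | 0 ≤ r ∧ BddAbove (range fun m => itf m r)}

/-- the limit of the iterates -/
noncomputable def lim (r : ℝ) : ℝ := ⨆ m, itf m r

lemma good_down {s r : ℝ} (hr : r ∈ good) (h0 : 0 ≤ s) (hs : s ≤ r) : s ∈ good := by
  obtain ⟨B, hB⟩ := hr.2
  refine ⟨h0, B, ?_⟩
  rintro _ ⟨m, rfl⟩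
  exact (itf_mono m hs).trans (hB ⟨m, rfl⟩)

lemma itf_le_lim {r : ℝ} (hr : r ∈ good) (m : ℕ) : itf m r ≤ lim r := le_ciSup hr.2 m

lemma tendsto_lim {r : ℝ} (hr : r ∈ good) : Tendsto (fun m => itf m r) atTop (𝓝 (lim r)) :=
  tendsto_atTop_ciSup (itf_monotone hr.1) hr.2

lemma lim_nonneg {r : ℝ} (hr : r ∈ good) : 0 ≤ lim r := (itf_nonneg 0 hr.1).trans (itf_le_lim hr 0)

lemma lim_mono {s r : ℝ} (hr : r ∈ good) (h0 : 0 ≤ s) (hs : s ≤ r) : lim s ≤ lim r := by
  apply ciSup_le
  intro m
  exact (itf_mono m hs).trans (itf_le_lim hr m)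

lemma lim_zero : lim 0 = 0 := by
  unfold lim
  simp [itf_zero_right]

/-- Lipschitz bound -/
lemma lim_lip {s r R : ℝ} (hR : R ∈ good) (h0 : 0 ≤ s) (hs : s ≤ r) (hr : r ≤ R) :
    lim r - lim s ≤ Real.cosh (lim R) * (r - s) := by
  have hrg := good_down hR (h0.trans hs) hr
  have hsg := good_down hR h0 (hs.trans hr)
  have h1 : ∀ m, itf m r - itf m s ≤ Real.cosh (lim R) * (r - s) := by
    intro m
    cases m with
    | zero =>
      have : (0:ℝ) ≤ Real.cosh (lim R) * (r - s) := mul_nonneg (Real.cosh_pos _).le (by linarith)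
      simpa [itf] using this
    | succ m =>
      rw [itf_sub]
      have : ∫ t in s..r, avg (itf m) t ≤ ∫ t in s..r, Real.cosh (lim R) := by
        apply intervalIntegral.integral_mono_on hs
        · exact (avg_continuous (itf_continuous m)).intervalIntegrable _ _
        · exact continuous_const.intervalIntegrable _ _
        · intro t ht
          have ht0 : 0 ≤ t := h0.trans ht.1
          apply avg_le (itf_continuous m)
          intro u hu0 hu1
          have htu : 0 ≤ t * u := mul_nonneg ht0 hu0
          rw [abs_of_nonneg (itf_nonneg m htu)]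
          have h5 : t * u ≤ R := by nlinarith [ht.2]
          exact (itf_mono m h5).trans (itf_le_lim hR m)
      refine this.trans ?_
      simp [mul_comm]
  have h2 : Tendsto (fun m => itf m r - itf m s) atTop (𝓝 (lim r - lim s)) :=
    (tendsto_lim hrg).sub (tendsto_lim hsg)
  exact le_of_tendsto' h2 h1

lemma lim_continuousOn {R : ℝ} (hR : R ∈ good) : ContinuousOn lim (Icc 0 R) := by
  have : LipschitzOnWith (Real.toNNReal (Real.cosh (lim R))) lim (Icc 0 R) := by
    apply LipschitzOnWith.of_dist_le_mul
    intro x hx y hy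
    rw [Real.dist_eq, Real.dist_eq, Real.coe_toNNReal _ (Real.cosh_pos _).le]
    rcases le_total x y with h | h
    · rw [abs_sub_comm, abs_of_nonneg (by linarith [lim_mono (good_down hR hy.1 hy.2) hx.1 h]),
        abs_sub_comm, abs_of_nonneg (by linarith)]
      exact lim_lip hR hx.1 h hy.2
    · rw [abs_of_nonneg (by linarith [lim_mono (good_down hR hx.1 hx.2) hy.1 h]),
        abs_of_nonneg (by linarith)]
      exact lim_lip hR hy.1 h hx.2
  exact this.continuousOn

/-- the averages converge -/
lemma avg_tendsto {s : ℝ} (hs : s ∈ good) :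
    Tendsto (fun m => avg (itf m) s) atTop (𝓝 (avg lim s)) := by
  unfold avg
  apply intervalIntegral.tendsto_integral_filter_of_dominated_convergence
    (fun _ => Real.cosh (lim s))
  · filter_upwards with m
    have := itf_continuous m
    apply Continuous.aestronglyMeasurable; fun_prop
  · filter_upwards with m
    filter_upwards with u hu
    rw [uIoc_of_le zero_le_one] at hu
    rw [Real.norm_eq_abs, abs_of_pos (Real.cosh_pos _), Real.cosh_le_cosh]
    have h0 : 0 ≤ s * u := mul_nonneg hs.1 hu.1.le
    have h1 : s * u ≤ s := by nlinarith [hs.1, hu.2]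
    rw [abs_of_nonneg (itf_nonneg m h0), abs_of_nonneg (lim_nonneg hs)]
    exact (itf_mono m h1).trans (itf_le_lim hs m)
  · exact continuous_const.intervalIntegrable _ _
  · filter_upwards with u hu
    rw [uIoc_of_le zero_le_one] at hu
    have h0 : 0 ≤ s * u := mul_nonneg hs.1 hu.1.le
    have h1 : s * u ≤ s := by nlinarith [hs.1, hu.2]
    exact (Real.continuous_cosh.tendsto _).comp (tendsto_lim (good_down hs h0 h1))

/-- the integral equation -/
lemma lim_eq {r : ℝ} (hr : r ∈ good) : lim r = ∫ s in (0:ℝ)..r, avg lim s := by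
  have h1 : Tendsto (fun m => itf (m+1) r) atTop (𝓝 (lim r)) :=
    (tendsto_lim hr).comp (tendsto_add_atTop_nat 1)
  have h2 : Tendsto (fun m => itf (m+1) r) atTop (𝓝 (∫ s in (0:ℝ)..r, avg lim s)) := by
    have : (fun m => itf (m+1) r) = fun m => ∫ s in (0:ℝ)..r, avg (itf m) s := by
      funext m; rfl
    rw [this]
    apply intervalIntegral.tendsto_integral_filter_of_dominated_convergence
      (fun _ => Real.cosh (lim r))
    · filter_upwards with m
      exact (avg_continuous (itf_continuous m)).aestronglyMeasurable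
    · filter_upwards with m
      filter_upwards with s hs
      rw [uIoc_of_le hr.1] at hs
      rw [Real.norm_eq_abs, abs_of_pos (by linarith [avg_one_le (itf_continuous m) s])]
      apply avg_le (itf_continuous m)
      intro u hu0 hu1
      have h0 : 0 ≤ s * u := mul_nonneg hs.1.le hu0
      rw [abs_of_nonneg (itf_nonneg m h0)]
      have h5 : s * u ≤ r := by nlinarith [hs.1, hs.2]
      exact (itf_mono m h5).trans (itf_le_lim hr m)
    · exact continuous_const.intervalIntegrable _ _
    · filter_upwards with s hs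
      rw [uIoc_of_le hr.1] at hs
      exact avg_tendsto (good_down hr hs.1.le hs.2)
  exact tendsto_nhds_unique h1 h2

/-- the function `q` -/
noncomputable def qlim (r : ℝ) : ℝ := ∫ t in (0:ℝ)..r, Real.cosh (lim t)

lemma avg_lim {s : ℝ} (hs : 0 < s) : avg lim s = qlim s / s := by
  unfold avg qlim
  have := intervalIntegral.integral_comp_mul_left (a := 0) (b := 1)
    (fun t => Real.cosh (lim t)) hs.ne'
  rw [this]
  simp [div_eq_inv_mul]

lemma clamp_cont {R : ℝ} (hR : R ∈ good) : Continuous (fun t => lim (max 0 (min t R))) := by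
  have h1 : Continuous (fun t : ℝ => max 0 (min t R)) := by fun_prop
  exact (lim_continuousOn hR).comp_continuous h1
    (fun t => ⟨le_max_left _ _, max_le hR.1 (min_le_right _ _)⟩)

/-- a solution up to any good radius -/
structure Sol (R : ℝ) (ψ q : ℝ → ℝ) : Prop where
  ψ0 : ψ 0 = 0
  q0 : q 0 = 0
  cψ : ContinuousOn ψ (Ico 0 R)
  cq : ContinuousOn q (Ico 0 R)
  dψ : ∀ r ∈ Ioo 0 R, HasDerivAt ψ (q r / r) r
  dq : ∀ r ∈ Ioo 0 R, HasDerivAt q (Real.cosh (ψ r)) r

lemma qlim_continuousOn {R : ℝ} (hR : R ∈ good) : ContinuousOn qlim (Icc 0 R) := by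
  have hc := clamp_cont hR
  have h1 : Continuous (fun r => ∫ t in (0:ℝ)..r, Real.cosh (lim (max 0 (min t R)))) := by
    apply intervalIntegral.continuous_primitive
    intro a b
    apply Continuous.intervalIntegrable
    exact Real.continuous_cosh.comp hc
  apply h1.continuousOn.congr
  intro r hr
  unfold qlim
  apply intervalIntegral.integral_congr
  intro t ht
  rw [uIcc_of_le hr.1] at ht
  simp only
  rw [min_eq_left (ht.2.trans hr.2), max_eq_right ht.1]

lemma qlim_deriv {R r : ℝ} (hR : R ∈ good) (h0 : 0 < r) (h1 : r < R) :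
    HasDerivAt qlim (Real.cosh (lim r)) r := by
  have hc := clamp_cont hR
  have hcc : Continuous (fun t => Real.cosh (lim (max 0 (min t R)))) := Real.continuous_cosh.comp hc
  have h2 : HasDerivAt (fun r => ∫ t in (0:ℝ)..r, Real.cosh (lim (max 0 (min t R))))
      (Real.cosh (lim (max 0 (min r R)))) r :=
    intervalIntegral.integral_hasDerivAt_right (hcc.intervalIntegrable _ _)
      hcc.stronglyMeasurable.stronglyMeasurableAtFilter hcc.continuousAt
  rw [min_eq_left h1.le, max_eq_right h0.le] at h2
  refine h2.congr_of_eventuallyEq ?_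
  filter_upwards [Ioo_mem_nhds h0 h1] with x hx
  unfold qlim
  apply intervalIntegral.integral_congr
  intro t ht
  rw [uIcc_of_le hx.1.le] at ht
  simp only
  rw [min_eq_left (ht.2.trans hx.2.le), max_eq_right ht.1]

lemma lim_deriv {R r : ℝ} (hR : R ∈ good) (h0 : 0 < r) (h1 : r < R) :
    HasDerivAt lim (qlim r / r) r := by
  -- `lim x = lim a + ∫_a^x q/t` for `a = r/2`
  set g : ℝ → ℝ := fun t => qlim (max (r/2) (min t R)) / max (r/2) (min t R) with hg
  have hmax : Continuous (fun t : ℝ => max (r/2) (min t R)) := by fun_prop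
  have hgc : Continuous g := by
    apply Continuous.div
    · exact (qlim_continuousOn hR).comp_continuous hmax
        (fun t => ⟨by have := le_max_left (r/2) (min t R); linarith, max_le (by linarith) (min_le_right _ _)⟩)
    · exact hmax
    · intro t
      have := le_max_left (r/2) (min t R)
      have : 0 < max (r/2) (min t R) := by linarith
      exact this.ne'
  have h2 : HasDerivAt (fun x => lim (r/2) + ∫ t in (r/2)..x, g t) (g r) r := by
    apply HasDerivAt.const_add
    exact intervalIntegral.integral_hasDerivAt_right (hgc.intervalIntegrable _ _)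
      hgc.stronglyMeasurable.stronglyMeasurableAtFilter hgc.continuousAt
  have hgr : g r = qlim r / r := by
    rw [hg]; simp only
    rw [min_eq_left h1.le, max_eq_right (by linarith)]
  rw [← hgr]
  refine h2.congr_of_eventuallyEq ?_
  filter_upwards [Ioo_mem_nhds (show r/2 < r by linarith) h1] with x hx
  have hx0 : 0 < x := by linarith [hx.1]
  have hxg := good_down hR hx0.le hx.2.le
  have hrg := good_down hR (show 0 ≤ r/2 by linarith) (show r/2 ≤ R by linarith)
  rw [lim_eq hxg, lim_eq hrg]
  have hint : ∀ y, 0 ≤ y → y ≤ R → IntervalIntegrable (avg lim) MeasureTheory.volume 0 y := by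
    intro y hy0 hyR
    -- avg lim is bounded and measurable
    have hbd : IntervalIntegrable (fun s => ∫ u in (0:ℝ)..1,
        Real.cosh (lim (max 0 (min (s * u) R)))) MeasureTheory.volume 0 y := by
      apply Continuous.intervalIntegrable
      apply intervalIntegral.continuous_parametric_intervalIntegral_of_continuous'
      have := clamp_cont hR
      have h3 : Continuous (fun p : ℝ × ℝ => Real.cosh (lim (max 0 (min (p.1 * p.2) R)))) :=
        Real.continuous_cosh.comp (this.comp (continuous_fst.mul continuous_snd))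
      exact h3
    refine hbd.congr ?_
    intro s hs
    rw [uIoc_of_le hy0] at hs
    unfold avg
    apply intervalIntegral.integral_congr
    intro u hu
    rw [uIcc_of_le zero_le_one] at hu
    simp only
    have a0 : 0 ≤ s * u := mul_nonneg hs.1.le hu.1
    have a1 : s * u ≤ R := by nlinarith [hs.1, hs.2, hu.2]
    rw [min_eq_left a1, max_eq_right a0]
  rw [← sub_eq_iff_eq_add', intervalIntegral.integral_interval_sub_left (hint x hx0.le hx.2.le)
    (hint (r/2) (by linarith) (by linarith))]
  apply intervalIntegral.integral_congr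
  intro t ht
  rw [uIcc_of_le hx.1.le] at ht
  have ht0 : 0 < t := by linarith [ht.1]
  rw [avg_lim ht0, hg]
  simp only
  rw [min_eq_left (ht.2.trans hx.2.le), max_eq_right ht.1]

lemma sol_of_forall {R : ℝ} (h : ∀ r, 0 ≤ r → r < R → ∃ r' ∈ good, r < r') :
    Sol R lim qlim where
  ψ0 := lim_zero
  q0 := by simp [qlim]
  cψ := by
    intro r hr
    obtain ⟨r', hr', hlt⟩ := h r hr.1 hr.2
    have := (lim_continuousOn hr') r ⟨hr.1, hlt.le⟩
    refine this.mono_of_mem_nhdsWithin ?_
    have : Ico 0 R ∩ Iio r' ∈ 𝓝[Ico 0 R] r := inter_mem_nhdsWithin _ (Iio_mem_nhds hlt)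
    exact mem_of_superset this fun x hx => ⟨hx.1.1, (show x < r' from hx.2).le⟩
  cq := by
    intro r hr
    obtain ⟨r', hr', hlt⟩ := h r hr.1 hr.2
    have := (qlim_continuousOn hr') r ⟨hr.1, hlt.le⟩
    refine this.mono_of_mem_nhdsWithin ?_
    have : Ico 0 R ∩ Iio r' ∈ 𝓝[Ico 0 R] r := inter_mem_nhdsWithin _ (Iio_mem_nhds hlt)
    exact mem_of_superset this fun x hx => ⟨hx.1.1, (show x < r' from hx.2).le⟩
  dψ := by
    intro r hr
    obtain ⟨r', hr', hlt⟩ := h r hr.1.le hr.2
    exact lim_deriv hr' hr.1 hlt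
  dq := by
    intro r hr
    obtain ⟨r', hr', hlt⟩ := h r hr.1.le hr.2
    exact qlim_deriv hr' hr.1 hlt

end Pool.Agent.H390
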