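import Pool.Agent.H390.Chain

/-!
The polynomials attached to the recurrence, and the order of contact at the origin.
-/

namespace Pool.Agent.H390

open Complex Metric Set Filter Topology

/-- polynomials `(P, Q)` built by inverse Schur steps -/
noncomputable def PQ (y : ℕ → ℝ) : ℕ → Polynomial ℝ × Polynomial ℝ
  | 0 => (Polynomial.X, 1)
  | j+1 => (Polynomial.X * ((PQ y j).1 + Polynomial.C (y j) * (PQ y j).2),
      Polynomial.C (y j) * (PQ y j).1 + (PQ y j).2)

/-- `P` as a function -/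
noncomputable def Pf (y : ℕ → ℝ) (j : ℕ) (z : ℂ) : ℂ := Polynomial.aeval z (PQ y j).1

/-- `Q` as a function -/
noncomputable def Qf (y : ℕ → ℝ) (j : ℕ) (z : ℂ) : ℂ := Polynomial.aeval z (PQ y j).2

@[simp] lemma Pf_zero (y : ℕ → ℝ) (z : ℂ) : Pf y 0 z = z := by simp [Pf, PQ]

@[simp] lemma Qf_zero (y : ℕ → ℝ) (z : ℂ) : Qf y 0 z = 1 := by simp [Qf, PQ]

lemma Pf_succ (y : ℕ → ℝ) (j : ℕ) (z : ℂ) :
    Pf y (j+1) z = z * (Pf y j z + y j * Qf y j z) := by simp [Pf, Qf, PQ]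

lemma Qf_succ (y : ℕ → ℝ) (j : ℕ) (z : ℂ) :
    Qf y (j+1) z = y j * Pf y j z + Qf y j z := by simp [Pf, Qf, PQ]

lemma Pf_diff (y : ℕ → ℝ) (j : ℕ) : Differentiable ℂ (Pf y j) :=
  Polynomial.differentiable_aeval _

lemma Qf_diff (y : ℕ → ℝ) (j : ℕ) : Differentiable ℂ (Qf y j) :=
  Polynomial.differentiable_aeval _

lemma natDegree_PQ (y : ℕ → ℝ) : ∀ j, (PQ y j).1.natDegree ≤ j + 1 ∧ (PQ y j).2.natDegree ≤ j + 1
  | 0 => by simp [PQ]
  | j+1 => by
    obtain ⟨h1, h2⟩ := natDegree_PQ y j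
    constructor
    · simp only [PQ]
      refine (Polynomial.natDegree_mul_le).trans ?_
      have : ((PQ y j).1 + Polynomial.C (y j) * (PQ y j).2).natDegree ≤ j + 1 := by
        refine (Polynomial.natDegree_add_le _ _).trans (max_le h1 ?_)
        exact (Polynomial.natDegree_C_mul_le _ _).trans h2
      have h3 := Polynomial.natDegree_X_le (R := ℝ)
      omega
    · simp only [PQ]
      refine (Polynomial.natDegree_add_le _ _).trans (max_le ?_ ?_)
      · exact (Polynomial.natDegree_C_mul_le _ _).trans (by omega)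
      · omega

/-- in the open disc `|P| < |Q|` -/
lemma norm_Pf_lt {y : ℕ → ℝ} : ∀ (j : ℕ), (∀ i < j, |y i| < 1) → ∀ {z : ℂ}, ‖z‖ < 1 →
    ‖Pf y j z‖ < ‖Qf y j z‖
  | 0, _, z, hz => by simpa using hz
  | j+1, hy, z, hz => by
    have ih := norm_Pf_lt j (fun i hi => hy i (by omega)) hz
    have hyj := hy j (by omega)
    rw [Pf_succ, Qf_succ, norm_mul]
    set p := Pf y j z
    set q := Qf y j z
    have hy2 : (y j)^2 < 1 := (sq_lt_one_iff_abs_lt_one _).mpr hyj
    have e1 : ‖(y j : ℂ) * p + q‖^2 - ‖p + y j * q‖^2 = (1 - (y j)^2) * (‖q‖^2 - ‖p‖^2) := by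
      rw [← Complex.normSq_eq_norm_sq, ← Complex.normSq_eq_norm_sq, ← Complex.normSq_eq_norm_sq,
        ← Complex.normSq_eq_norm_sq]
      simp [Complex.normSq_apply]
      ring
    have e2 : ‖p‖^2 < ‖q‖^2 := by
      have := norm_nonneg p
      nlinarith
    have e3 : ‖p + y j * q‖^2 < ‖(y j : ℂ) * p + q‖^2 := by nlinarith
    have e4 : ‖p + y j * q‖ < ‖(y j : ℂ) * p + q‖ := lt_of_pow_lt_pow_left₀ 2 (norm_nonneg _) e3
    calc ‖z‖ * ‖p + y j * q‖ ≤ 1 * ‖p + y j * q‖ := by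
          apply mul_le_mul_of_nonneg_right hz.le (norm_nonneg _)
      _ < _ := by simpa using e4

/-- on the unit circle `Q = z^{j+1} conj P` -/
lemma Qf_circle (y : ℕ → ℝ) : ∀ (j : ℕ) {z : ℂ}, ‖z‖ = 1 →
    Qf y j z = z^(j+1) * (starRingEnd ℂ) (Pf y j z) ∧
    Pf y j z = z^(j+1) * (starRingEnd ℂ) (Qf y j z)
  | 0, z, hz => by
    have : z * (starRingEnd ℂ) z = 1 := by
      rw [Complex.mul_conj, Complex.normSq_eq_norm_sq, hz]; simp
    simp [this]
  | j+1, z, hz => by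
    obtain ⟨h1, h2⟩ := Qf_circle y j hz
    have hzz : z * (starRingEnd ℂ) z = 1 := by
      rw [Complex.mul_conj, Complex.normSq_eq_norm_sq, hz]; simp
    rw [Pf_succ, Qf_succ]
    simp only [map_mul, map_add, Complex.conj_ofReal]
    constructor
    · linear_combination h1 + y j * h2 - (z^(j+1) * ((starRingEnd ℂ) (Pf y j z)
        + y j * (starRingEnd ℂ) (Qf y j z))) * hzz
    · linear_combination z * h2 + z * y j * h1

/-- The basic cross product relation. -/
lemma cross {n : ℕ} {τ : ℝ} {ψ x : ℕ → ℝ} (h : Sys n τ ψ x) : ∀ (j : ℕ), j < n → ∀ z : ℂ,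
    Pf (fun i => x (n-2-i)) j z * (UV τ x (n-1-j)).2 z
      - Qf (fun i => x (n-2-i)) j z * (z * (UV τ x (n-1-j)).1 z)
    = z^j * (z * ((UV τ x (n-1)).2 z - (UV τ x (n-1)).1 z))
  | 0, _, z => by simp; ring
  | j+1, hj, z => by
    have ih := cross h j (by omega) z
    obtain ⟨k, hk⟩ : ∃ k, n - 1 - j = k + 1 := ⟨n-1-(j+1), by omega⟩
    have hk2 : n - 1 - (j+1) = k := by omega
    have hk3 : n - 2 - j = k := by omega
    rw [hk2]
    rw [hk] at ih
    rw [Pf_succ, Qf_succ]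
    have hU : z * (UV τ x (k+1)).1 z = (UV τ x k).1 z - x k * (UV τ x k).2 z :=
      nextU_spec (h.chain_zero (k := k) (by omega)) z
    have hV : (UV τ x (k+1)).2 z = (UV τ x k).2 z - x k * (UV τ x k).1 z := rfl
    rw [hU, hV] at ih
    simp only [hk3]
    rw [pow_succ]
    linear_combination z * ih

/-- the contact of order `n+1` at the origin -/
lemma contact {n : ℕ} (hn : 0 < n) {τ : ℝ} {ψ x : ℕ → ℝ} (h : Sys n τ ψ x) (h1 : x (n-1) = 1) :
    ∃ H : ℂ → ℂ, DifferentiableOn ℂ H (ball 0 1) ∧ ∀ z : ℂ,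
      Pf (fun i => x (n-2-i)) (n-1) z * V0 τ z - Qf (fun i => x (n-2-i)) (n-1) z * S0 τ z
        = z^(n+1) * H z := by
  obtain ⟨hu, hv, _, _⟩ := h.chain (n-1) (by omega)
  have h0 := h.chain_zero (k := n-1) (by omega)
  rw [h1] at h0
  refine ⟨dslope (fun z => (UV τ x (n-1)).2 z - (UV τ x (n-1)).1 z) 0, ?_, fun z => ?_⟩
  · rw [Complex.differentiableOn_dslope ball_mem_nhds_zero]
    exact hv.sub hu
  · have hc := cross h (n-1) (by omega) z
    have e : n - 1 - (n-1) = 0 := by omega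
    rw [e] at hc
    have hs := sub_smul_dslope (fun z => (UV τ x (n-1)).2 z - (UV τ x (n-1)).1 z) 0 z
    simp only [sub_zero, smul_eq_mul] at hs
    have hU : z * (UV τ x 0).1 z = S0 τ z := U0_spec τ z
    have hV : (UV τ x 0).2 z = V0 τ z := rfl
    rw [hU, hV] at hc
    rw [hc]
    have e2 : z^(n+1) = z^(n-1) * z * z := by
      rw [← pow_succ, ← pow_succ]; congr 1; omega
    rw [e2]
    have h00 : (UV τ x (n-1)).2 0 - (UV τ x (n-1)).1 0 = 0 := by rw [h0]; simp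
    rw [h00, sub_zero] at hs
    linear_combination -z^(n-1) * z * hs

end Pool.Agent.H390
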