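import Mathlib

/-!
The step of the Schur algorithm for the function `sin (τ z/(1-z)) / (z cos (τ/(1-z)))`:
it keeps a first order linear system of differential equations on the unit disc.
-/

namespace Pool.Agent.H390

open Complex Metric Set Filter Topology

/-- the first equation -/
def E1 (k : ℕ) (d e p : ℝ) (u v : ℂ → ℂ) : Prop :=
  ∀ z ∈ ball (0:ℂ) 1, z * (1 - z)^2 * deriv u z
    = ((e:ℂ) * z - (k+1) * (1 - z)^2) * u z + ((d:ℂ) + (1 - z) * p) * v z

/-- the second equation -/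
def E2 (d e p : ℝ) (u v : ℂ → ℂ) : Prop :=
  ∀ z ∈ ball (0:ℂ) 1, (1 - z)^2 * deriv v z
    = (-(d:ℂ) * z + (1 - z) * p) * u z - (e:ℂ) * v z

lemma ball_mem_nhds_zero : ball (0:ℂ) 1 ∈ 𝓝 (0:ℂ) := ball_mem_nhds _ one_pos

lemma u_zero {k : ℕ} {x d e p : ℝ} (hx : ((k:ℝ)+1) * x = p + d)
    {u v : ℂ → ℂ} (h1 : E1 k d e p u v) : u 0 = x * v 0 := by
  have h := h1 0 (mem_ball_self one_pos)
  have hk : ((k:ℂ)+1) ≠ 0 := by exact_mod_cast Nat.succ_ne_zero k
  have hxc : ((k:ℂ)+1) * (x:ℂ) = p + d := by exact_mod_cast hx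
  have : ((k:ℂ)+1) * (u 0 - x * v 0) = 0 := by
    linear_combination h - v 0 * hxc
  have := (mul_eq_zero.mp this).resolve_left hk
  linear_combination this

/-- The next pair of functions. -/
noncomputable def nextU (x : ℝ) (u v : ℂ → ℂ) : ℂ → ℂ := dslope (fun z => u z - x * v z) 0

/-- The next pair of functions. -/
def nextV (x : ℝ) (u v : ℂ → ℂ) : ℂ → ℂ := fun z => v z - x * u z

lemma nextU_spec {x : ℝ} {u v : ℂ → ℂ} (h0 : u 0 = x * v 0) (z : ℂ) :
    z * nextU x u v z = u z - x * v z := by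
  have := sub_smul_dslope (fun z => u z - x * v z) 0 z
  simp only [sub_zero, smul_eq_mul] at this
  rw [nextU, this, h0]; ring

lemma nextU_diff {x : ℝ} {u v : ℂ → ℂ} (hu : DifferentiableOn ℂ u (ball 0 1))
    (hv : DifferentiableOn ℂ v (ball 0 1)) :
    DifferentiableOn ℂ (nextU x u v) (ball 0 1) := by
  rw [nextU, Complex.differentiableOn_dslope ball_mem_nhds_zero]
  exact hu.sub (hv.const_mul _)

lemma nextV_diff {x : ℝ} {u v : ℂ → ℂ} (hu : DifferentiableOn ℂ u (ball 0 1))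
    (hv : DifferentiableOn ℂ v (ball 0 1)) :
    DifferentiableOn ℂ (nextV x u v) (ball 0 1) := hv.sub (hu.const_mul _)

lemma step {k : ℕ} {x d e p d' e' p' : ℝ} (hx : ((k:ℝ)+1) * x = p + d) (hp' : p' = p + d)
    (hd' : (1 - x^2) * d' = (1 + x^2) * d + 2 * x * e)
    (he' : (1 - x^2) * e' = (1 + x^2) * e + 2 * x * d) (hx1 : 1 - x^2 ≠ 0)
    {u v : ℂ → ℂ} (hu : DifferentiableOn ℂ u (ball 0 1))
    (hv : DifferentiableOn ℂ v (ball 0 1)) (h1 : E1 k d e p u v) (h2 : E2 d e p u v) :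
    E1 (k+1) d' e' p' (nextU x u v) (nextV x u v) ∧ E2 d' e' p' (nextU x u v) (nextV x u v) := by
  have h0 : u 0 = x * v 0 := u_zero hx h1
  have hxc : ((k:ℂ)+1) * (x:ℂ) = p + d := by exact_mod_cast hx
  have hdc : (1 - (x:ℂ)^2) * d' = (1 + x^2) * d + 2 * x * e := by exact_mod_cast hd'
  have hec : (1 - (x:ℂ)^2) * e' = (1 + x^2) * e + 2 * x * d := by exact_mod_cast he'
  have hx1c : (1 - (x:ℂ)^2) ≠ 0 := by exact_mod_cast hx1
  have hpc : (p':ℂ) = p + d := by rw [hp']; push_cast; ring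
  have hU := nextU_diff (x := x) hu hv
  have hV := nextV_diff (x := x) hu hv
  have key1 : ∀ z ∈ ball (0:ℂ) 1, z ≠ 0 → z * (1 - z)^2 * deriv (nextU x u v) z
    = ((e':ℂ) * z - ((k+1:ℕ)+1) * (1 - z)^2) * nextU x u v z
      + ((d':ℂ) + (1 - z) * p') * nextV x u v z := by
    intro z hz hz0
    have hnz : ball (0:ℂ) 1 ∈ 𝓝 z := isOpen_ball.mem_nhds hz
    have hud : DifferentiableAt ℂ u z := (hu z hz).differentiableAt hnz
    have hvd : DifferentiableAt ℂ v z := (hv z hz).differentiableAt hnz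
    have hUd : DifferentiableAt ℂ (nextU x u v) z := (hU z hz).differentiableAt hnz
    -- derivative of z * nextU = u - x v
    have hder : nextU x u v z + z * deriv (nextU x u v) z = deriv u z - x * deriv v z := by
      have e1 : HasDerivAt (fun w => w * nextU x u v w)
          (1 * nextU x u v z + z * deriv (nextU x u v) z) z :=
        (hasDerivAt_id z).mul hUd.hasDerivAt
      have e2 : HasDerivAt (fun w => u w - x * v w) (deriv u z - x * deriv v z) z :=
        hud.hasDerivAt.sub (hvd.hasDerivAt.const_mul _)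
      have e3 : (fun w => w * nextU x u v w) = fun w => u w - x * v w := by
        funext w; exact nextU_spec h0 w
      rw [e3] at e1
      have := e1.unique e2
      linear_combination this
    have hs := nextU_spec h0 z
    have a1 := h1 z hz
    have a2 := h2 z hz
    have : z * (1 - (x:ℂ)^2) * (z * (1 - z)^2 * deriv (nextU x u v) z
      - (((e':ℂ) * z - ((k+1:ℕ)+1) * (1 - z)^2) * nextU x u v z
      + ((d':ℂ) + (1 - z) * p') * nextV x u v z)) = 0 := by
      rw [nextV, hpc]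
      push_cast
      have hp : (p:ℂ) = (k+1) * x - d := by linear_combination -hxc
      rw [hp] at a1 a2 ⊢
      linear_combination (1 - (x:ℂ)^2) * a1 - (x:ℂ) * z * (1 - (x:ℂ)^2) * a2
        + (1 - (x:ℂ)^2) * z * (1 - z)^2 * hder
        - z * (u z - x * v z) * hec - z * (v z - x * u z) * hdc
        + (-(1 - (x:ℂ)^2) * (1-z)^2 + (1 - (x:ℂ)^2) * (((k:ℂ)+1+1) * (1-z)^2)
           - (1-(x:ℂ)^2) * e' * z) * hs
    have hne : z * (1 - (x:ℂ)^2) ≠ 0 := mul_ne_zero hz0 hx1c
    have := (mul_eq_zero.mp this).resolve_left hne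
    linear_combination this
  have key2 : ∀ z ∈ ball (0:ℂ) 1, z ≠ 0 → (1 - z)^2 * deriv (nextV x u v) z
    = (-(d':ℂ) * z + (1 - z) * p') * nextU x u v z - (e':ℂ) * nextV x u v z := by
    intro z hz hz0
    have hnz : ball (0:ℂ) 1 ∈ 𝓝 z := isOpen_ball.mem_nhds hz
    have hud : DifferentiableAt ℂ u z := (hu z hz).differentiableAt hnz
    have hvd : DifferentiableAt ℂ v z := (hv z hz).differentiableAt hnz
    have e2 : deriv (nextV x u v) z = deriv v z - x * deriv u z :=
      (hvd.hasDerivAt.sub (hud.hasDerivAt.const_mul _)).deriv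
    have hs := nextU_spec h0 z
    have a1 := h1 z hz
    have a2 := h2 z hz
    have : z * (1 - (x:ℂ)^2) * ((1 - z)^2 * deriv (nextV x u v) z
      - ((-(d':ℂ) * z + (1 - z) * p') * nextU x u v z - (e':ℂ) * nextV x u v z)) = 0 := by
      rw [e2, nextV, hpc]
      have hp : (p:ℂ) = (k+1) * x - d := by linear_combination -hxc
      rw [hp] at a1 a2 ⊢
      linear_combination -(x:ℂ) * (1 - (x:ℂ)^2) * a1 + z * (1 - (x:ℂ)^2) * a2
        + z * (v z - x * u z) * hec + z * (u z - x * v z) * hdc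
        - (1 - (x:ℂ)^2) * (-(d':ℂ) * z + (1-z) * ((k:ℂ)+1) * x) * hs
    have hne : z * (1 - (x:ℂ)^2) ≠ 0 := mul_ne_zero hz0 hx1c
    have := (mul_eq_zero.mp this).resolve_left hne
    linear_combination this
  have hUd' : ContinuousAt (deriv (nextU x u v)) 0 :=
    ((hU.deriv isOpen_ball).continuousOn.continuousAt ball_mem_nhds_zero)
  have hVd' : ContinuousAt (deriv (nextV x u v)) 0 :=
    ((hV.deriv isOpen_ball).continuousOn.continuousAt ball_mem_nhds_zero)
  have hUc : ContinuousAt (nextU x u v) 0 := hU.continuousOn.continuousAt ball_mem_nhds_zero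
  have hVc : ContinuousAt (nextV x u v) 0 := hV.continuousOn.continuousAt ball_mem_nhds_zero
  have hlim : ∀ f g : ℂ → ℂ, ContinuousAt f 0 → ContinuousAt g 0 →
      (∀ z ∈ ball (0:ℂ) 1, z ≠ 0 → f z = g z) → f 0 = g 0 := by
    intro f g hf hg h
    have h3 : ∀ᶠ z in 𝓝[≠] (0:ℂ), f z = g z := by
      filter_upwards [self_mem_nhdsWithin, mem_nhdsWithin_of_mem_nhds ball_mem_nhds_zero]
        with z hz hz' using h z hz' hz
    have t1 : Tendsto f (𝓝[≠] (0:ℂ)) (𝓝 (f 0)) := hf.tendsto.mono_left nhdsWithin_le_nhds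
    have t2 : Tendsto g (𝓝[≠] (0:ℂ)) (𝓝 (g 0)) := hg.tendsto.mono_left nhdsWithin_le_nhds
    exact tendsto_nhds_unique (t1.congr' h3) t2
  constructor
  · intro z hz
    by_cases hz0 : z = 0
    · subst hz0
      refine hlim (fun z => z * (1 - z)^2 * deriv (nextU x u v) z)
        (fun z => ((e':ℂ) * z - ((k+1:ℕ)+1) * (1 - z)^2) * nextU x u v z
      + ((d':ℂ) + (1 - z) * p') * nextV x u v z) ?_ ?_ key1
      · fun_prop
      · fun_prop
    · exact key1 z hz hz0
  · intro z hz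
    by_cases hz0 : z = 0
    · subst hz0
      refine hlim (fun z => (1 - z)^2 * deriv (nextV x u v) z)
        (fun z => (-(d':ℂ) * z + (1 - z) * p') * nextU x u v z - (e':ℂ) * nextV x u v z)
        ?_ ?_ key2
      · fun_prop
      · fun_prop
    · exact key2 z hz hz0

end Pool.Agent.H390
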